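import Mathlib
import Pool.Agent.Lib.MP_629a14_nt.Th.Defs

/-!
# Erdos-Woods numbers: definitions
-/

set_option autoImplicit false

open Finset

namespace Pool.Agent.Lib.MP_a9e8ee_lc.EW

/-- no integer strictly inside the interval from `a` to `a + d` is coprime to both endpoints -/
def NC (a d : ℕ) : Prop :=
  ∀ c, a < c → c < a + d → 1 < Nat.gcd c a ∨ 1 < Nat.gcd c (a + d)

/-- the set of Erdos-Woods numbers -/
def ES : Set ℕ := {d | 3 ≤ d ∧ ∃ a, NC a d}

/-- the character sum over the prime powers `m ≤ N`, `m ≡ 1` modulo `M`, with the weights of von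
Mangoldt -/
noncomputable def chiS (M N : ℕ) {q : ℕ} (χ : DirichletCharacter ℂ q) : ℂ :=
  ∑ m ∈ (Icc 1 N).filter (fun m => m ≡ 1 [MOD M]), (ArithmeticFunction.vonMangoldt m : ℂ) * χ m

/-- the primitive characters with prime modulus in `(Q, 2 Q]` -/
noncomputable def PC (Q : ℕ) : Finset Pool.Agent.Lib.MP_629a14_nt.Th.CH :=
  (Pool.Agent.Lib.MP_629a14_nt.Th.prims (2 * Q)).filter fun x => x.1.Prime ∧ Q < x.1

/-- the coefficients of the bilinear sum in Vaughan's identity -/
noncomputable def bet (U b : ℕ) : ℝ :=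
  ∑ d ∈ b.divisors.filter (fun d => U < d), (ArithmeticFunction.moebius d : ℝ)

/-- the sum of `log r` over the primes `r ≤ N` with `r ≡ 1` modulo `M` and `n ∣ r - 1` -/
noncomputable def AA (M N n : ℕ) : ℝ :=
  ∑ r ∈ (Icc 1 N).filter (fun r => r.Prime ∧ r ≡ 1 [MOD M] ∧ n ∣ r - 1), Real.log r


end Pool.Agent.Lib.MP_a9e8ee_lc.EW
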