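import Mathlib
import Pool.Agent.Lib.MP_a9e8ee_lc.EW.Defs
import Pool.Agent.Lib.MP_629a14_nt.Rob.BT
import Pool.Agent.Lib.MP_629a14_nt.Rob.VBound

/-!
# Brun-Titchmarsh
-/

set_option autoImplicit false

open Finset

namespace Pool.Agent.Lib.MP_a9e8ee_lc.EW

open Pool.Agent.Lib.MP_629a14_nt.Rob

private theorem half_le_floor {x : ℝ} (hx : 1 ≤ x) : x / 2 ≤ (⌊x⌋₊ : ℝ) := by
  have h1 : 1 ≤ ⌊x⌋₊ := (Nat.one_le_floor_iff x).mpr hx
  have h2 : x < (⌊x⌋₊ : ℝ) + 1 := Nat.lt_floor_add_one x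
  have h3 : (1 : ℝ) ≤ (⌊x⌋₊ : ℝ) := by exact_mod_cast h1
  linarith

/-- the number of primes `r ≤ N`, `r ≡ 1` modulo `M` and `n` -/
private noncomputable def ct (M N n : ℕ) : Finset ℕ :=
  (Icc 1 N).filter (fun r => r.Prime ∧ r ≡ 1 [MOD M] ∧ n ∣ r - 1)

private theorem AA_le_card (M N n : ℕ) : AA M N n ≤ (ct M N n).card * Real.log N := by
  unfold AA ct
  rw [← nsmul_eq_mul]
  refine Finset.sum_le_card_nsmul _ _ _ fun r hr => ?_
  rw [mem_filter, mem_Icc] at hr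
  exact Real.log_le_log (by exact_mod_cast hr.1.1) (by exact_mod_cast hr.1.2)

private theorem ct_card_le (M N n z : ℕ) :
    (ct M N n).card ≤ z + cntR 0 N (Nat.lcm n M) 1 z := by
  have h1 : ct M N n ⊆ range z ∪
      (Ioc 0 (0 + N)).filter (fun r => r ≡ 1 [MOD Nat.lcm n M] ∧ Rough z r) := by
    intro r hr
    unfold ct at hr
    rw [mem_filter, mem_Icc] at hr
    obtain ⟨⟨h1r, hrN⟩, hp, hM, hn⟩ := hr
    rw [mem_union]
    rcases lt_or_ge r z with h | h
    · left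
      exact mem_range.mpr h
    · right
      rw [mem_filter, mem_Ioc]
      refine ⟨⟨by omega, by omega⟩, ?_, ?_⟩
      · have hM' : M ∣ r - 1 := (Nat.modEq_iff_dvd' h1r).mp hM.symm
        exact ((Nat.modEq_iff_dvd' h1r).mpr (Nat.lcm_dvd hn hM')).symm
      · intro p hpp hpr
        have : p = r := (Nat.prime_dvd_prime_iff_eq hpp hp).mp hpr
        omega
  refine (card_le_card h1).trans ((card_union_le _ _).trans ?_)
  rw [card_range]
  rfl

/-- Brun-Titchmarsh for the moduli up to `N^(3/4)`. PROOF. The primes `r > z'` in question are counted by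
`cntR 0 N q 1 z'` with `q = lcm n M` (those `≤ z'` are at most `z'`), and `upper` with `R = ⌊N^(1/32)⌋`,
`z' = ⌊N^t⌋`, `t = 1/(32 (s + 1))` as in the proof of `bt`: `≤ 2 (N / q) Vq q z' + N^(1/8)`,
`Vq q z' ≤ (q / φ q) / log z'` (`Vq_le`, `V_le`), `N^(1/8) + z' ≤ N / (q log N)` because `q ≤ M N^(3/4)` and
`φ q ≥ φ n`. Then `AA ≤ log N * count`. -/
theorem AA_bt : ∃ C : ℝ, 1 ≤ C ∧ ∀ M : ℕ, 1 ≤ M → ∃ N₀ : ℕ, ∀ N : ℕ, N₀ ≤ N → ∀ n : ℕ, 1 ≤ n →
    (n : ℝ) ≤ (N : ℝ) ^ (3 / 4 : ℝ) → AA M N n ≤ C * N / n.totient := by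
  obtain ⟨C₀, hC₀, hup⟩ := upper
  set s : ℝ := Real.log (2 * C₀) with hs
  have hs0 : 0 ≤ s := Real.log_nonneg (by linarith)
  set t : ℝ := 1 / (32 * (s + 1)) with ht
  have ht0 : 0 < t := by positivity
  have ht32 : t ≤ 1 / 32 := by
    rw [ht, div_le_div_iff₀ (by positivity) (by norm_num)]
    nlinarith
  have hts : t * (s + 1) = 1 / 32 := by
    rw [ht]; field_simp
  obtain ⟨N₀, hN₀⟩ : ∃ N₀ : ℕ, ∀ N : ℕ, N₀ ≤ N → 2 * Real.log 2 / t ≤ Real.log N := by
    have h1 : Filter.Tendsto (fun N : ℕ => Real.log N) Filter.atTop Filter.atTop :=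
      Real.tendsto_log_atTop.comp tendsto_natCast_atTop_atTop
    exact Filter.eventually_atTop.mp (h1.eventually_ge_atTop _)
  refine ⟨128 * (s + 1) + 16, by linarith, fun M hM => ⟨max N₀ 2, ?_⟩⟩
  intro N hN n hn hnN
  have hNN : N₀ ≤ N := le_of_max_le_left hN
  have hN2 : 2 ≤ N := le_of_max_le_right hN
  have hNr : (2 : ℝ) ≤ N := by exact_mod_cast hN2
  have hN1 : (1 : ℝ) ≤ N := by linarith
  have hNpos : (0 : ℝ) < N := by linarith
  set L : ℝ := Real.log N with hL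
  have hLpos : 0 < L := Real.log_pos (by linarith)
  have hlog2 : 0 < Real.log 2 := Real.log_pos (by norm_num)
  have htL : 2 * Real.log 2 ≤ t * L := by
    have := hN₀ N hNN
    rw [div_le_iff₀ ht0] at this
    linarith
  have hpow : ∀ a : ℝ, (N : ℝ) ^ a = Real.exp (a * L) := by
    intro a
    rw [Real.rpow_def_of_pos hNpos, mul_comm]
  have hpow1 : ∀ a : ℝ, 0 ≤ a → (1 : ℝ) ≤ (N : ℝ) ^ a := fun a ha =>
    Real.one_le_rpow hN1 ha
  set z' : ℕ := ⌊(N : ℝ) ^ t⌋₊ with hz'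
  set R : ℕ := ⌊(N : ℝ) ^ (1 / 32 : ℝ)⌋₊ with hR
  have hz4 : (4 : ℝ) ≤ (N : ℝ) ^ t := by
    rw [hpow]
    have : (4 : ℝ) = Real.exp (2 * Real.log 2) := by
      rw [two_mul, Real.exp_add, Real.exp_log (by norm_num)]; norm_num
    rw [this]
    exact Real.exp_le_exp.mpr htL
  have hz'le : (z' : ℝ) ≤ (N : ℝ) ^ t := Nat.floor_le (by linarith)
  have hz'ge : (N : ℝ) ^ t / 2 ≤ (z' : ℝ) := half_le_floor (by linarith)
  have hz'2 : 2 ≤ z' := by
    have : (2 : ℝ) ≤ z' := by linarith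
    exact_mod_cast this
  have hz'2r : (2 : ℝ) ≤ z' := by exact_mod_cast hz'2
  have hlogz_le : Real.log z' ≤ t * L := by
    have h1 := Real.log_le_log (by linarith) hz'le
    rwa [Real.log_rpow hNpos] at h1
  have hlogz_ge : t * L / 2 ≤ Real.log z' := by
    have h1 := Real.log_le_log (by linarith) hz'ge
    rw [Real.log_div (by linarith) (by norm_num), Real.log_rpow hNpos] at h1
    linarith
  have hlogz_pos : 0 < Real.log z' := Real.log_pos (by linarith)
  have hR1r : (1 : ℝ) ≤ (N : ℝ) ^ (1 / 32 : ℝ) := hpow1 _ (by positivity)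
  have hR1 : 1 ≤ R := (Nat.one_le_floor_iff _).mpr hR1r
  have hRr : (1 : ℝ) ≤ R := by exact_mod_cast hR1
  have hRle : (R : ℝ) ≤ (N : ℝ) ^ (1 / 32 : ℝ) := Nat.floor_le (by linarith)
  have hRge : (N : ℝ) ^ (1 / 32 : ℝ) / 2 ≤ (R : ℝ) := half_le_floor hR1r
  have hlogR : 1 / 32 * L - Real.log 2 ≤ Real.log R := by
    have h1 := Real.log_le_log (by linarith) hRge
    rw [Real.log_div (by linarith) (by norm_num), Real.log_rpow hNpos] at h1
    exact h1
  have hratio : s ≤ Real.log R / Real.log z' := by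
    rw [le_div_iff₀ hlogz_pos]
    have h1 : s * Real.log z' ≤ s * (t * L) := mul_le_mul_of_nonneg_left hlogz_le hs0
    have h2 : 1 / 32 * L = s * (t * L) + t * L := by
      rw [← hts]; ring
    linarith
  have hexp : C₀ * Real.exp (-(Real.log R / Real.log z')) ≤ 1 / 2 := by
    have h1 : Real.exp (-(Real.log R / Real.log z')) ≤ Real.exp (-s) :=
      Real.exp_le_exp.mpr (by linarith)
    have h2 : Real.exp (-s) = (2 * C₀)⁻¹ := by
      rw [Real.exp_neg, hs, Real.exp_log (by linarith)]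
    rw [h2] at h1
    calc C₀ * Real.exp (-(Real.log R / Real.log z')) ≤ C₀ * (2 * C₀)⁻¹ :=
          mul_le_mul_of_nonneg_left h1 (by linarith)
      _ = 1 / 2 := by
          have : C₀ ≠ 0 := by linarith
          field_simp
  set q : ℕ := Nat.lcm n M with hq
  have hq1 : 1 ≤ q := Nat.lcm_pos (by omega) (by omega)
  have hmain := hup 0 N q 1 z' R hq1 (Nat.coprime_one_left q) hz'2 hR1 hexp
  have hq0 : (0 : ℝ) < q := by exact_mod_cast hq1
  have hφq0 : (0 : ℝ) < q.totient := by exact_mod_cast Nat.totient_pos.mpr hq1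
  have hφ0 : (0 : ℝ) < n.totient := by exact_mod_cast Nat.totient_pos.mpr hn
  have hφle : (n.totient : ℝ) ≤ q.totient := by
    exact_mod_cast Nat.le_of_dvd (Nat.totient_pos.mpr hq1)
      (Nat.totient_dvd_of_dvd (Nat.dvd_lcm_left n M))
  have hV : Vq q z' ≤ (q : ℝ) / q.totient * (2 / (t * L)) := by
    refine (Vq_le q z' hq1).trans (mul_le_mul_of_nonneg_left ?_ (by positivity))
    refine (V_le z' hz'2).trans ?_
    rw [div_le_div_iff₀ hlogz_pos (by positivity)]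
    linarith
  have hVpos := Vq_pos q z'
  have hfirst : (N : ℝ) / q * Vq q z' *
      (1 + 2 * C₀ * Real.exp (-(Real.log R / Real.log z'))) ≤
      128 * (s + 1) * ((N : ℝ) / ((n.totient : ℝ) * L)) := by
    have h1 : 1 + 2 * C₀ * Real.exp (-(Real.log R / Real.log z')) ≤ 2 := by linarith
    have h2 : 0 ≤ (N : ℝ) / q * Vq q z' := by positivity
    calc (N : ℝ) / q * Vq q z' * (1 + 2 * C₀ * Real.exp (-(Real.log R / Real.log z')))
        ≤ (N : ℝ) / q * Vq q z' * 2 := mul_le_mul_of_nonneg_left h1 h2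
      _ ≤ (N : ℝ) / q * ((q : ℝ) / q.totient * (2 / (t * L))) * 2 := by
          refine mul_le_mul_of_nonneg_right ?_ (by norm_num)
          exact mul_le_mul_of_nonneg_left hV (by positivity)
      _ = 128 * (s + 1) * ((N : ℝ) / ((q.totient : ℝ) * L)) := by
          rw [ht]
          field_simp
          ring
      _ ≤ 128 * (s + 1) * ((N : ℝ) / ((n.totient : ℝ) * L)) := by
          refine mul_le_mul_of_nonneg_left ?_ (by positivity)
          exact div_le_div_of_nonneg_left hNpos.le (by positivity)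
            (mul_le_mul_of_nonneg_right hφle hLpos.le)
  have hR4 : (R : ℝ) ^ 4 ≤ (N : ℝ) ^ (1 / 8 : ℝ) := by
    calc (R : ℝ) ^ 4 ≤ ((N : ℝ) ^ (1 / 32 : ℝ)) ^ 4 := pow_le_pow_left₀ (by linarith) hRle 4
      _ = (N : ℝ) ^ (1 / 8 : ℝ) := by
          rw [← Real.rpow_natCast, ← Real.rpow_mul hNpos.le]
          norm_num
  have hz8 : (z' : ℝ) ≤ (N : ℝ) ^ (1 / 8 : ℝ) :=
    hz'le.trans (Real.rpow_le_rpow_of_exponent_le hN1 (by linarith))
  have hsecond : 2 * (N : ℝ) ^ (1 / 8 : ℝ) * L ≤ 16 * ((N : ℝ) / n.totient) := by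
    have h2 : L ≤ (N : ℝ) ^ (1 / 8 : ℝ) / (1 / 8) := Real.log_le_rpow_div hNpos.le (by positivity)
    have h3 : (n.totient : ℝ) ≤ (N : ℝ) ^ (3 / 4 : ℝ) :=
      le_trans (by exact_mod_cast Nat.totient_le n) hnN
    rw [← mul_div_assoc, le_div_iff₀ hφ0]
    have h5 : (N : ℝ) ^ (1 / 8 : ℝ) * (N : ℝ) ^ (1 / 8 : ℝ) * (N : ℝ) ^ (3 / 4 : ℝ) = N := by
      rw [← Real.rpow_add hNpos, ← Real.rpow_add hNpos]
      norm_num
    calc 2 * (N : ℝ) ^ (1 / 8 : ℝ) * L * n.totient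
        ≤ 2 * (N : ℝ) ^ (1 / 8 : ℝ) * ((N : ℝ) ^ (1 / 8 : ℝ) / (1 / 8)) * (N : ℝ) ^ (3 / 4 : ℝ) := by
          gcongr
      _ = 16 * ((N : ℝ) ^ (1 / 8 : ℝ) * (N : ℝ) ^ (1 / 8 : ℝ) * (N : ℝ) ^ (3 / 4 : ℝ)) := by ring
      _ = 16 * N := by rw [h5]
  have hcard : ((ct M N n).card : ℝ) ≤
      128 * (s + 1) * ((N : ℝ) / ((n.totient : ℝ) * L)) + 2 * (N : ℝ) ^ (1 / 8 : ℝ) := by
    have h1 : ((ct M N n).card : ℝ) ≤ (z' : ℝ) + (cntR 0 N q 1 z' : ℝ) := by
      exact_mod_cast ct_card_le M N n z'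
    linarith
  calc AA M N n ≤ (ct M N n).card * L := AA_le_card M N n
    _ ≤ (128 * (s + 1) * ((N : ℝ) / ((n.totient : ℝ) * L)) + 2 * (N : ℝ) ^ (1 / 8 : ℝ)) * L :=
        mul_le_mul_of_nonneg_right hcard hLpos.le
    _ = 128 * (s + 1) * ((N : ℝ) / n.totient) + 2 * (N : ℝ) ^ (1 / 8 : ℝ) * L := by
        field_simp
    _ ≤ 128 * (s + 1) * ((N : ℝ) / n.totient) + 16 * ((N : ℝ) / n.totient) := by linarith
    _ = (128 * (s + 1) + 16) * N / n.totient := by ring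

/-- the trivial bound: at most `N / n` numbers `r ≡ 1` modulo `n`, `1 < r ≤ N` -/
theorem AA_triv (M N n : ℕ) (hn : 1 ≤ n) : AA M N n ≤ N / n * Real.log N := by
  rcases Nat.eq_zero_or_pos N with h0 | hN
  · subst h0
    simp [AA]
  have hL : 0 ≤ Real.log N := Real.log_natCast_nonneg N
  refine (AA_le_card M N n).trans (mul_le_mul_of_nonneg_right ?_ hL)
  have h1 : (ct M N n).card ≤ N / n := by
    have h2 : (ct M N n).card ≤ (Icc 1 (N / n)).card := by
      refine card_le_card_of_injOn (fun r => (r - 1) / n) ?_ ?_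
      · intro r hr
        unfold ct at hr
        rw [mem_coe, mem_filter, mem_Icc] at hr
        obtain ⟨⟨h1r, hrN⟩, hp, -, k, hk⟩ := hr
        have h2 := hp.two_le
        rw [mem_coe, mem_Icc]
        have hk0 : 0 < k := by
          rcases Nat.eq_zero_or_pos k with h | h
          · subst h
            omega
          · exact h
        show 1 ≤ (r - 1) / n ∧ (r - 1) / n ≤ N / n
        refine ⟨?_, Nat.div_le_div_right (by omega)⟩
        rw [hk, Nat.mul_div_cancel_left _ (by omega)]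
        exact hk0
      · intro a ha b hb hab
        unfold ct at ha hb
        rw [mem_coe, mem_filter, mem_Icc] at ha hb
        obtain ⟨⟨h1a, -⟩, -, -, k, hk⟩ := ha
        obtain ⟨⟨h1b, -⟩, -, -, l, hl⟩ := hb
        change (a - 1) / n = (b - 1) / n at hab
        rw [hk, hl, Nat.mul_div_cancel_left _ (by omega), Nat.mul_div_cancel_left _ (by omega)] at hab
        subst hab
        omega
    simpa using h2
  calc ((ct M N n).card : ℝ) ≤ ((N / n : ℕ) : ℝ) := by exact_mod_cast h1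
    _ ≤ (N : ℝ) / n := Nat.cast_div_le

end Pool.Agent.Lib.MP_a9e8ee_lc.EW
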