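import Mathlib
import Pool.Agent.Lib.MP_629a14_nt.Fourier

/-!
# Separation of variables
-/

set_option autoImplicit false

open Finset

namespace Pool.Agent.Lib.MP_a9e8ee_lc.EW

open Pool.Agent.Lib.MP_629a14_nt in
/-- The distance of `ee t` to `1`. -/
theorem sep_dist (t : ℝ) (h0 : 0 < t) (h1 : t < 1) : 2 * min t (1 - t) ≤ ‖ee (-t) - 1‖ := by
  have e1 : ee (-t) - 1 = ee (-t) * (1 - ee t) := by
    rw [mul_sub, mul_one, ← ee_add, neg_add_cancel, ee_zero]
  have e2 : ‖ee (-t) - 1‖ = ‖Complex.exp (Complex.I * ((2 * Real.pi * t : ℝ) : ℂ)) - 1‖ := by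
    rw [e1, norm_mul, norm_ee, one_mul, norm_sub_rev]
    congr 2
    unfold ee
    congr 1
    push_cast
    ring
  rw [e2, Complex.norm_exp_I_mul_ofReal_sub_one]
  have e3 : 2 * Real.pi * t / 2 = Real.pi * t := by ring
  rw [e3, norm_mul]
  have e4 : ‖(2 : ℝ)‖ = 2 := by norm_num
  rw [e4]
  refine mul_le_mul_of_nonneg_left ?_ (by norm_num)
  have hs : 0 ≤ Real.sin (Real.pi * t) :=
    Real.sin_nonneg_of_nonneg_of_le_pi (mul_nonneg Real.pi_pos.le h0.le)
      (mul_le_of_le_one_right Real.pi_pos.le h1.le)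
  rw [Real.norm_of_nonneg hs]
  rcases le_total t (1 / 2) with h | h
  · refine (min_le_left _ _).trans ?_
    have h2 := Real.mul_le_sin (mul_nonneg Real.pi_pos.le h0.le) (by nlinarith [Real.pi_pos])
    have h3 : 2 / Real.pi * (Real.pi * t) = 2 * t := by
      field_simp
    linarith
  · refine (min_le_right _ _).trans ?_
    have h2 := Real.mul_le_sin (mul_nonneg Real.pi_pos.le (by linarith : (0 : ℝ) ≤ 1 - t))
      (by nlinarith [Real.pi_pos])
    have h3 : 2 / Real.pi * (Real.pi * (1 - t)) = 2 * (1 - t) := by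
      field_simp
    have h4 : Real.sin (Real.pi * (1 - t)) = Real.sin (Real.pi * t) := by
      rw [mul_sub, mul_one, Real.sin_pi_sub]
    rw [← h4]
    linarith

open Pool.Agent.Lib.MP_629a14_nt in
/-- The geometric sum. -/
theorem sep_geom (K : ℕ) (y h : ℕ) (h0 : 0 < h) (hK : h < K) :
    ‖(1 / (K : ℂ)) * ∑ j ∈ Icc 1 y, ee (-((h : ℝ) * j / K))‖ ≤
      1 / (h : ℝ) + 1 / ((K - h : ℕ) : ℝ) := by
  have hK0 : (0 : ℝ) < K := by exact_mod_cast h0.trans hK
  have hh0 : (0 : ℝ) < h := by exact_mod_cast h0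
  have hd0 : (0 : ℝ) < ((K - h : ℕ) : ℝ) := by exact_mod_cast Nat.sub_pos_of_lt hK
  have hcast : ((K - h : ℕ) : ℝ) = (K : ℝ) - h := Nat.cast_sub hK.le
  obtain ⟨t, ht⟩ : ∃ t : ℝ, t = (h : ℝ) / K := ⟨_, rfl⟩
  have ht0 : 0 < t := by
    rw [ht]
    exact div_pos hh0 hK0
  have ht1 : t < 1 := by
    rw [ht, div_lt_one hK0]
    exact_mod_cast hK
  obtain ⟨z, hz⟩ : ∃ z : ℂ, z = ee (-t) := ⟨_, rfl⟩
  have hz1 : 2 * min t (1 - t) ≤ ‖z - 1‖ := by
    rw [hz]
    exact sep_dist t ht0 ht1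
  have hm : 0 < min t (1 - t) := lt_min ht0 (by linarith)
  have hz2 : 0 < ‖z - 1‖ := by linarith
  have hsum : ∑ j ∈ Icc 1 y, ee (-((h : ℝ) * j / K)) = ∑ j ∈ Icc 1 y, z ^ j := by
    refine sum_congr rfl fun j _ => ?_
    rw [hz, ← ee_nat_mul, ht]
    congr 1
    ring
  have hgs : ∑ j ∈ Icc 1 y, z ^ j = z * ∑ j ∈ range y, z ^ j := by
    rw [mul_sum, range_eq_Ico]
    rw [Finset.sum_Ico_eq_sum_range]
    have : Icc 1 y = Ico 1 (y + 1) := by
      ext j
      simp only [mem_Icc, mem_Ico]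
      omega
    rw [this, Finset.sum_Ico_eq_sum_range]
    simp only [Nat.add_sub_cancel, Nat.sub_zero, Nat.zero_add]
    refine sum_congr rfl fun j _ => ?_
    rw [pow_add, pow_one]
  have hnz : ‖z‖ = 1 := by
    rw [hz, norm_ee]
  have hb : ‖∑ j ∈ Icc 1 y, z ^ j‖ ≤ 2 / ‖z - 1‖ := by
    rw [hgs, norm_mul, hnz, one_mul, le_div_iff₀ hz2, ← norm_mul, geom_sum_mul]
    refine (norm_sub_le _ _).trans ?_
    rw [norm_pow, hnz, one_pow, norm_one]
    norm_num
  rw [hsum, norm_mul]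
  have e1 : ‖(1 / (K : ℂ))‖ = 1 / (K : ℝ) := by
    rw [norm_div, norm_one, Complex.norm_natCast]
  rw [e1]
  have e2 : 2 / ‖z - 1‖ ≤ 1 / min t (1 - t) := by
    rw [div_le_div_iff₀ hz2 hm, one_mul]
    exact hz1
  have e3 : 1 / min t (1 - t) ≤ 1 / t + 1 / (1 - t) := by
    have h1t : 0 < 1 - t := by linarith
    rcases min_choice t (1 - t) with h2 | h2
    · rw [h2]
      have := (one_div_pos.2 h1t).le
      linarith
    · rw [h2]
      have := (one_div_pos.2 ht0).le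
      linarith
  have e4 : 1 / (K : ℝ) * (1 / t + 1 / (1 - t)) = 1 / (h : ℝ) + 1 / ((K - h : ℕ) : ℝ) := by
    have h5 : (K : ℝ) * t = h := by
      rw [ht]
      field_simp
    have h6 : (K : ℝ) * (1 - t) = ((K - h : ℕ) : ℝ) := by
      rw [hcast, mul_sub, h5, mul_one]
    rw [mul_add, one_div_mul_one_div, one_div_mul_one_div, h5, h6]
  calc 1 / (K : ℝ) * ‖∑ j ∈ Icc 1 y, z ^ j‖
      ≤ 1 / (K : ℝ) * (1 / t + 1 / (1 - t)) :=
        mul_le_mul_of_nonneg_left ((hb.trans e2).trans e3) (one_div_pos.2 hK0).le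
    _ = _ := e4

open Pool.Agent.Lib.MP_629a14_nt in
/-- Separation of the variables in `b ≤ y`. PROOF. `c y h = (1/K) ∑ j ∈ Icc 1 y, ee (-(h j / K))`, orthogonality
of the additive characters modulo `K` (`1 ≤ b, j < K`). `w 0 = 1`, and for `0 < h < K`:
`‖c y h‖ ≤ 1/(K · 2 ‖h/K‖)`, geometric sum, `≤ 1/(2 min h (K - h))`; `w h = 1/h + 1/(K - h)`. The sum of
`w` is at most `1 + 2 (1 + log K)`. -/
theorem sep (K : ℕ) (hK : 2 ≤ K) : ∃ (c : ℕ → ℕ → ℂ) (w : ℕ → ℝ), (∀ h, 0 ≤ w h) ∧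
    (∀ y < K, ∀ h < K, ‖c y h‖ ≤ w h) ∧ ∑ h ∈ range K, w h ≤ 3 + 2 * Real.log K ∧
    ∀ y < K, ∀ b, 1 ≤ b → b < K →
      (if b ≤ y then (1 : ℂ) else 0) = ∑ h ∈ range K, c y h * ee (h * b / K) := by
  have hK0 : (0 : ℝ) < K := by exact_mod_cast (by omega : 0 < K)
  have hKC : (K : ℂ) ≠ 0 := by exact_mod_cast (by omega : K ≠ 0)
  refine ⟨fun y h => (1 / (K : ℂ)) * ∑ j ∈ Icc 1 y, ee (-((h : ℝ) * j / K)),
    fun h => if h = 0 then 1 else 1 / (h : ℝ) + 1 / ((K - h : ℕ) : ℝ), fun h => ?_,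
    fun y hy h hh => ?_, ?_, fun y hy b hb1 hbK => ?_⟩
  · dsimp only
    split_ifs
    · norm_num
    · positivity
  · dsimp only
    split_ifs with h0
    · rw [h0]
      have e1 : ∑ j ∈ Icc 1 y, ee (-(((0 : ℕ) : ℝ) * j / K)) = (y : ℂ) := by
        rw [sum_congr rfl (fun j _ => by rw [Nat.cast_zero, zero_mul, zero_div, neg_zero, ee_zero]),
          sum_const, Nat.card_Icc, Nat.add_sub_cancel, nsmul_eq_mul, mul_one]
      rw [e1, norm_mul, norm_div, norm_one, Complex.norm_natCast, Complex.norm_natCast,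
        one_div_mul_eq_div, div_le_one hK0]
      exact_mod_cast hy.le
    · exact sep_geom K y h (Nat.pos_of_ne_zero h0) hh
  · obtain ⟨N, rfl⟩ : ∃ N, K = N + 1 := ⟨K - 1, by omega⟩
    rw [sum_range_succ', if_pos rfl]
    have e1 : ∀ i ∈ range N, (if i + 1 = 0 then (1 : ℝ) else
        1 / ((i + 1 : ℕ) : ℝ) + 1 / ((N + 1 - (i + 1) : ℕ) : ℝ)) =
        1 / ((i + 1 : ℕ) : ℝ) + 1 / ((N - 1 - i + 1 : ℕ) : ℝ) := by
      intro i hi
      rw [mem_range] at hi
      rw [if_neg (Nat.succ_ne_zero i)]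
      congr 4
      omega
    rw [sum_congr rfl e1, sum_add_distrib,
      sum_range_reflect (fun i => 1 / ((i + 1 : ℕ) : ℝ)) N]
    have e2 : ∑ i ∈ range N, 1 / ((i + 1 : ℕ) : ℝ) = ((harmonic N : ℚ) : ℝ) := by
      rw [harmonic]
      push_cast
      exact sum_congr rfl fun i _ => by rw [one_div]
    have e3 := harmonic_le_one_add_log N
    have e4 : Real.log N ≤ Real.log ((N + 1 : ℕ) : ℝ) := by
      apply Real.log_le_log
      · exact_mod_cast (by omega : 0 < N)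
      · exact_mod_cast Nat.le_succ N
    rw [e2]
    linarith
  · dsimp only
    have e1 : ∀ h ∈ range K, (1 / (K : ℂ)) * (∑ j ∈ Icc 1 y, ee (-((h : ℝ) * j / K))) *
        ee (h * b / K) = ∑ j ∈ Icc 1 y,
          (1 / (K : ℂ)) * ee ((h : ℝ) * ((((b : ℤ) - (j : ℤ) : ℤ) : ℝ) / K)) := by
      intro h _
      rw [mul_assoc, sum_mul, mul_sum]
      refine sum_congr rfl fun j _ => ?_
      rw [← ee_add]
      congr 2
      push_cast
      ring
    rw [sum_congr rfl e1, sum_comm]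
    have e2 : ∀ j ∈ Icc 1 y, ∑ h ∈ range K,
        (1 / (K : ℂ)) * ee ((h : ℝ) * ((((b : ℤ) - (j : ℤ) : ℤ) : ℝ) / K)) =
        if b = j then 1 else 0 := by
      intro j hj
      rw [mem_Icc] at hj
      rw [← mul_sum, sum_ee_range K (by omega)]
      by_cases h : b = j
      · rw [if_pos h, if_pos (by rw [h, sub_self]; exact dvd_zero _)]
        field_simp
      · rw [if_neg h, if_neg, mul_zero]
        intro hd
        apply h
        have h5 : ((b : ℤ) - j) = 0 := by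
          apply Int.eq_zero_of_abs_lt_dvd hd
          rw [abs_lt]
          constructor <;> omega
        omega
    rw [sum_congr rfl e2, sum_ite_eq]
    by_cases h : b ≤ y
    · rw [if_pos h, if_pos (mem_Icc.2 ⟨hb1, h⟩)]
    · rw [if_neg h, if_neg (fun h1 => h (mem_Icc.1 h1).2)]


end Pool.Agent.Lib.MP_a9e8ee_lc.EW
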