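import Mathlib
import Pool.Agent.Lib.MP_a9e8ee_lc.EW.Sep
import Pool.Agent.Lib.MP_629a14_nt.Th.MulLS
import Pool.Agent.Lib.MP_a9e8ee_lc.EW.Defs

/-!
# The bilinear large sieve
-/

set_option autoImplicit false

open Finset

namespace Pool.Agent.Lib.MP_a9e8ee_lc.EW

open Pool.Agent.Lib.MP_629a14_nt Pool.Agent.Lib.MP_629a14_nt.Th in
/-- The product large sieve. PROOF. Cauchy-Schwarz over `prims Q` and `mul_ls` twice. -/
theorem prod_ls : ∃ C : ℝ, 1 ≤ C ∧ ∀ (Q A B : ℕ) (a β : ℕ → ℂ),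
    ∑ x ∈ prims Q, ‖(∑ m ∈ Ioc A (2 * A), a m * x.2 m) * ∑ b ∈ Icc 1 B, β b * x.2 b‖ ≤
      C * Real.sqrt (((A : ℝ) + Q ^ 2) * (B + Q ^ 2) *
        ((∑ m ∈ Ioc A (2 * A), ‖a m‖ ^ 2) * ∑ b ∈ Icc 1 B, ‖β b‖ ^ 2)) := by
  obtain ⟨C, hC, h⟩ := mul_ls
  refine ⟨C, hC, fun Q A B a β => ?_⟩
  have h1 := h Q A (2 * A) a (by omega)
  have h2 := h Q 0 B β (Nat.zero_le _)
  have e1 : Ioc 0 B = Icc 1 B := by
    ext j
    simp only [mem_Ioc, mem_Icc]
    omega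
  rw [e1] at h2
  have e2 : (((2 * A : ℕ) : ℝ) - A + Q ^ 2) = (A : ℝ) + Q ^ 2 := by
    push_cast
    ring
  have e3 : ((B : ℝ) - ((0 : ℕ) : ℝ) + Q ^ 2) = (B : ℝ) + Q ^ 2 := by
    push_cast
    ring
  rw [e2] at h1
  rw [e3] at h2
  have hC0 : 0 ≤ C := by linarith
  simp_rw [norm_mul]
  refine (Real.sum_mul_le_sqrt_mul_sqrt _ _ _).trans ?_
  rw [← Real.sqrt_mul (sum_nonneg fun _ _ => by positivity)]
  have e4 : C = Real.sqrt (C ^ 2) := (Real.sqrt_sq hC0).symm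
  rw [e4, ← Real.sqrt_mul (by positivity)]
  refine Real.sqrt_le_sqrt ?_
  refine (mul_le_mul h1 h2 (sum_nonneg fun _ _ => by positivity) ?_).trans (le_of_eq ?_)
  · have : 0 ≤ ∑ n ∈ Ioc A (2 * A), ‖a n‖ ^ 2 := sum_nonneg fun _ _ => by positivity
    positivity
  · ring

open Pool.Agent.Lib.MP_629a14_nt Pool.Agent.Lib.MP_629a14_nt.Th in
/-- The bilinear sum with the conditions `m b ≤ N` and `m b ≡ 1` modulo `M`. PROOF. The condition modulo
`M` splits the sum into the at most `M ^ 2` sums over `m ≡ i`, `b ≡ j`, `i j ≡ 1` modulo `M` (at most `M`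
pairs). `m b ≤ N ↔ b ≤ N / m`, and with `sep (B + 1)` (`y = min (N / m) B`) the sum is
`∑ h, (∑ m, a m c (y m) h χ m) (∑ b, β b ee (h b / K) χ b)`; `prod_ls` for each `h` (the first
coefficients have norm `≤ ‖a m‖ w h`), sum over `h`. -/
theorem bilin : ∃ C : ℝ, 1 ≤ C ∧ ∀ (M Q A B N : ℕ) (a β : ℕ → ℂ), 1 ≤ M → 1 ≤ B →
    ∑ x ∈ prims Q, ‖∑ m ∈ Ioc A (2 * A), ∑ b ∈ (Icc 1 B).filter
        (fun b => m * b ≤ N ∧ m * b ≡ 1 [MOD M]), a m * β b * x.2 ((m * b : ℕ) : ZMod x.1)‖ ≤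
      C * M * (1 + Real.log (1 + B)) * Real.sqrt (((A : ℝ) + Q ^ 2) * (B + Q ^ 2) *
        ((∑ m ∈ Ioc A (2 * A), ‖a m‖ ^ 2) * ∑ b ∈ Icc 1 B, ‖β b‖ ^ 2)) := by
  obtain ⟨C, hC, h⟩ := prod_ls
  refine ⟨3 * C, by linarith, fun M Q A B N a β hM hB => ?_⟩
  obtain ⟨c, w, hw0, hw, hws, hsep⟩ := sep (B + 1) (by omega)
  have hC0 : 0 ≤ C := by linarith
  obtain ⟨a', ha'⟩ : ∃ a' : ℕ → ℕ → ℕ → ℂ, a' = fun (i h m : ℕ) =>
    if m % M = i then a m * c (min (N / m) B) h else 0 := ⟨_, rfl⟩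
  obtain ⟨β', hβ'⟩ : ∃ β' : ℕ → ℕ → ℕ → ℂ, β' = fun (i h b : ℕ) =>
    if i * b ≡ 1 [MOD M] then β b * ee ((h : ℝ) * b / ((B + 1 : ℕ) : ℝ)) else 0 := ⟨_, rfl⟩
  have key : ∀ x ∈ prims Q, ∑ m ∈ Ioc A (2 * A), ∑ b ∈ (Icc 1 B).filter
        (fun b => m * b ≤ N ∧ m * b ≡ 1 [MOD M]), a m * β b * x.2 ((m * b : ℕ) : ZMod x.1) =
      ∑ i ∈ range M, ∑ h ∈ range (B + 1), (∑ m ∈ Ioc A (2 * A), a' i h m * x.2 m) *
        ∑ b ∈ Icc 1 B, β' i h b * x.2 b := by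
    intro x _
    have s1 : ∀ i ∈ range M, ∀ h ∈ range (B + 1), (∑ m ∈ Ioc A (2 * A), a' i h m * x.2 m) *
        ∑ b ∈ Icc 1 B, β' i h b * x.2 b =
        ∑ m ∈ Ioc A (2 * A), ∑ b ∈ Icc 1 B, (a' i h m * x.2 m) * (β' i h b * x.2 b) :=
      fun i _ h _ => sum_mul_sum _ _ _ _
    rw [sum_congr rfl fun i hi => sum_congr rfl (s1 i hi)]
    rw [sum_congr rfl fun i _ => sum_comm, sum_comm]
    refine sum_congr rfl fun m hm => ?_
    rw [mem_Ioc] at hm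
    have hm0 : 0 < m := by omega
    rw [sum_congr rfl fun i _ => sum_comm, sum_comm, sum_filter]
    refine sum_congr rfl fun b hb => ?_
    rw [mem_Icc] at hb
    rw [sum_eq_single_of_mem (m % M) (mem_range.2 (Nat.mod_lt _ hM))]
    · have s2 : ∀ h ∈ range (B + 1), (a' (m % M) h m * x.2 m) * (β' (m % M) h b * x.2 b) =
          (if m * b ≡ 1 [MOD M] then a m * β b * x.2 ((m * b : ℕ) : ZMod x.1) else 0) *
            (c (min (N / m) B) h * ee (h * b / ((B + 1 : ℕ) : ℝ))) := by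
        intro h _
        have s3 : (m % M * b ≡ 1 [MOD M]) ↔ m * b ≡ 1 [MOD M] := by
          have : m % M * b ≡ m * b [MOD M] := (Nat.mod_modEq m M).mul_right b
          exact ⟨fun h => this.symm.trans h, fun h => this.trans h⟩
        simp only [ha', hβ', if_true, s3]
        split_ifs with h3
        · push_cast
          rw [map_mul]
          ring
        · ring
      rw [sum_congr rfl s2, ← mul_sum, ← hsep (min (N / m) B) (by omega) b hb.1 (by omega)]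
      have s4 : b ≤ min (N / m) B ↔ m * b ≤ N := by
        rw [le_min_iff, Nat.le_div_iff_mul_le hm0, mul_comm b m]
        exact ⟨fun h => h.1, fun h => ⟨h, hb.2⟩⟩
      by_cases h5 : m * b ≤ N
      · rw [if_pos (s4.2 h5), mul_one]
        by_cases h6 : m * b ≡ 1 [MOD M]
        · rw [if_pos ⟨h5, h6⟩, if_pos h6]
        · rw [if_neg (fun h => h6 h.2), if_neg h6]
      · rw [if_neg (fun h => h5 (s4.1 h)), mul_zero, if_neg (fun h => h5 h.1)]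
    · intro i _ hi
      refine sum_eq_zero fun h _ => ?_
      simp only [ha', if_neg hi.symm, zero_mul]
  rw [sum_congr rfl fun x hx => congrArg norm (key x hx)]
  set S : ℝ := Real.sqrt (((A : ℝ) + Q ^ 2) * (B + Q ^ 2) *
        ((∑ m ∈ Ioc A (2 * A), ‖a m‖ ^ 2) * ∑ b ∈ Icc 1 B, ‖β b‖ ^ 2)) with hS
  have hS0 : 0 ≤ S := Real.sqrt_nonneg _
  have t1 : ∀ i ∈ range M, ∀ h' ∈ range (B + 1), ∑ x ∈ prims Q,
      ‖(∑ m ∈ Ioc A (2 * A), a' i h' m * x.2 m) * ∑ b ∈ Icc 1 B, β' i h' b * x.2 b‖ ≤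
      C * (w h' * S) := by
    intro i _ h' hh'
    refine (h Q A B (a' i h') (β' i h')).trans ?_
    refine mul_le_mul_of_nonneg_left ?_ hC0
    rw [hS, ← Real.sqrt_sq (hw0 h'), ← Real.sqrt_mul (by positivity)]
    refine Real.sqrt_le_sqrt ?_
    have u1 : ∑ m ∈ Ioc A (2 * A), ‖a' i h' m‖ ^ 2 ≤
        w h' ^ 2 * ∑ m ∈ Ioc A (2 * A), ‖a m‖ ^ 2 := by
      rw [mul_sum]
      refine sum_le_sum fun m _ => ?_
      have : ‖a' i h' m‖ ≤ w h' * ‖a m‖ := by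
        simp only [ha']
        split_ifs
        · rw [norm_mul, mul_comm]
          exact mul_le_mul_of_nonneg_right (hw _ (by omega) _ (mem_range.1 hh')) (norm_nonneg _)
        · rw [norm_zero]
          exact mul_nonneg (hw0 _) (norm_nonneg _)
      rw [← mul_pow]
      exact pow_le_pow_left₀ (norm_nonneg _) this 2
    have u2 : ∑ b ∈ Icc 1 B, ‖β' i h' b‖ ^ 2 ≤ ∑ b ∈ Icc 1 B, ‖β b‖ ^ 2 := by
      refine sum_le_sum fun b _ => ?_
      have : ‖β' i h' b‖ ≤ ‖β b‖ := by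
        simp only [hβ']
        split_ifs
        · rw [norm_mul, norm_ee, mul_one]
        · rw [norm_zero]
          exact norm_nonneg _
      exact pow_le_pow_left₀ (norm_nonneg _) this 2
    have u3 : 0 ≤ ∑ m ∈ Ioc A (2 * A), ‖a m‖ ^ 2 := sum_nonneg fun _ _ => by positivity
    calc ((A : ℝ) + Q ^ 2) * (B + Q ^ 2) *
          ((∑ m ∈ Ioc A (2 * A), ‖a' i h' m‖ ^ 2) * ∑ b ∈ Icc 1 B, ‖β' i h' b‖ ^ 2)
        ≤ ((A : ℝ) + Q ^ 2) * (B + Q ^ 2) *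
          ((w h' ^ 2 * ∑ m ∈ Ioc A (2 * A), ‖a m‖ ^ 2) * ∑ b ∈ Icc 1 B, ‖β b‖ ^ 2) := by
          refine mul_le_mul_of_nonneg_left (mul_le_mul u1 u2 (sum_nonneg fun _ _ => by positivity)
            (by positivity)) (by positivity)
      _ = _ := by ring
  have t2 : ∑ x ∈ prims Q, ‖∑ i ∈ range M, ∑ h' ∈ range (B + 1),
      (∑ m ∈ Ioc A (2 * A), a' i h' m * x.2 m) * ∑ b ∈ Icc 1 B, β' i h' b * x.2 b‖ ≤
      ∑ i ∈ range M, ∑ h' ∈ range (B + 1), C * (w h' * S) := by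
    refine (sum_le_sum fun x _ => (norm_sum_le _ _).trans (sum_le_sum fun i _ =>
      norm_sum_le _ _)).trans ?_
    rw [sum_comm]
    refine sum_le_sum fun i hi => ?_
    rw [sum_comm]
    exact sum_le_sum fun h' hh' => t1 i hi h' hh'
  refine t2.trans ?_
  rw [sum_const, card_range, nsmul_eq_mul]
  have t3 : ∑ h' ∈ range (B + 1), C * (w h' * S) = C * S * ∑ h' ∈ range (B + 1), w h' := by
    rw [mul_sum]
    exact sum_congr rfl fun _ _ => by ring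
  rw [t3]
  have t4 : ∑ h' ∈ range (B + 1), w h' ≤ 3 * (1 + Real.log (1 + B)) := by
    refine hws.trans ?_
    have e : ((B + 1 : ℕ) : ℝ) = 1 + B := by
      push_cast
      ring
    rw [e]
    have : 0 ≤ Real.log (1 + (B : ℝ)) := Real.log_nonneg (by
      have : (0 : ℝ) ≤ B := Nat.cast_nonneg _
      linarith)
    linarith
  calc (M : ℝ) * (C * S * ∑ h' ∈ range (B + 1), w h')
      ≤ M * (C * S * (3 * (1 + Real.log (1 + B)))) := by
        refine mul_le_mul_of_nonneg_left (mul_le_mul_of_nonneg_left t4 (by positivity))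
          (Nat.cast_nonneg _)
    _ = _ := by ring


end Pool.Agent.Lib.MP_a9e8ee_lc.EW
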