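import Mathlib
import Pool.Agent.Lib.MP_a9e8ee_lc.EW.Defs

/-!
# Sums of a character over a progression
-/

set_option autoImplicit false

open Finset

namespace Pool.Agent.Lib.MP_a9e8ee_lc.EW

/-- sums of a periodic function with mean zero -/
theorem periodic_sum {q : ℕ} {g : ℕ → ℂ} (hg : ∀ j, g (q + j) = g j)
    (h0 : ∑ j ∈ range q, g j = 0) (t r : ℕ) :
    ∑ j ∈ range (q * t + r), g j = ∑ j ∈ range r, g j := by
  induction t with
  | zero => rw [mul_zero, zero_add]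
  | succ t ih =>
    have e : q * (t + 1) + r = q + (q * t + r) := by ring
    rw [e, sum_range_add, h0, zero_add, ← ih]
    exact sum_congr rfl fun i _ => hg i

theorem sum_range_zmod {q : ℕ} [NeZero q] (F : ZMod q → ℂ) :
    ∑ j ∈ range q, F (j : ZMod q) = ∑ a : ZMod q, F a := by
  refine sum_bij (fun j _ => (j : ZMod q)) (fun j _ => mem_univ _) ?_ ?_ (fun j _ => rfl)
  · intro a ha b hb hab
    rw [mem_range] at ha hb
    have h1 := (ZMod.natCast_eq_natCast_iff' a b q).1 hab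
    rwa [Nat.mod_eq_of_lt ha, Nat.mod_eq_of_lt hb] at h1
  · intro a _
    exact ⟨a.val, mem_range.2 (ZMod.val_lt a), ZMod.natCast_zmod_val a⟩

theorem char_aff_sum {q M : ℕ} (hq : q.Prime) (hqM : ¬ q ∣ M)
    {χ : DirichletCharacter ℂ q} (hχ : χ ≠ 1) (k₀ : ℕ) :
    ∑ j ∈ range q, χ ((k₀ + M * j : ℕ) : ZMod q) = 0 := by
  haveI : Fact q.Prime := ⟨hq⟩
  haveI : NeZero q := ⟨hq.ne_zero⟩
  have h1 : ∑ j ∈ range q, χ ((k₀ + M * j : ℕ) : ZMod q) =
      ∑ j ∈ range q, (fun a : ZMod q => χ ((k₀ : ZMod q) + (M : ZMod q) * a)) (j : ZMod q) := by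
    refine sum_congr rfl fun j _ => ?_
    push_cast
    rfl
  rw [h1, sum_range_zmod (fun a : ZMod q => χ ((k₀ : ZMod q) + (M : ZMod q) * a))]
  have hM : (M : ZMod q) ≠ 0 := by
    rw [Ne, ZMod.natCast_eq_zero_iff]
    exact hqM
  have hbij : Function.Bijective (fun a : ZMod q => (k₀ : ZMod q) + (M : ZMod q) * a) := by
    rw [← Finite.injective_iff_bijective]
    intro a b hab
    exact mul_left_cancel₀ hM (add_left_cancel hab)
  rw [hbij.sum_comp (fun b => χ b)]
  exact MulChar.sum_eq_zero_of_ne_one hχ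

theorem filter_eq_image {M : ℕ} (hM : 1 ≤ M) {d k₀ : ℕ} (hk : 1 ≤ k₀) (hk' : k₀ ≤ M)
    (hd : ∀ k, d * k ≡ 1 [MOD M] ↔ k ≡ k₀ [MOD M]) (K : ℕ) :
    (Icc 1 K).filter (fun k => d * k ≡ 1 [MOD M]) =
      (range ((K + M - k₀) / M)).image fun j => k₀ + M * j := by
  ext k
  simp only [mem_filter, mem_Icc, mem_image, mem_range, hd]
  constructor
  · rintro ⟨⟨h1, h2⟩, h3⟩
    have hle : k₀ ≤ k := by
      by_contra hlt
      push Not at hlt
      have h4 : (k : ℕ) % M = k₀ % M := h3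
      rcases Nat.lt_or_ge k₀ M with h5 | h5
      · rw [Nat.mod_eq_of_lt h5, Nat.mod_eq_of_lt (by omega)] at h4
        omega
      · obtain rfl : k₀ = M := le_antisymm hk' h5
        rw [Nat.mod_self, Nat.mod_eq_of_lt hlt] at h4
        omega
    obtain ⟨j, hj⟩ := (Nat.modEq_iff_dvd' hle).1 h3.symm
    refine ⟨j, ?_, by omega⟩
    rw [Nat.lt_iff_add_one_le, Nat.le_div_iff_mul_le (by omega)]
    have : (j + 1) * M = M * j + M := by ring
    omega
  · rintro ⟨j, hj, rfl⟩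
    rw [Nat.lt_iff_add_one_le, Nat.le_div_iff_mul_le (by omega)] at hj
    have h6 : (j + 1) * M = M * j + M := by ring
    refine ⟨⟨by omega, by omega⟩, ?_⟩
    change (k₀ + M * j) % M = k₀ % M
    rw [Nat.add_mul_mod_self_left]

theorem exists_rep {M : ℕ} (hM : 1 ≤ M) {d : ℕ} (hd : Nat.Coprime d M) :
    ∃ k₀, 1 ≤ k₀ ∧ k₀ ≤ M ∧ ∀ k, d * k ≡ 1 [MOD M] ↔ k ≡ k₀ [MOD M] := by
  obtain ⟨u, hu⟩ : ∃ u, d * u ≡ 1 [MOD M] := by
    rcases Nat.lt_or_ge 1 M with h1 | h1
    · obtain ⟨u, hu⟩ := Nat.exists_mul_mod_eq_one_of_coprime hd h1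
      refine ⟨u, ?_⟩
      change (d * u) % M = 1 % M
      rw [Nat.mod_eq_of_lt h1]
      exact hu.2
    · obtain rfl : M = 1 := by omega
      exact ⟨0, Nat.modEq_one⟩
  have hiff : ∀ k, d * k ≡ 1 [MOD M] ↔ k ≡ u [MOD M] := by
    intro k
    constructor
    · intro h
      have h2 : d * k ≡ d * u [MOD M] := h.trans hu.symm
      exact Nat.ModEq.cancel_left_of_coprime (by rwa [Nat.gcd_comm]) h2
    · intro h
      exact (h.mul_left d).trans hu
  rcases Nat.eq_zero_or_pos (u % M) with h0 | h0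
  · refine ⟨M, hM, le_refl _, fun k => ?_⟩
    rw [hiff]
    have h3 : u ≡ M [MOD M] := by
      change u % M = M % M
      rw [h0, Nat.mod_self]
    exact ⟨fun h => h.trans h3, fun h => h.trans h3.symm⟩
  · refine ⟨u % M, h0, (Nat.mod_lt _ (by omega)).le, fun k => ?_⟩
    rw [hiff]
    have h3 : u ≡ u % M [MOD M] := (Nat.mod_modEq u M).symm
    exact ⟨fun h => h.trans h3, fun h => h.trans h3.symm⟩

/-- PROOF. If `d` is not prime to `M` the sum is empty or `M = 1`; otherwise the condition is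
`k ≡ k₀` modulo `M`, `k = k₀ + M j`, and `j ↦ χ (k₀ + M j)` is periodic modulo `q` with sum `0` over a
period (`q` is prime to `M`, `χ ≠ 1`: `DirichletCharacter` orthogonality, `MulChar.sum_eq_zero_of_ne_one`); a
sum over an interval of `j` is a sum of fewer than `q` terms. -/
theorem char_prog {q M : ℕ} (hq : q.Prime) (hqM : ¬ q ∣ M) (hM : 1 ≤ M)
    {χ : DirichletCharacter ℂ q} (hχ : χ ≠ 1) (d K : ℕ) :
    ‖∑ k ∈ (Icc 1 K).filter (fun k => d * k ≡ 1 [MOD M]), χ k‖ ≤ q := by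
  by_cases hd : Nat.Coprime d M
  · obtain ⟨k₀, hk, hk', hiff⟩ := exists_rep hM hd
    rw [filter_eq_image hM hk hk' hiff K, sum_image (fun a _ b _ hab => by
      have h1 : M * a = M * b := Nat.add_left_cancel hab
      exact Nat.eq_of_mul_eq_mul_left (by omega) h1)]
    set J := (K + M - k₀) / M
    have hp : ∀ j, χ ((k₀ + M * (q + j) : ℕ) : ZMod q) = χ ((k₀ + M * j : ℕ) : ZMod q) := by
      intro j
      congr 1
      push_cast
      rw [ZMod.natCast_self, zero_add]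
    have h1 := periodic_sum (q := q) (g := fun j => χ ((k₀ + M * j : ℕ) : ZMod q)) hp
      (char_aff_sum hq hqM hχ k₀) (J / q) (J % q)
    rw [Nat.div_add_mod] at h1
    rw [h1]
    refine (norm_sum_le _ _).trans ?_
    refine (sum_le_card_nsmul _ _ 1 fun j _ => DirichletCharacter.norm_le_one χ _).trans ?_
    rw [card_range, nsmul_eq_mul, mul_one]
    exact_mod_cast (Nat.mod_lt J hq.pos).le
  · have h0 : (Icc 1 K).filter (fun k => d * k ≡ 1 [MOD M]) = ∅ := by
      rw [filter_eq_empty_iff]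
      intro k _ hk
      apply hd
      have h1 : Nat.gcd (d * k) M = Nat.gcd 1 M := hk.gcd_eq
      rw [Nat.gcd_one_left] at h1
      exact Nat.Coprime.coprime_mul_right h1
    rw [h0, sum_empty, norm_zero]
    exact Nat.cast_nonneg q

/-- Abel summation. -/
theorem abel_log (f : ℕ → ℂ) (K : ℕ) :
    ∑ k ∈ Icc 1 K, f k * (Real.log k : ℂ) = (∑ k ∈ Icc 1 K, f k) * (Real.log K : ℂ) -
      ∑ k ∈ range K, (∑ i ∈ Icc 1 k, f i) * ((Real.log (k + 1 : ℕ) - Real.log k : ℝ) : ℂ) := by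
  induction K with
  | zero => simp
  | succ K ih =>
    rw [sum_Icc_succ_top (by omega), sum_Icc_succ_top (by omega), sum_range_succ, ih]
    push_cast
    ring

/-- PROOF. Partial summation: `log k = log K - ∑ j ∈ Ico k K, (log (j + 1) - log j)`. -/
theorem char_prog_log {q M : ℕ} (hq : q.Prime) (hqM : ¬ q ∣ M) (hM : 1 ≤ M)
    {χ : DirichletCharacter ℂ q} (hχ : χ ≠ 1) (d K : ℕ) :
    ‖∑ k ∈ (Icc 1 K).filter (fun k => d * k ≡ 1 [MOD M]), χ k * (Real.log k : ℂ)‖ ≤
      2 * q * Real.log K := by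
  set f : ℕ → ℂ := fun k => if d * k ≡ 1 [MOD M] then χ k else 0 with hf
  have hS : ∀ k, ‖∑ i ∈ Icc 1 k, f i‖ ≤ q := by
    intro k
    have h1 := char_prog hq hqM hM hχ d k
    rw [sum_filter] at h1
    exact h1
  have h2 : ∑ k ∈ (Icc 1 K).filter (fun k => d * k ≡ 1 [MOD M]), χ k * (Real.log k : ℂ) =
      ∑ k ∈ Icc 1 K, f k * (Real.log k : ℂ) := by
    rw [sum_filter]
    refine sum_congr rfl fun k _ => ?_
    rw [hf]
    simp only
    split_ifs
    · rfl
    · rw [zero_mul]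
  rw [h2, abel_log]
  have hK0 : 0 ≤ Real.log K := Real.log_natCast_nonneg K
  have hstep : ∀ k : ℕ, 0 ≤ Real.log (k + 1 : ℕ) - Real.log k := by
    intro k
    rcases Nat.eq_zero_or_pos k with h | h
    · subst h
      simp
    · rw [sub_nonneg]
      refine Real.log_le_log (by exact_mod_cast h) ?_
      exact_mod_cast Nat.le_succ k
  have htel : ∑ k ∈ range K, (Real.log (k + 1 : ℕ) - Real.log k) = Real.log K := by
    rw [sum_range_sub (fun k : ℕ => Real.log k)]
    simp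
  refine (norm_sub_le _ _).trans ?_
  have h3 : ‖(∑ k ∈ Icc 1 K, f k) * (Real.log K : ℂ)‖ ≤ q * Real.log K := by
    rw [norm_mul, Complex.norm_real, Real.norm_of_nonneg hK0]
    exact mul_le_mul_of_nonneg_right (hS K) hK0
  have h4 : ‖∑ k ∈ range K, (∑ i ∈ Icc 1 k, f i) *
      ((Real.log (k + 1 : ℕ) - Real.log k : ℝ) : ℂ)‖ ≤ q * Real.log K := by
    refine (norm_sum_le _ _).trans ?_
    rw [← htel, mul_sum]
    refine sum_le_sum fun k _ => ?_
    rw [norm_mul, Complex.norm_real, Real.norm_of_nonneg (hstep k)]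
    exact mul_le_mul_of_nonneg_right (hS k) (hstep k)
  linarith


end Pool.Agent.Lib.MP_a9e8ee_lc.EW
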