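import Mathlib
import Pool.Agent.Lib.MP_a9e8ee_lc.EW.TypeI
import Pool.Agent.Lib.MP_629a14_nt.Th.VIdent

/-!
# Vaughan decomposition
-/

set_option autoImplicit false

open Finset

namespace Pool.Agent.Lib.MP_a9e8ee_lc.EW

private lemma lam' (n : ℕ) : (ArithmeticFunction.vonMangoldt n : ℝ) =
    ∑ d ∈ n.divisors, (ArithmeticFunction.moebius d : ℝ) * Real.log ((n / d : ℕ) : ℝ) := by
  rw [← ArithmeticFunction.moebius_mul_log_eq_vonMangoldt, ArithmeticFunction.mul_apply,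
    ← Nat.sum_divisorsAntidiagonal (fun d m =>
      (ArithmeticFunction.moebius d : ℝ) * Real.log ((m : ℕ) : ℝ))]
  rfl

/-- Vaughan's identity for all `n ≥ 1`, `U = V`. PROOF. `n > U`: `vaughan_identity U U n`. `n ≤ U`: all the
divisors are `≤ U`, so the first sum is `Λ n` (`∑ μ d log (n/d) = Λ n`), the second is
`∑ m ∣ n, Λ m ∑ d ∣ n/m, μ d = Λ n`, the third is empty. -/
theorem vau_all (U n : ℕ) (hn : 1 ≤ n) :
    (if U < n then (ArithmeticFunction.vonMangoldt n : ℝ) else 0) =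
      ∑ d ∈ n.divisors.filter (fun d => d ≤ U), (ArithmeticFunction.moebius d : ℝ) *
        Real.log ((n / d : ℕ) : ℝ) -
      ∑ d ∈ n.divisors.filter (fun d => d ≤ U), ∑ m ∈ (n / d).divisors.filter (fun m => m ≤ U),
        (ArithmeticFunction.moebius d : ℝ) * ArithmeticFunction.vonMangoldt m +
      ∑ m ∈ n.divisors.filter (fun m => U < m), ArithmeticFunction.vonMangoldt m * bet U (n / m) := by
  by_cases hU : U < n
  · rw [if_pos hU, Pool.Agent.Lib.MP_629a14_nt.Th.vaughan_identity U U n hU]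
    congr 1
    rw [Finset.sum_comm' (s' := fun m => (n / m).divisors.filter (fun d => U < d))
      (t' := n.divisors.filter (fun m => U < m))]
    · refine Finset.sum_congr rfl fun m _ => ?_
      rw [bet, ← Finset.sum_mul, mul_comm]
    · intro d m
      simp only [Nat.mem_divisors, Finset.mem_filter]
      constructor
      · rintro ⟨⟨⟨hd, hn0⟩, hUd⟩, ⟨hm, hm0⟩, hmU⟩
        have h1 : d * m ∣ n := (Nat.dvd_div_iff_mul_dvd hd).1 hm
        have h2 : m ∣ n := (Dvd.intro_left d rfl).trans h1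
        refine ⟨⟨⟨(Nat.dvd_div_iff_mul_dvd h2).2 (by rwa [mul_comm] at h1), ?_⟩, hUd⟩,
          ⟨h2, hn0⟩, hmU⟩
        exact (Nat.div_pos (Nat.le_of_dvd (by omega) h2) (Nat.pos_of_dvd_of_pos h2 (by omega))).ne'
      · rintro ⟨⟨⟨hd, hm0⟩, hUd⟩, ⟨hm, hn0⟩, hmU⟩
        have h1 : m * d ∣ n := (Nat.dvd_div_iff_mul_dvd hm).1 hd
        have h2 : d ∣ n := (Dvd.intro_left m rfl).trans h1
        refine ⟨⟨⟨h2, hn0⟩, hUd⟩, ⟨(Nat.dvd_div_iff_mul_dvd h2).2 (by rwa [mul_comm] at h1), ?_⟩,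
          hmU⟩
        exact (Nat.div_pos (Nat.le_of_dvd (by omega) h2) (Nat.pos_of_dvd_of_pos h2 (by omega))).ne'
  · rw [if_neg hU]
    have h1 : n.divisors.filter (fun d => d ≤ U) = n.divisors := by
      refine Finset.filter_true_of_mem (fun d hd => ?_)
      have := Nat.divisor_le hd
      omega
    have h2 : n.divisors.filter (fun d => U < d) = ∅ := by
      refine Finset.filter_false_of_mem (fun d hd => ?_)
      have := Nat.divisor_le hd
      omega
    rw [h1, h2, Finset.sum_empty, add_zero]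
    have h3 : ∑ d ∈ n.divisors, ∑ m ∈ (n / d).divisors.filter (fun m => m ≤ U),
        (ArithmeticFunction.moebius d : ℝ) * ArithmeticFunction.vonMangoldt m =
        ∑ d ∈ n.divisors, (ArithmeticFunction.moebius d : ℝ) * Real.log ((n / d : ℕ) : ℝ) := by
      refine Finset.sum_congr rfl (fun d _ => ?_)
      have h4 : (n / d).divisors.filter (fun m => m ≤ U) = (n / d).divisors := by
        refine Finset.filter_true_of_mem (fun m hm => ?_)
        have h5 := Nat.divisor_le hm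
        have h6 := Nat.div_le_self n d
        omega
      rw [h4, ← ArithmeticFunction.vonMangoldt_sum, Finset.mul_sum]
    rw [h3, sub_self]

/-- collecting by a small divisor -/
theorem sum_div_small {α : Type*} [AddCommMonoid α] (N U : ℕ) (P : ℕ → Prop) [DecidablePred P]
    (f : ℕ → ℕ → α) :
    ∑ n ∈ (Icc 1 N).filter P, ∑ d ∈ n.divisors.filter (fun d => d ≤ U), f d (n / d) =
      ∑ d ∈ Icc 1 U, ∑ k ∈ (Icc 1 (N / d)).filter (fun k => P (d * k)), f d k := by
  rw [Finset.sum_sigma', Finset.sum_sigma']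
  refine Finset.sum_nbij' (fun x => ⟨x.2, x.1 / x.2⟩) (fun x => ⟨x.1 * x.2, x.1⟩) ?_ ?_ ?_ ?_ ?_
  · rintro ⟨n, d⟩ h
    simp only [Finset.mem_sigma, Finset.mem_filter, Finset.mem_Icc, Nat.mem_divisors] at h ⊢
    obtain ⟨⟨⟨h1, h2⟩, hP⟩, ⟨hd, hn0⟩, hdU⟩ := h
    have hd0 : 0 < d := Nat.pos_of_dvd_of_pos hd (by omega)
    refine ⟨⟨hd0, hdU⟩, ⟨Nat.div_pos (Nat.le_of_dvd (by omega) hd) hd0,
      Nat.div_le_div_right h2⟩, ?_⟩
    rwa [Nat.mul_div_cancel' hd]
  · rintro ⟨d, k⟩ h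
    simp only [Finset.mem_sigma, Finset.mem_filter, Finset.mem_Icc, Nat.mem_divisors] at h ⊢
    obtain ⟨⟨h1, h2⟩, ⟨h3, h4⟩, hP⟩ := h
    have h5 : 0 < d * k := Nat.mul_pos h1 h3
    have h6 : d * k ≤ N := by
      have := (Nat.le_div_iff_mul_le h1).1 h4
      rwa [mul_comm] at this
    exact ⟨⟨⟨h5, h6⟩, hP⟩, ⟨Dvd.intro k rfl, h5.ne'⟩, h2⟩
  · rintro ⟨n, d⟩ h
    simp only [Finset.mem_sigma, Finset.mem_filter, Finset.mem_Icc, Nat.mem_divisors] at h
    simp only [Nat.mul_div_cancel' h.2.1.1]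
  · rintro ⟨d, k⟩ h
    simp only [Finset.mem_sigma, Finset.mem_filter, Finset.mem_Icc] at h
    simp only [Nat.mul_div_cancel_left k h.1.1]
  · rintro ⟨n, d⟩ h
    rfl

/-- collecting by a large divisor -/
theorem sum_div_large {α : Type*} [AddCommMonoid α] (N U : ℕ) (P : ℕ → Prop) [DecidablePred P]
    (f : ℕ → ℕ → α) :
    ∑ n ∈ (Icc 1 N).filter P, ∑ d ∈ n.divisors.filter (fun d => U < d), f d (n / d) =
      ∑ d ∈ Ioc U N, ∑ k ∈ (Icc 1 N).filter (fun k => d * k ≤ N ∧ P (d * k)), f d k := by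
  rw [Finset.sum_sigma', Finset.sum_sigma']
  refine Finset.sum_nbij' (fun x => ⟨x.2, x.1 / x.2⟩) (fun x => ⟨x.1 * x.2, x.1⟩) ?_ ?_ ?_ ?_ ?_
  · rintro ⟨n, d⟩ h
    simp only [Finset.mem_sigma, Finset.mem_filter, Finset.mem_Icc, Finset.mem_Ioc,
      Nat.mem_divisors] at h ⊢
    obtain ⟨⟨⟨h1, h2⟩, hP⟩, ⟨hd, hn0⟩, hdU⟩ := h
    have hd0 : 0 < d := Nat.pos_of_dvd_of_pos hd (by omega)
    have hdn : d ≤ n := Nat.le_of_dvd (by omega) hd
    rw [Nat.mul_div_cancel' hd]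
    exact ⟨⟨hdU, hdn.trans h2⟩, ⟨Nat.div_pos hdn hd0, (Nat.div_le_self _ _).trans h2⟩, h2, hP⟩
  · rintro ⟨d, k⟩ h
    simp only [Finset.mem_sigma, Finset.mem_filter, Finset.mem_Icc, Finset.mem_Ioc,
      Nat.mem_divisors] at h ⊢
    obtain ⟨⟨h1, h2⟩, ⟨h3, h4⟩, h5, hP⟩ := h
    have h6 : 0 < d * k := Nat.mul_pos (by omega) h3
    exact ⟨⟨⟨h6, h5⟩, hP⟩, ⟨Dvd.intro k rfl, h6.ne'⟩, h1⟩
  · rintro ⟨n, d⟩ h
    simp only [Finset.mem_sigma, Finset.mem_filter, Finset.mem_Icc, Nat.mem_divisors] at h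
    simp only [Nat.mul_div_cancel' h.2.1.1]
  · rintro ⟨d, k⟩ h
    simp only [Finset.mem_sigma, Finset.mem_filter, Finset.mem_Ioc] at h
    have : 0 < d := by omega
    simp only [Nat.mul_div_cancel_left k this]
  · rintro ⟨n, d⟩ h
    rfl

private lemma moeb_norm (d : ℕ) : ‖((ArithmeticFunction.moebius d : ℝ) : ℂ)‖ ≤ 1 := by
  have h := ArithmeticFunction.abs_moebius_le_one (n := d)
  rw [Complex.norm_real, Real.norm_eq_abs]
  exact_mod_cast h

private lemma psi_bound (U : ℕ) :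
    ∑ m ∈ Icc 1 U, (ArithmeticFunction.vonMangoldt m : ℝ) ≤ 5.4 * U := by
  have h := Chebyshev.psi_le_const_mul_self (x := (U : ℝ)) (Nat.cast_nonneg U)
  rw [Chebyshev.psi, Nat.floor_natCast] at h
  have h2 : Icc 1 U = Ioc 0 U := by
    ext i
    simp only [Finset.mem_Icc, Finset.mem_Ioc]
    omega
  rw [h2]
  refine h.trans ?_
  refine mul_le_mul_of_nonneg_right ?_ (Nat.cast_nonneg U)
  have h4 : Real.log 4 = 2 * Real.log 2 := by
    rw [show (4 : ℝ) = 2 ^ 2 by norm_num, Real.log_pow]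
    norm_num
  have := Real.log_two_lt_d9
  linarith

/-- The decomposition of `chiS`. PROOF. Multiply `vau_all` by `χ n`, sum over `n ≤ N`, `n ≡ 1` modulo `M`, and
collect by the divisors; the first two sums are bounded by `char_prog_log` (`U` values of `d`, weight
`|μ| ≤ 1`) and `char_prog` (`∑ d ≤ U, ∑ m ≤ U, Λ m ≤ U · 2 U`, Chebyshev `∑ m ≤ U, Λ m ≤ 2 U`; Mathlib
`Chebyshev.psi_le` or Lib), the terms `n ≤ U` by `2 U`. -/
theorem chiS_le {q M : ℕ} (hq : q.Prime) (hqM : ¬ q ∣ M) (hM : 1 ≤ M)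
    {χ : DirichletCharacter ℂ q} (hχ : χ ≠ 1) (N U : ℕ) (hU : 1 ≤ U) (hN : 2 ≤ N) :
    ‖chiS M N χ‖ ≤ 8 * (U : ℝ) ^ 2 * q * (1 + Real.log N) +
      ‖∑ m ∈ Ioc U N, ∑ b ∈ (Icc 1 N).filter (fun b => m * b ≤ N ∧ m * b ≡ 1 [MOD M]),
        (ArithmeticFunction.vonMangoldt m : ℂ) * (bet U b : ℂ) * χ ((m * b : ℕ) : ZMod q)‖ := by
  classical
  set S := (Icc 1 N).filter (fun m => m ≡ 1 [MOD M]) with hS
  have hS1 : ∀ n ∈ S, 1 ≤ n := fun n hn => (Finset.mem_Icc.1 (Finset.mem_filter.1 hn).1).1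
  have hχn : ∀ a : ZMod q, ‖χ a‖ ≤ 1 := fun a => DirichletCharacter.norm_le_one χ a
  have hlogN : 0 ≤ Real.log N := Real.log_natCast_nonneg N
  -- the four parts
  let T0 : ℂ := ∑ n ∈ S, (if n ≤ U then (ArithmeticFunction.vonMangoldt n : ℂ) else 0) * χ n
  let T1 : ℂ := ∑ n ∈ S, ∑ d ∈ n.divisors.filter (fun d => d ≤ U),
    (((ArithmeticFunction.moebius d : ℝ) : ℂ) * (Real.log ((n / d : ℕ) : ℝ) : ℂ) *
      χ ((d * (n / d) : ℕ) : ZMod q))
  let T2 : ℂ := ∑ n ∈ S, ∑ d ∈ n.divisors.filter (fun d => d ≤ U),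
    ∑ m ∈ (n / d).divisors.filter (fun m => m ≤ U),
      (((ArithmeticFunction.moebius d : ℝ) : ℂ) * (ArithmeticFunction.vonMangoldt m : ℂ) *
        χ ((d * (m * (n / d / m)) : ℕ) : ZMod q))
  let T3 : ℂ := ∑ n ∈ S, ∑ m ∈ n.divisors.filter (fun m => U < m),
    (ArithmeticFunction.vonMangoldt m : ℂ) * (bet U (n / m) : ℂ) *
      χ ((m * (n / m) : ℕ) : ZMod q)
  have hdec : chiS M N χ = T0 + T1 - T2 + T3 := by
    rw [chiS, ← Finset.sum_add_distrib, ← Finset.sum_sub_distrib, ← Finset.sum_add_distrib]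
    refine Finset.sum_congr rfl (fun n hn => ?_)
    have hn1 := hS1 n hn
    have h1 := vau_all U n hn1
    have h2 : (ArithmeticFunction.vonMangoldt n : ℂ) =
        (if n ≤ U then (ArithmeticFunction.vonMangoldt n : ℂ) else 0) +
        (((if U < n then (ArithmeticFunction.vonMangoldt n : ℝ) else 0 : ℝ)) : ℂ) := by
      by_cases h : n ≤ U
      · rw [if_pos h, if_neg (not_lt.2 h), Complex.ofReal_zero, add_zero]
      · rw [if_neg h, if_pos (not_le.1 h), zero_add]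
    have h3 : (ArithmeticFunction.vonMangoldt n : ℂ) * χ n =
        (if n ≤ U then (ArithmeticFunction.vonMangoldt n : ℂ) else 0) * χ n +
        (((if U < n then (ArithmeticFunction.vonMangoldt n : ℝ) else 0 : ℝ)) : ℂ) * χ n := by
      refine Eq.trans ?_ (add_mul _ _ _)
      exact congrArg (fun z => z * χ n) h2
    rw [h3, h1]
    simp only [Complex.ofReal_add, Complex.ofReal_sub, Complex.ofReal_sum, Complex.ofReal_mul]
    rw [add_mul, sub_mul, Finset.sum_mul, Finset.sum_mul, Finset.sum_mul]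
    have e1 : ∀ d ∈ n.divisors.filter (fun d => d ≤ U),
        (((ArithmeticFunction.moebius d : ℝ) : ℂ) * ((Real.log ((n / d : ℕ) : ℝ) : ℝ) : ℂ)) * χ n =
        ((ArithmeticFunction.moebius d : ℝ) : ℂ) * (Real.log ((n / d : ℕ) : ℝ) : ℂ) *
          χ ((d * (n / d) : ℕ) : ZMod q) := by
      intro d hd
      rw [Nat.mul_div_cancel' (Nat.mem_divisors.1 (Finset.mem_filter.1 hd).1).1]
    have e2 : ∀ d ∈ n.divisors.filter (fun d => d ≤ U),
        (∑ m ∈ (n / d).divisors.filter (fun m => m ≤ U),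
          ((ArithmeticFunction.moebius d : ℝ) : ℂ) * (ArithmeticFunction.vonMangoldt m : ℂ)) * χ n =
        ∑ m ∈ (n / d).divisors.filter (fun m => m ≤ U),
          (((ArithmeticFunction.moebius d : ℝ) : ℂ) * (ArithmeticFunction.vonMangoldt m : ℂ) *
          χ ((d * (m * (n / d / m)) : ℕ) : ZMod q)) := by
      intro d hd
      rw [Finset.sum_mul]
      refine Finset.sum_congr rfl (fun m hm => ?_)
      rw [Nat.mul_div_cancel' (Nat.mem_divisors.1 (Finset.mem_filter.1 hm).1).1,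
        Nat.mul_div_cancel' (Nat.mem_divisors.1 (Finset.mem_filter.1 hd).1).1]
    have e3 : ∀ m ∈ n.divisors.filter (fun m => U < m),
        (ArithmeticFunction.vonMangoldt m : ℂ) * (bet U (n / m) : ℂ) * χ n =
        (ArithmeticFunction.vonMangoldt m : ℂ) * (bet U (n / m) : ℂ) *
          χ ((m * (n / m) : ℕ) : ZMod q) := by
      intro m hm
      rw [Nat.mul_div_cancel' (Nat.mem_divisors.1 (Finset.mem_filter.1 hm).1).1]
    rw [Finset.sum_congr rfl e1, Finset.sum_congr rfl e2, Finset.sum_congr rfl e3]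
    ring
  -- the small terms
  have hT0 : ‖T0‖ ≤ 5.4 * U := by
    refine (norm_sum_le _ _).trans ?_
    refine le_trans ?_ (psi_bound U)
    have h1 : ∀ n ∈ S, ‖(if n ≤ U then (ArithmeticFunction.vonMangoldt n : ℂ) else 0) * χ n‖ ≤
        if n ≤ U then (ArithmeticFunction.vonMangoldt n : ℝ) else 0 := by
      intro n _
      rw [norm_mul]
      split_ifs
      · rw [Complex.norm_real, Real.norm_eq_abs,
          abs_of_nonneg ArithmeticFunction.vonMangoldt_nonneg]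
        exact mul_le_of_le_one_right ArithmeticFunction.vonMangoldt_nonneg (hχn _)
      · simp
    refine (Finset.sum_le_sum h1).trans ?_
    rw [← Finset.sum_filter]
    refine Finset.sum_le_sum_of_subset_of_nonneg ?_
      (fun _ _ _ => ArithmeticFunction.vonMangoldt_nonneg)
    intro n hn
    rw [Finset.mem_filter] at hn
    exact Finset.mem_Icc.2 ⟨hS1 n hn.1, hn.2⟩
  -- the first sum
  have hT1 : ‖T1‖ ≤ U * (2 * q * Real.log N) := by
    have h1 : T1 = ∑ d ∈ Icc 1 U, ∑ k ∈ (Icc 1 (N / d)).filter (fun k => d * k ≡ 1 [MOD M]),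
        (((ArithmeticFunction.moebius d : ℝ) : ℂ) * (Real.log ((k : ℕ) : ℝ) : ℂ) *
          χ ((d * k : ℕ) : ZMod q)) :=
      sum_div_small N U (fun m => m ≡ 1 [MOD M]) (fun d k =>
        (((ArithmeticFunction.moebius d : ℝ) : ℂ) * (Real.log ((k : ℕ) : ℝ) : ℂ) *
          χ ((d * k : ℕ) : ZMod q)))
    rw [h1]
    have h2 : ∀ d ∈ Icc 1 U, ‖∑ k ∈ (Icc 1 (N / d)).filter (fun k => d * k ≡ 1 [MOD M]),
        (((ArithmeticFunction.moebius d : ℝ) : ℂ) * (Real.log ((k : ℕ) : ℝ) : ℂ) *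
          χ ((d * k : ℕ) : ZMod q))‖ ≤ 2 * q * Real.log N := by
      intro d hd
      have h3 : ∑ k ∈ (Icc 1 (N / d)).filter (fun k => d * k ≡ 1 [MOD M]),
          (((ArithmeticFunction.moebius d : ℝ) : ℂ) * (Real.log ((k : ℕ) : ℝ) : ℂ) *
            χ ((d * k : ℕ) : ZMod q)) =
          ((ArithmeticFunction.moebius d : ℝ) : ℂ) * χ ((d : ℕ) : ZMod q) *
          ∑ k ∈ (Icc 1 (N / d)).filter (fun k => d * k ≡ 1 [MOD M]),
            χ k * (Real.log k : ℂ) := by
        rw [Finset.mul_sum]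
        refine Finset.sum_congr rfl (fun k _ => ?_)
        rw [Nat.cast_mul, map_mul]
        ring
      rw [h3, norm_mul, norm_mul]
      have h4 := char_prog_log hq hqM hM hχ d (N / d)
      have h5 : ‖((ArithmeticFunction.moebius d : ℝ) : ℂ)‖ * ‖χ ((d : ℕ) : ZMod q)‖ ≤ 1 :=
        mul_le_one₀ (moeb_norm d) (norm_nonneg _) (hχn _)
      have h6 : (2 * q * Real.log ((N / d : ℕ) : ℝ) : ℝ) ≤ 2 * q * Real.log N := by
        refine mul_le_mul_of_nonneg_left ?_ (by positivity)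
        rcases Nat.eq_zero_or_pos (N / d) with h0 | h0
        · rw [h0]
          simpa using hlogN
        · exact Real.log_le_log (by exact_mod_cast h0) (by exact_mod_cast Nat.div_le_self N d)
      calc _ ≤ 1 * (2 * q * Real.log ((N / d : ℕ) : ℝ)) :=
            mul_le_mul h5 h4 (norm_nonneg _) zero_le_one
        _ ≤ _ := by rw [one_mul]; exact h6
    refine (norm_sum_le_of_le _ h2).trans ?_
    rw [Finset.sum_const, Nat.card_Icc, nsmul_eq_mul, Nat.add_sub_cancel]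
  -- the second sum
  have hT2 : ‖T2‖ ≤ U * (5.4 * U * q) := by
    have h1 : T2 = ∑ d ∈ Icc 1 U, ∑ k ∈ (Icc 1 (N / d)).filter (fun k => d * k ≡ 1 [MOD M]),
        ∑ m ∈ k.divisors.filter (fun m => m ≤ U),
        (((ArithmeticFunction.moebius d : ℝ) : ℂ) * (ArithmeticFunction.vonMangoldt m : ℂ) *
          χ ((d * (m * (k / m)) : ℕ) : ZMod q)) :=
      sum_div_small N U (fun m => m ≡ 1 [MOD M]) (fun d k =>
        ∑ m ∈ k.divisors.filter (fun m => m ≤ U),
        (((ArithmeticFunction.moebius d : ℝ) : ℂ) * (ArithmeticFunction.vonMangoldt m : ℂ) *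
          χ ((d * (m * (k / m)) : ℕ) : ZMod q)))
    have h2 : ∀ d ∈ Icc 1 U, ∑ k ∈ (Icc 1 (N / d)).filter (fun k => d * k ≡ 1 [MOD M]),
        ∑ m ∈ k.divisors.filter (fun m => m ≤ U),
        (((ArithmeticFunction.moebius d : ℝ) : ℂ) * (ArithmeticFunction.vonMangoldt m : ℂ) *
          χ ((d * (m * (k / m)) : ℕ) : ZMod q)) =
        ∑ m ∈ Icc 1 U, ∑ j ∈ (Icc 1 (N / d / m)).filter (fun j => d * (m * j) ≡ 1 [MOD M]),
        (((ArithmeticFunction.moebius d : ℝ) : ℂ) * (ArithmeticFunction.vonMangoldt m : ℂ) *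
          χ ((d * (m * j) : ℕ) : ZMod q)) := by
      intro d _
      exact sum_div_small (N / d) U (fun k => d * k ≡ 1 [MOD M]) (fun m j =>
        (((ArithmeticFunction.moebius d : ℝ) : ℂ) * (ArithmeticFunction.vonMangoldt m : ℂ) *
          χ ((d * (m * j) : ℕ) : ZMod q)))
    rw [h1, Finset.sum_congr rfl h2]
    have h3 : ∀ d ∈ Icc 1 U, ‖∑ m ∈ Icc 1 U,
        ∑ j ∈ (Icc 1 (N / d / m)).filter (fun j => d * (m * j) ≡ 1 [MOD M]),
        (((ArithmeticFunction.moebius d : ℝ) : ℂ) * (ArithmeticFunction.vonMangoldt m : ℂ) *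
          χ ((d * (m * j) : ℕ) : ZMod q))‖ ≤ 5.4 * U * q := by
      intro d _
      have h4 : ∀ m ∈ Icc 1 U,
          ‖∑ j ∈ (Icc 1 (N / d / m)).filter (fun j => d * (m * j) ≡ 1 [MOD M]),
          (((ArithmeticFunction.moebius d : ℝ) : ℂ) * (ArithmeticFunction.vonMangoldt m : ℂ) *
            χ ((d * (m * j) : ℕ) : ZMod q))‖ ≤ (ArithmeticFunction.vonMangoldt m : ℝ) * q := by
        intro m _
        have h5 : ∑ j ∈ (Icc 1 (N / d / m)).filter (fun j => d * (m * j) ≡ 1 [MOD M]),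
            (((ArithmeticFunction.moebius d : ℝ) : ℂ) * (ArithmeticFunction.vonMangoldt m : ℂ) *
              χ ((d * (m * j) : ℕ) : ZMod q)) =
            (((ArithmeticFunction.moebius d : ℝ) : ℂ) * χ ((d * m : ℕ) : ZMod q)) *
              ((ArithmeticFunction.vonMangoldt m : ℂ) *
            ∑ j ∈ (Icc 1 (N / d / m)).filter (fun j => (d * m) * j ≡ 1 [MOD M]), χ j) := by
          rw [Finset.mul_sum, Finset.mul_sum]
          refine Finset.sum_congr ?_ (fun j _ => ?_)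
          · refine Finset.filter_congr (fun j _ => ?_)
            rw [mul_assoc]
          · rw [← mul_assoc d m j, Nat.cast_mul (d * m) j, map_mul]
            ring
        rw [h5, norm_mul, norm_mul, norm_mul]
        have h6 := char_prog hq hqM hM hχ (d * m) (N / d / m)
        have h7 : ‖((ArithmeticFunction.moebius d : ℝ) : ℂ)‖ * ‖χ ((d * m : ℕ) : ZMod q)‖ ≤ 1 :=
          mul_le_one₀ (moeb_norm d) (norm_nonneg _) (hχn _)
        have h8 : ‖(ArithmeticFunction.vonMangoldt m : ℂ)‖ =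
            (ArithmeticFunction.vonMangoldt m : ℝ) := by
          rw [Complex.norm_real, Real.norm_eq_abs,
            abs_of_nonneg ArithmeticFunction.vonMangoldt_nonneg]
        rw [h8]
        calc _ ≤ 1 * ((ArithmeticFunction.vonMangoldt m : ℝ) * q) := by
              refine mul_le_mul h7 ?_ (by positivity) zero_le_one
              exact mul_le_mul_of_nonneg_left h6 ArithmeticFunction.vonMangoldt_nonneg
          _ = _ := one_mul _
      refine (norm_sum_le_of_le _ h4).trans ?_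
      rw [← Finset.sum_mul]
      exact mul_le_mul_of_nonneg_right (psi_bound U) (Nat.cast_nonneg q)
    refine (norm_sum_le_of_le _ h3).trans ?_
    rw [Finset.sum_const, Nat.card_Icc, nsmul_eq_mul, Nat.add_sub_cancel]
  -- the third sum
  have hT3 : T3 = ∑ m ∈ Ioc U N,
      ∑ b ∈ (Icc 1 N).filter (fun b => m * b ≤ N ∧ m * b ≡ 1 [MOD M]),
        (ArithmeticFunction.vonMangoldt m : ℂ) * (bet U b : ℂ) * χ ((m * b : ℕ) : ZMod q) :=
    sum_div_large N U (fun m => m ≡ 1 [MOD M]) (fun m b =>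
      (ArithmeticFunction.vonMangoldt m : ℂ) * (bet U b : ℂ) * χ ((m * b : ℕ) : ZMod q))
  rw [hdec, ← hT3]
  have hnorm : ‖T0 + T1 - T2 + T3‖ ≤ ‖T0‖ + ‖T1‖ + ‖T2‖ + ‖T3‖ := by
    refine (norm_add_le _ _).trans ?_
    have h1 := norm_sub_le (T0 + T1) T2
    have h2 := norm_add_le T0 T1
    linarith
  have hq2 : (2 : ℝ) ≤ q := by exact_mod_cast hq.two_le
  have hU1 : (1 : ℝ) ≤ U := by exact_mod_cast hU
  have hlog : (0.69 : ℝ) ≤ Real.log N := by
    have h1 : Real.log 2 ≤ Real.log N := Real.log_le_log (by norm_num) (by exact_mod_cast hN)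
    have h2 := Real.log_two_gt_d9
    linarith
  have hUq : (U : ℝ) * 2 ≤ (U : ℝ) ^ 2 * q := by
    have h1 : (U : ℝ) ≤ (U : ℝ) ^ 2 := by nlinarith
    nlinarith
  have hUlog : (U : ℝ) * (2 * q * Real.log N) ≤ 2 * ((U : ℝ) ^ 2 * q) * Real.log N := by
    have h1 : (U : ℝ) ≤ (U : ℝ) ^ 2 := by nlinarith
    have h2 : (U : ℝ) * q ≤ (U : ℝ) ^ 2 * q := mul_le_mul_of_nonneg_right h1 (by positivity)
    nlinarith
  have hW : 0 ≤ (U : ℝ) ^ 2 * q := by positivity
  have hfin : 5.4 * (U : ℝ) + U * (2 * q * Real.log N) + U * (5.4 * U * q) ≤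
      8 * (U : ℝ) ^ 2 * q * (1 + Real.log N) := by
    have e1 : (U : ℝ) * (5.4 * U * q) = 5.4 * ((U : ℝ) ^ 2 * q) := by ring
    have e2 : 8 * (U : ℝ) ^ 2 * q * (1 + Real.log N) =
        8 * ((U : ℝ) ^ 2 * q) + 8 * ((U : ℝ) ^ 2 * q) * Real.log N := by ring
    rw [e1, e2]
    nlinarith [mul_le_mul_of_nonneg_left hlog hW]
  linarith

end Pool.Agent.Lib.MP_a9e8ee_lc.EW
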