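import Mathlib
import Pool.Agent.Lib.MP_a9e8ee_lc.EW.Vau
import Pool.Agent.Lib.MP_a9e8ee_lc.EW.Bil
import Pool.Agent.Lib.MP_629a14_nt.Th.DivSq
import Pool.Agent.Lib.MP_629a14_nt.Th.Fin

/-!
# Bombieri-Vinogradov: one dyadic block
-/

set_option autoImplicit false

open Finset

namespace Pool.Agent.Lib.MP_a9e8ee_lc.EW

theorem bva_bet_zero {U b : ℕ} (h : b ≤ U) : bet U b = 0 := by
  unfold bet
  rw [filter_eq_empty_iff.2, sum_empty]
  intro d hd
  rw [Nat.mem_divisors] at hd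
  have := Nat.le_of_dvd (Nat.pos_of_ne_zero hd.2) hd.1
  omega

theorem bva_abs_bet_le (U b : ℕ) : |bet U b| ≤ b.divisors.card := by
  unfold bet
  refine (abs_sum_le_sum_abs _ _).trans ?_
  have h : ∀ d ∈ b.divisors.filter (fun d => U < d), |(ArithmeticFunction.moebius d : ℝ)| ≤ 1 := by
    intro d _
    have := ArithmeticFunction.abs_moebius_le_one (n := d)
    exact_mod_cast this
  refine (sum_le_sum h).trans ?_
  rw [sum_const, nsmul_eq_mul, mul_one]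
  exact_mod_cast card_filter_le _ _

/-- PROOF. `|bet U b| ≤ τ(b)`, `bet U b = 0` for `b ≤ U`; `∑ τ(b)² ≤ B ∑ τ(b)²/b ≤ B (1 + log B)^4`
(`div_sq`). -/
theorem bet_sq (U B : ℕ) (hB : 1 ≤ B) :
    ∑ b ∈ Icc 1 B, ‖(bet U b : ℂ)‖ ^ 2 ≤ B * (1 + Real.log B) ^ 4 := by
  refine le_trans ?_ (mul_le_mul_of_nonneg_left (Pool.Agent.Lib.MP_629a14_nt.Th.div_sq B hB)
    (Nat.cast_nonneg B))
  rw [mul_sum]
  refine sum_le_sum fun b hb => ?_
  rw [mem_Icc] at hb
  have hb0 : (0 : ℝ) < b := by exact_mod_cast hb.1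
  have hbB : (b : ℝ) ≤ B := by exact_mod_cast hb.2
  rw [Complex.norm_real, Real.norm_eq_abs]
  have h1 : |bet U b| ^ 2 ≤ (b.divisors.card : ℝ) ^ 2 := by
    gcongr
    exact bva_abs_bet_le U b
  refine h1.trans ?_
  rw [← mul_div_assoc, le_div_iff₀ hb0, mul_comm]
  gcongr

theorem bva_log_fact_lam (n : ℕ) :
    Real.log (n.factorial : ℝ) = ∑ m ∈ Ioc 0 n, ArithmeticFunction.vonMangoldt m * ((n / m : ℕ) : ℝ) := by
  have h1 := ArithmeticFunction.sum_Ioc_mul_zeta_eq_sum ArithmeticFunction.vonMangoldt n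
  rw [ArithmeticFunction.vonMangoldt_mul_zeta] at h1
  rw [← h1]
  induction n with
  | zero => simp
  | succ n ih =>
    have h2 := ih (ArithmeticFunction.sum_Ioc_mul_zeta_eq_sum ArithmeticFunction.vonMangoldt n |>.symm ▸
      by rw [ArithmeticFunction.vonMangoldt_mul_zeta])
    rw [Nat.factorial_succ, Nat.cast_mul, Real.log_mul (by positivity) (by positivity), h2,
      ← Finset.insert_Ioc_right_eq_Ioc_add_one (Nat.zero_le n), sum_insert (by simp)]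
    simp [ArithmeticFunction.log_apply]

theorem bva_lam_sum (A : ℕ) (hA : 1 ≤ A) :
    ∑ m ∈ Ioc A (2 * A), ArithmeticFunction.vonMangoldt m ≤ 4 * A := by
  have h1 := bva_log_fact_lam (2 * A)
  have h2 := bva_log_fact_lam A
  have h3 : ∑ m ∈ Ioc 0 A, ArithmeticFunction.vonMangoldt m * ((A / m : ℕ) : ℝ) =
      ∑ m ∈ Ioc 0 (2 * A), ArithmeticFunction.vonMangoldt m * ((A / m : ℕ) : ℝ) := by
    refine sum_subset (Ioc_subset_Ioc_right (by omega)) ?_
    intro m hm hm'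
    rw [mem_Ioc] at hm hm'
    rw [Nat.div_eq_of_lt (by omega)]
    simp
  rw [h3] at h2
  have h4 : ∑ m ∈ Ioc A (2 * A), ArithmeticFunction.vonMangoldt m ≤
      ∑ m ∈ Ioc 0 (2 * A), ArithmeticFunction.vonMangoldt m *
        (((2 * A / m : ℕ) : ℝ) - 2 * ((A / m : ℕ) : ℝ)) := by
    have h5 : ∑ m ∈ Ioc A (2 * A), ArithmeticFunction.vonMangoldt m =
        ∑ m ∈ Ioc A (2 * A), ArithmeticFunction.vonMangoldt m *
        (((2 * A / m : ℕ) : ℝ) - 2 * ((A / m : ℕ) : ℝ)) := by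
      refine sum_congr rfl fun m hm => ?_
      rw [mem_Ioc] at hm
      have e1 : A / m = 0 := Nat.div_eq_of_lt hm.1
      have e2 : 2 * A / m = 1 := by
        apply Nat.div_eq_of_lt_le <;> omega
      rw [e1, e2]
      simp
    rw [h5]
    refine sum_le_sum_of_subset_of_nonneg (Ioc_subset_Ioc_left (by omega)) ?_
    intro m _ _
    refine mul_nonneg ArithmeticFunction.vonMangoldt_nonneg ?_
    have : 2 * (A / m) ≤ 2 * A / m := Nat.mul_div_le_mul_div_assoc 2 A m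
    have h6 : ((2 * (A / m) : ℕ) : ℝ) ≤ ((2 * A / m : ℕ) : ℝ) := by exact_mod_cast this
    push_cast at h6
    linarith
  have h7 : ∑ m ∈ Ioc 0 (2 * A), ArithmeticFunction.vonMangoldt m *
        (((2 * A / m : ℕ) : ℝ) - 2 * ((A / m : ℕ) : ℝ)) =
        Real.log ((2 * A).factorial : ℝ) - 2 * Real.log (A.factorial : ℝ) := by
    rw [h1, h2, mul_sum, ← sum_sub_distrib]
    refine sum_congr rfl fun m _ => ?_
    ring
  rw [h7] at h4
  refine h4.trans ?_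
  have h8 : ((2 * A).factorial : ℝ) = (A.centralBinom : ℝ) * ((A.factorial : ℝ) * A.factorial) := by
    have := Nat.two_dvd_centralBinom_of_one_le hA
    have h9 := Nat.choose_mul_factorial_mul_factorial (n := 2 * A) (k := A) (by omega)
    rw [show 2 * A - A = A by omega] at h9
    rw [← h9, Nat.centralBinom_eq_two_mul_choose]
    push_cast
    ring
  have hf : (0 : ℝ) < A.factorial := by exact_mod_cast Nat.factorial_pos A
  have hc : (0 : ℝ) < A.centralBinom := by exact_mod_cast Nat.centralBinom_pos A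
  rw [h8, Real.log_mul hc.ne' (by positivity), Real.log_mul hf.ne' hf.ne']
  have h10 : (A.centralBinom : ℝ) ≤ 4 ^ A := by
    exact_mod_cast Nat.centralBinom_le_four_pow A
  have h11 : Real.log (A.centralBinom : ℝ) ≤ A * Real.log 4 := by
    rw [← Real.log_pow]
    exact Real.log_le_log hc h10
  have h12 : Real.log 4 ≤ 4 := by
    have := Real.log_le_sub_one_of_pos (show (0 : ℝ) < 4 by norm_num)
    linarith
  have h13 : (A : ℝ) * Real.log 4 ≤ A * 4 := by gcongr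
  linarith

/-- PROOF. `Λ² ≤ log (2 A) Λ`, `∑ m ≤ 2 A, Λ m ≤ 4 A` (Chebyshev). -/
theorem lam_sq (A : ℕ) (hA : 1 ≤ A) :
    ∑ m ∈ Ioc A (2 * A), ‖(ArithmeticFunction.vonMangoldt m : ℂ)‖ ^ 2 ≤
      4 * A * Real.log (2 * A) := by
  have h0 : (0 : ℝ) ≤ Real.log (2 * A) := by
    have : (1 : ℝ) ≤ A := by exact_mod_cast hA
    exact Real.log_nonneg (by linarith)
  refine le_trans ?_ (mul_le_mul_of_nonneg_right (bva_lam_sum A hA) h0)
  rw [sum_mul]
  refine sum_le_sum fun m hm => ?_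
  rw [mem_Ioc] at hm
  rw [Complex.norm_real, Real.norm_eq_abs, sq_abs, sq]
  refine mul_le_mul_of_nonneg_left ?_ ArithmeticFunction.vonMangoldt_nonneg
  refine ArithmeticFunction.vonMangoldt_le_log.trans ?_
  have hm0 : (0 : ℝ) < m := by
    have : 0 < m := by omega
    exact_mod_cast this
  have : (m : ℝ) ≤ 2 * A := by exact_mod_cast hm.2
  exact Real.log_le_log hm0 this

/-- dyadic splitting of a sum -/
theorem bva_dyad_split (U : ℕ) (g : ℕ → ℂ) (J : ℕ) :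
    ∑ m ∈ Ioc U (2 ^ J * U), g m = ∑ j ∈ range J, ∑ m ∈ Ioc (2 ^ j * U) (2 * (2 ^ j * U)), g m := by
  induction J with
  | zero => simp
  | succ J ih =>
    rw [sum_range_succ, ← ih, ← sum_Ioc_consecutive g (m := U) (n := 2 ^ J * U)]
    · congr 2
      congr 1
      ring
    · exact Nat.le_mul_of_pos_left U (by positivity)
    · exact Nat.mul_le_mul_right U (Nat.pow_le_pow_right (by norm_num) (by omega))

/-- the elementary inequality for one block -/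
theorem bva_sqrt_block {A B N Q U L : ℝ} (hA : 0 ≤ A) (hB : 0 ≤ B) (hN : 0 ≤ N) (hQ : 0 ≤ Q) (hU : 0 < U)
    (hL : 1 ≤ L) (hAB : A * B ≤ N) (hAU : A ≤ N / U) (hBU : B ≤ N / U) {S T : ℝ} (hS : S ≤ 4 * A * L)
    (hT : T ≤ B * L ^ 4) (hS0 : 0 ≤ S) (hT0 : 0 ≤ T) :
    Real.sqrt ((A + (2 * Q) ^ 2) * (B + (2 * Q) ^ 2) * (S * T)) ≤
      8 * L ^ 3 * (N + Q * N / Real.sqrt U + Q ^ 2 * Real.sqrt N) := by
  have h1 : S * T ≤ 4 * N * L ^ 5 := by
    calc S * T ≤ (4 * A * L) * (B * L ^ 4) := by gcongr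
      _ = 4 * (A * B) * L ^ 5 := by ring
      _ ≤ 4 * N * L ^ 5 := by gcongr
  have h2 : S * T ≤ (2 * Real.sqrt N * L ^ 3) ^ 2 := by
    refine h1.trans ?_
    have : (2 * Real.sqrt N * L ^ 3) ^ 2 = 4 * N * L ^ 6 := by
      rw [mul_pow, mul_pow, Real.sq_sqrt hN]
      ring
    rw [this]
    exact mul_le_mul_of_nonneg_left (pow_le_pow_right₀ hL (by norm_num)) (by positivity)
  have hsA := Real.sq_sqrt hA
  have hsB := Real.sq_sqrt hB
  have h3 : A + (2 * Q) ^ 2 ≤ (Real.sqrt A + 2 * Q) ^ 2 := by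
    have : 0 ≤ Real.sqrt A * Q := by positivity
    nlinarith
  have h4 : B + (2 * Q) ^ 2 ≤ (Real.sqrt B + 2 * Q) ^ 2 := by
    have : 0 ≤ Real.sqrt B * Q := by positivity
    nlinarith
  have h5 : Real.sqrt ((A + (2 * Q) ^ 2) * (B + (2 * Q) ^ 2) * (S * T)) ≤
      (Real.sqrt A + 2 * Q) * (Real.sqrt B + 2 * Q) * (2 * Real.sqrt N * L ^ 3) := by
    rw [Real.sqrt_le_left (by positivity)]
    calc (A + (2 * Q) ^ 2) * (B + (2 * Q) ^ 2) * (S * T) ≤
        (Real.sqrt A + 2 * Q) ^ 2 * (Real.sqrt B + 2 * Q) ^ 2 * (2 * Real.sqrt N * L ^ 3) ^ 2 := by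
          gcongr
      _ = ((Real.sqrt A + 2 * Q) * (Real.sqrt B + 2 * Q) * (2 * Real.sqrt N * L ^ 3)) ^ 2 := by ring
  refine h5.trans ?_
  have h6 : Real.sqrt A * Real.sqrt B ≤ Real.sqrt N := by
    rw [← Real.sqrt_mul hA]
    exact Real.sqrt_le_sqrt hAB
  have h7 : Real.sqrt A ≤ Real.sqrt N / Real.sqrt U := by
    rw [← Real.sqrt_div hN]
    exact Real.sqrt_le_sqrt hAU
  have h8 : Real.sqrt B ≤ Real.sqrt N / Real.sqrt U := by
    rw [← Real.sqrt_div hN]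
    exact Real.sqrt_le_sqrt hBU
  have hU' : 0 < Real.sqrt U := Real.sqrt_pos.2 hU
  have hN' := Real.mul_self_sqrt hN
  calc (Real.sqrt A + 2 * Q) * (Real.sqrt B + 2 * Q) * (2 * Real.sqrt N * L ^ 3)
      = (Real.sqrt A * Real.sqrt B + 2 * Q * (Real.sqrt A + Real.sqrt B) + 4 * Q ^ 2) *
        (2 * Real.sqrt N * L ^ 3) := by ring
    _ ≤ (Real.sqrt N + 2 * Q * (Real.sqrt N / Real.sqrt U + Real.sqrt N / Real.sqrt U) + 4 * Q ^ 2) *
        (2 * Real.sqrt N * L ^ 3) := by gcongr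
    _ = 2 * L ^ 3 * ((Real.sqrt N * Real.sqrt N) + 4 * Q * (Real.sqrt N * Real.sqrt N) / Real.sqrt U +
        4 * Q ^ 2 * Real.sqrt N) := by ring
    _ = 2 * L ^ 3 * (N + 4 * Q * N / Real.sqrt U + 4 * Q ^ 2 * Real.sqrt N) := by rw [hN']
    _ ≤ 2 * L ^ 3 * (4 * N + 4 * Q * N / Real.sqrt U + 4 * Q ^ 2 * Real.sqrt N) := by
        gcongr
        linarith
    _ = 8 * L ^ 3 * (N + Q * N / Real.sqrt U + Q ^ 2 * Real.sqrt N) := by ring

/-- the inner sum over `b` -/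
theorem bva_inner_eq {M N A m : ℕ} (hA : 1 ≤ A) (hm : A < m) (F : ℕ → ℂ) :
    ∑ b ∈ (Icc 1 N).filter (fun b => m * b ≤ N ∧ m * b ≡ 1 [MOD M]), F b =
      ∑ b ∈ (Icc 1 (N / A)).filter (fun b => m * b ≤ N ∧ m * b ≡ 1 [MOD M]), F b := by
  refine sum_congr ?_ fun _ _ => rfl
  ext b
  simp only [mem_filter, mem_Icc]
  constructor
  · rintro ⟨⟨h1, h2⟩, h3, h4⟩
    refine ⟨⟨h1, ?_⟩, h3, h4⟩
    rw [Nat.le_div_iff_mul_le (by omega)]
    calc b * A ≤ b * m := Nat.mul_le_mul_left b hm.le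
      _ = m * b := mul_comm _ _
      _ ≤ N := h3
  · rintro ⟨⟨h1, h2⟩, h3, h4⟩
    exact ⟨⟨h1, h2.trans (Nat.div_le_self N A)⟩, h3, h4⟩

open Pool.Agent.Lib.MP_629a14_nt Pool.Agent.Lib.MP_629a14_nt.Th in
/-- one dyadic block of the bilinear sum -/
theorem bva_bv_piece : ∃ C : ℝ, 1 ≤ C ∧ ∀ M N U Q A : ℕ, 1 ≤ M → 2 ≤ N → 1 ≤ U → U ≤ A →
    ∑ x ∈ prims (2 * Q), ‖∑ m ∈ Ioc A (2 * A), ∑ b ∈ (Icc 1 N).filter
        (fun b => m * b ≤ N ∧ m * b ≡ 1 [MOD M]), (ArithmeticFunction.vonMangoldt m : ℂ) *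
          (bet U b : ℂ) * x.2 ((m * b : ℕ) : ZMod x.1)‖ ≤
      C * M * (1 + Real.log N) ^ 4 *
        (N + Q * N / Real.sqrt U + Q ^ 2 * Real.sqrt N) := by
  obtain ⟨C, hC, h⟩ := bilin
  refine ⟨16 * C, by linarith, ?_⟩
  intro M N U Q A hM hN hU hUA
  have hNr : (2 : ℝ) ≤ N := by exact_mod_cast hN
  have hlog : 0 ≤ Real.log (N : ℝ) := Real.log_nonneg (by linarith)
  have hUr : (1 : ℝ) ≤ U := by exact_mod_cast hU
  have hA : 1 ≤ A := hU.trans hUA
  have hAr : (1 : ℝ) ≤ A := by exact_mod_cast hA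
  have e1 : ∀ x : CH, ∑ m ∈ Ioc A (2 * A), ∑ b ∈ (Icc 1 N).filter
        (fun b => m * b ≤ N ∧ m * b ≡ 1 [MOD M]), (ArithmeticFunction.vonMangoldt m : ℂ) *
          (bet U b : ℂ) * x.2 ((m * b : ℕ) : ZMod x.1) =
      ∑ m ∈ Ioc A (2 * A), ∑ b ∈ (Icc 1 (N / A)).filter
        (fun b => m * b ≤ N ∧ m * b ≡ 1 [MOD M]), (ArithmeticFunction.vonMangoldt m : ℂ) *
          (bet U b : ℂ) * x.2 ((m * b : ℕ) : ZMod x.1) := by
    intro x
    refine sum_congr rfl fun m hm => ?_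
    rw [mem_Ioc] at hm
    exact bva_inner_eq hA hm.1 _
  simp only [e1]
  have hR : 0 ≤ (N : ℝ) + Q * N / Real.sqrt U + Q ^ 2 * Real.sqrt N := by positivity
  rcases Nat.lt_or_ge U (N / A) with hB | hB
  · set B := N / A with hBdef
    have hB1 : 1 ≤ B := by omega
    refine (h M (2 * Q) A B N (fun m => (ArithmeticFunction.vonMangoldt m : ℂ))
      (fun b => (bet U b : ℂ)) hM hB1).trans ?_
    have hAB : (A : ℝ) * B ≤ N := by
      have : A * B ≤ N := Nat.mul_div_le N A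
      exact_mod_cast this
    have hBr : (1 : ℝ) ≤ B := by exact_mod_cast hB1
    have hUB : (U : ℝ) ≤ B := by exact_mod_cast hB.le
    have hUA' : (U : ℝ) ≤ A := by exact_mod_cast hUA
    have hAN : (A : ℝ) ≤ N := le_trans (by nlinarith) hAB
    have hBN : (B : ℝ) ≤ N := le_trans (by nlinarith) hAB
    have hAU : (A : ℝ) ≤ N / U := by
      rw [le_div_iff₀ (by linarith)]
      exact le_trans (by gcongr) hAB
    have hBU : (B : ℝ) ≤ N / U := by
      rw [le_div_iff₀ (by linarith)]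
      refine le_trans ?_ hAB
      rw [mul_comm (A : ℝ)]
      gcongr
    have hlog2 : Real.log 2 ≤ 1 := by
      have := Real.log_two_lt_d9
      linarith
    have hl2N : Real.log (2 * N) ≤ 1 + Real.log N := by
      rw [Real.log_mul (by norm_num) (by linarith)]
      linarith
    have hS := lam_sq A hA
    have hT := bet_sq U B hB1
    have hlogA : Real.log (2 * A) ≤ 1 + Real.log N := by
      refine (Real.log_le_log (by linarith) ?_).trans hl2N
      linarith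
    have hlogB : Real.log B ≤ Real.log N := Real.log_le_log (by linarith) hBN
    have hlogB0 : 0 ≤ Real.log B := Real.log_nonneg hBr
    have hlogB1 : Real.log (1 + B) ≤ 1 + Real.log N := by
      refine (Real.log_le_log (by linarith) ?_).trans hl2N
      linarith
    have hlogB10 : 0 ≤ Real.log (1 + B) := Real.log_nonneg (by linarith)
    have hS' := hS.trans (mul_le_mul_of_nonneg_left hlogA (by positivity : (0 : ℝ) ≤ 4 * A))
    have hT' : ∑ b ∈ Icc 1 B, ‖(bet U b : ℂ)‖ ^ 2 ≤ B * (1 + Real.log N) ^ 4 := by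
      refine hT.trans ?_
      gcongr
    have hblk := bva_sqrt_block (A := A) (B := B) (N := N) (Q := Q) (U := U) (L := 1 + Real.log N)
      (by positivity) (by positivity) (by positivity) (by positivity) (by linarith) (by linarith)
      hAB hAU hBU hS' hT' (sum_nonneg fun _ _ => by positivity) (sum_nonneg fun _ _ => by positivity)
    have hcast : ((2 * Q : ℕ) : ℝ) = 2 * (Q : ℝ) := by push_cast; ring
    rw [hcast]
    calc C * M * (1 + Real.log (1 + B)) * Real.sqrt (((A : ℝ) + (2 * (Q : ℝ)) ^ 2) *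
          (B + (2 * (Q : ℝ)) ^ 2) * ((∑ m ∈ Ioc A (2 * A), ‖(ArithmeticFunction.vonMangoldt m : ℂ)‖ ^ 2) *
            ∑ b ∈ Icc 1 B, ‖(bet U b : ℂ)‖ ^ 2))
        ≤ C * M * (2 * (1 + Real.log N)) * (8 * (1 + Real.log N) ^ 3 *
          (N + Q * N / Real.sqrt U + Q ^ 2 * Real.sqrt N)) := by
          gcongr
          linarith
      _ = 16 * C * M * (1 + Real.log N) ^ 4 *
          (N + Q * N / Real.sqrt U + Q ^ 2 * Real.sqrt N) := by ring
  · have e2 : ∀ x ∈ prims (2 * Q), ‖∑ m ∈ Ioc A (2 * A), ∑ b ∈ (Icc 1 (N / A)).filter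
        (fun b => m * b ≤ N ∧ m * b ≡ 1 [MOD M]), (ArithmeticFunction.vonMangoldt m : ℂ) *
          (bet U b : ℂ) * x.2 ((m * b : ℕ) : ZMod x.1)‖ = 0 := by
      intro x _
      rw [norm_eq_zero]
      refine sum_eq_zero fun m _ => sum_eq_zero fun b hb => ?_
      rw [mem_filter, mem_Icc] at hb
      rw [bva_bet_zero (by omega)]
      simp
    rw [sum_eq_zero e2]
    positivity

theorem bva_log_count {N : ℕ} (hN : 2 ≤ N) : ((Nat.log 2 N + 1 : ℕ) : ℝ) ≤ 2 * (1 + Real.log N) := by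
  have h1 : 2 ^ Nat.log 2 N ≤ N := Nat.pow_log_le_self 2 (by omega)
  have h2 : ((2 : ℝ) ^ Nat.log 2 N) ≤ N := by exact_mod_cast h1
  have h3 := Real.log_le_log (by positivity) h2
  rw [Real.log_pow] at h3
  have h4 := Real.log_two_gt_d9
  have h5 : (0 : ℝ) ≤ (Nat.log 2 N : ℝ) := Nat.cast_nonneg _
  push_cast
  nlinarith

open Pool.Agent.Lib.MP_629a14_nt Pool.Agent.Lib.MP_629a14_nt.Th in
/-- One dyadic block of moduli. PROOF. `chiS_le` for every `x ∈ PC Q` (`q ≤ 2 Q`, at most `4 Q²` characters: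
`card_prims_le`; a primitive character with prime modulus is not `1`; `q > Q ≥ M` does not divide `M`). The
bilinear sum is split into the ranges `m ∈ (A, 2 A]`, `A = 2^j U`, `j ≤ log₂ (N/U)` (for `A ≥ N/U` there is no
`b > U` with `m b ≤ N`), `b ≤ B = N / A`; `bilin`, `bet_sq`, `lam_sq`, `A B ≤ N`, and
`sqrt ((A + 4 Q²) (B + 4 Q²) A B) ≤ sqrt N (sqrt A + 2 Q) (sqrt B + 2 Q)
≤ N + 4 Q N / sqrt U + 4 Q² sqrt N` because `A, B ≤ N / U`. -/
theorem bv_block : ∃ C : ℝ, 1 ≤ C ∧ ∀ M N U Q : ℕ, 1 ≤ M → 2 ≤ N → 1 ≤ U → U ≤ N → M ≤ Q →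
    ∑ x ∈ PC Q, ‖chiS M N x.2‖ ≤ C * M * (1 + Real.log N) ^ 6 *
      ((U : ℝ) ^ 2 * Q ^ 3 + N + Q * N / Real.sqrt U + Q ^ 2 * Real.sqrt N) := by
  obtain ⟨C, hC, h⟩ := bva_bv_piece
  refine ⟨64 + 2 * C, by linarith, ?_⟩
  intro M N U Q hM hN hU hUN hMQ
  have hNr : (2 : ℝ) ≤ N := by exact_mod_cast hN
  have hMr : (1 : ℝ) ≤ M := by exact_mod_cast hM
  have hlog : 0 ≤ Real.log (N : ℝ) := Real.log_nonneg (by linarith)
  set L : ℝ := 1 + Real.log N with hL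
  have hL1 : 1 ≤ L := by linarith
  set J := Nat.log 2 N + 1 with hJ
  have hNJ : N ≤ 2 ^ J * U := by
    have h1 : N < 2 ^ J := Nat.lt_pow_succ_log_self (by norm_num) N
    exact h1.le.trans (Nat.le_mul_of_pos_right _ (by omega))
  set T : CH → ℕ → ℂ := fun x A => ∑ m ∈ Ioc A (2 * A), ∑ b ∈ (Icc 1 N).filter
        (fun b => m * b ≤ N ∧ m * b ≡ 1 [MOD M]), (ArithmeticFunction.vonMangoldt m : ℂ) *
          (bet U b : ℂ) * x.2 ((m * b : ℕ) : ZMod x.1) with hT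
  have h1 : ∀ x ∈ PC Q, ‖chiS M N x.2‖ ≤ 16 * (U : ℝ) ^ 2 * Q * L +
      ∑ j ∈ range J, ‖T x (2 ^ j * U)‖ := by
    intro x hx
    unfold PC at hx
    rw [mem_filter, mem_prims] at hx
    obtain ⟨⟨hx1, hx2, hx3⟩, hx4, hx5⟩ := hx
    have hne : x ≠ ch1 := by
      intro h2
      rw [h2] at hx4
      exact Nat.not_prime_one hx4
    have hχ : x.2 ≠ 1 := prims_ne_one (2 * Q) x ((mem_prims _ _).2 ⟨hx1, hx2, hx3⟩) hne
    have hqM : ¬ x.1 ∣ M := by
      intro hd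
      have := Nat.le_of_dvd (by omega) hd
      omega
    refine (chiS_le hx4 hqM hM hχ N U hU hN).trans ?_
    have hq : (x.1 : ℝ) ≤ 2 * Q := by exact_mod_cast hx2
    refine add_le_add ?_ ?_
    · calc 8 * (U : ℝ) ^ 2 * x.1 * L ≤ 8 * (U : ℝ) ^ 2 * (2 * Q) * L := by gcongr
        _ = 16 * (U : ℝ) ^ 2 * Q * L := by ring
    · have h2 : ∑ m ∈ Ioc U N, ∑ b ∈ (Icc 1 N).filter (fun b => m * b ≤ N ∧ m * b ≡ 1 [MOD M]),
        (ArithmeticFunction.vonMangoldt m : ℂ) * (bet U b : ℂ) * x.2 ((m * b : ℕ) : ZMod x.1) =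
          ∑ m ∈ Ioc U (2 ^ J * U), ∑ b ∈ (Icc 1 N).filter (fun b => m * b ≤ N ∧ m * b ≡ 1 [MOD M]),
        (ArithmeticFunction.vonMangoldt m : ℂ) * (bet U b : ℂ) * x.2 ((m * b : ℕ) : ZMod x.1) := by
        refine sum_subset (Ioc_subset_Ioc_right hNJ) ?_
        intro m hm hm'
        rw [mem_Ioc] at hm hm'
        refine sum_eq_zero fun b hb => ?_
        exfalso
        rw [mem_filter, mem_Icc] at hb
        have : m * 1 ≤ m * b := Nat.mul_le_mul_left m hb.1.1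
        omega
      rw [h2, bva_dyad_split]
      exact norm_sum_le _ _
  have hsub : PC Q ⊆ prims (2 * Q) := filter_subset _ _
  have hcard : ((PC Q).card : ℝ) ≤ 4 * (Q : ℝ) ^ 2 := by
    have h2 : (PC Q).card ≤ (2 * Q) ^ 2 := (card_le_card hsub).trans (card_prims_le _)
    have h3 : ((PC Q).card : ℝ) ≤ ((2 * Q : ℕ) : ℝ) ^ 2 := by exact_mod_cast h2
    refine h3.trans (le_of_eq ?_)
    push_cast
    ring
  set R : ℝ := (N : ℝ) + Q * N / Real.sqrt U + Q ^ 2 * Real.sqrt N with hR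
  have hR0 : 0 ≤ R := by positivity
  have h2 : ∑ x ∈ PC Q, ∑ j ∈ range J, ‖T x (2 ^ j * U)‖ ≤ 2 * C * M * L ^ 5 * R := by
    rw [sum_comm]
    have h3 : ∀ j ∈ range J, ∑ x ∈ PC Q, ‖T x (2 ^ j * U)‖ ≤ C * M * L ^ 4 * R := by
      intro j _
      refine (sum_le_sum_of_subset_of_nonneg hsub fun _ _ _ => norm_nonneg _).trans ?_
      exact h M N U Q (2 ^ j * U) hM hN hU (Nat.le_mul_of_pos_left U (by positivity))
    refine (sum_le_sum h3).trans ?_
    rw [sum_const, card_range, nsmul_eq_mul]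
    have h4 := bva_log_count hN
    calc (J : ℝ) * (C * M * L ^ 4 * R) ≤ (2 * L) * (C * M * L ^ 4 * R) := by
          apply mul_le_mul_of_nonneg_right h4
          positivity
      _ = 2 * C * M * L ^ 5 * R := by ring
  calc ∑ x ∈ PC Q, ‖chiS M N x.2‖
      ≤ ∑ x ∈ PC Q, (16 * (U : ℝ) ^ 2 * Q * L + ∑ j ∈ range J, ‖T x (2 ^ j * U)‖) := sum_le_sum h1
    _ = (PC Q).card * (16 * (U : ℝ) ^ 2 * Q * L) + ∑ x ∈ PC Q, ∑ j ∈ range J, ‖T x (2 ^ j * U)‖ := by
        rw [sum_add_distrib, sum_const, nsmul_eq_mul]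
    _ ≤ 4 * (Q : ℝ) ^ 2 * (16 * (U : ℝ) ^ 2 * Q * L) + 2 * C * M * L ^ 5 * R := by gcongr
    _ = 64 * 1 * L ^ 1 * ((U : ℝ) ^ 2 * Q ^ 3) + 2 * C * M * L ^ 5 * R := by ring
    _ ≤ 64 * M * L ^ 6 * ((U : ℝ) ^ 2 * Q ^ 3) + 2 * C * M * L ^ 6 * R := by
        have e6 : L ^ 1 ≤ L ^ 6 := pow_le_pow_right₀ hL1 (by norm_num)
        have e5 : L ^ 5 ≤ L ^ 6 := pow_le_pow_right₀ hL1 (by norm_num)
        gcongr
    _ ≤ (64 + 2 * C) * M * L ^ 6 * ((U : ℝ) ^ 2 * Q ^ 3) + (64 + 2 * C) * M * L ^ 6 * R := by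
        gcongr
        · linarith
        · linarith
    _ = (64 + 2 * C) * M * L ^ 6 *
      ((U : ℝ) ^ 2 * Q ^ 3 + N + Q * N / Real.sqrt U + Q ^ 2 * Real.sqrt N) := by
        rw [hR]
        ring

end Pool.Agent.Lib.MP_a9e8ee_lc.EW
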