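import Mathlib
import Pool.Agent.Lib.MP_a9e8ee_lc.EW.BVa

/-!
# Bombieri-Vinogradov for prime moduli without small moduli
-/

set_option autoImplicit false

open Finset

namespace Pool.Agent.Lib.MP_a9e8ee_lc.EW

open Pool.Agent.Lib.MP_629a14_nt.Th in
private theorem bvb_fiber (B : Finset ℕ) (Q : ℕ) (hB : ∀ l ∈ B, l.Prime ∧ Q < l ∧ l ≤ 2 * Q)
    (f : CH → ℝ) (hf : ∀ x, 0 ≤ f x) :
    ∑ l ∈ B, ∑ x ∈ (prims l).filter (fun x => x.1 = l), f x ≤ ∑ x ∈ PC Q, f x := by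
  classical
  have h1 : ∀ l ∈ B, (prims l).filter (fun x => x.1 = l) = (PC Q).filter (fun x => x.1 = l) := by
    intro l hl
    obtain ⟨hp, h1, h2⟩ := hB l hl
    ext x
    unfold PC prims
    simp only [mem_filter, mem_sigma, mem_Icc]
    constructor
    · rintro ⟨⟨⟨h3, h4⟩, h5⟩, h6⟩
      exact ⟨⟨⟨⟨h3, by omega⟩, h5⟩, h6 ▸ hp, by omega⟩, h6⟩
    · rintro ⟨⟨⟨⟨h3, h4⟩, h5⟩, h7, h8⟩, h6⟩
      exact ⟨⟨⟨h3, by omega⟩, h5⟩, h6⟩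
  rw [sum_congr rfl fun l hl => by rw [h1 l hl, sum_filter], sum_comm]
  refine sum_le_sum fun x _ => ?_
  rw [sum_ite_eq]
  split_ifs
  · exact le_refl _
  · exact hf x

private theorem bvb_dyadic {Q l : ℕ} (hQ : 1 ≤ Q) (h : Q < l) :
    ∃ j, 2 ^ j * Q < l ∧ l ≤ 2 * (2 ^ j * Q) ∧ j ≤ Nat.log 2 l := by
  have h0 : (l - 1) / Q ≠ 0 := by
    have : 1 ≤ (l - 1) / Q := by
      rw [Nat.le_div_iff_mul_le (by omega)]
      omega
    omega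
  refine ⟨Nat.log 2 ((l - 1) / Q), ?_, ?_, ?_⟩
  · have h1 := Nat.pow_log_le_self 2 h0
    have h2 := Nat.mul_le_mul_right Q h1
    have h3 := Nat.div_mul_le_self (l - 1) Q
    omega
  · have h1 := Nat.lt_pow_succ_log_self (b := 2) (by norm_num) ((l - 1) / Q)
    rw [Nat.div_lt_iff_lt_mul (by omega), pow_succ] at h1
    have : 2 ^ Nat.log 2 ((l - 1) / Q) * 2 * Q = 2 * (2 ^ Nat.log 2 ((l - 1) / Q) * Q) := by ring
    omega
  · exact Nat.log_mono_right ((Nat.div_le_self _ _).trans (Nat.sub_le _ _))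

private theorem bvb_bracket {N U Q : ℕ} {ε : ℝ} (hN : 1 ≤ N) (hε : 0 < ε)
    (hU1 : (U : ℝ) ≤ (N : ℝ) ^ (ε / 2)) (hU2 : (N : ℝ) ^ (ε / 2) / 2 ≤ U)
    (hQ1 : (Q : ℝ) ≤ (N : ℝ) ^ (1 / 2 - ε)) (hQ2 : (N : ℝ) ^ ε / 2 ≤ Q) :
    (U : ℝ) ^ 2 * Q ^ 3 + N + Q * N / Real.sqrt U + Q ^ 2 * Real.sqrt N ≤
      Q * (6 * (N : ℝ) ^ (1 - ε / 4)) := by
  have hN1 : (1 : ℝ) ≤ N := by exact_mod_cast hN
  have hN0 : (0 : ℝ) < N := by linarith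
  have hQ0 : (0 : ℝ) < Q := lt_of_lt_of_le (by positivity) hQ2
  have hU0 : (0 : ℝ) < U := lt_of_lt_of_le (by positivity) hU2
  have hmono : (N : ℝ) ^ (1 - ε) ≤ (N : ℝ) ^ (1 - ε / 4) :=
    Real.rpow_le_rpow_of_exponent_le hN1 (by linarith)
  have e1 : (U : ℝ) ^ 2 * Q ^ 2 ≤ (N : ℝ) ^ (1 - ε) := by
    have h1 : (U : ℝ) ^ 2 ≤ ((N : ℝ) ^ (ε / 2)) ^ 2 := pow_le_pow_left₀ hU0.le hU1 2
    have h2 : (Q : ℝ) ^ 2 ≤ ((N : ℝ) ^ (1 / 2 - ε)) ^ 2 := pow_le_pow_left₀ hQ0.le hQ1 2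
    calc (U : ℝ) ^ 2 * Q ^ 2 ≤ ((N : ℝ) ^ (ε / 2)) ^ 2 * ((N : ℝ) ^ (1 / 2 - ε)) ^ 2 :=
          mul_le_mul h1 h2 (by positivity) (by positivity)
      _ = (N : ℝ) ^ (1 - ε) := by
          rw [← Real.rpow_natCast ((N : ℝ) ^ (ε / 2)) 2, ← Real.rpow_mul hN0.le,
            ← Real.rpow_natCast ((N : ℝ) ^ (1 / 2 - ε)) 2, ← Real.rpow_mul hN0.le,
            ← Real.rpow_add hN0]
          congr 1
          push_cast
          ring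
  have e2 : (N : ℝ) ≤ Q * (2 * (N : ℝ) ^ (1 - ε)) := by
    have h1 : (N : ℝ) = (N : ℝ) ^ ε * (N : ℝ) ^ (1 - ε) := by
      rw [← Real.rpow_add hN0]
      simp
    have h2 : (N : ℝ) ^ ε ≤ 2 * Q := by linarith
    have h3 : (0 : ℝ) < (N : ℝ) ^ (1 - ε) := by positivity
    calc (N : ℝ) = (N : ℝ) ^ ε * (N : ℝ) ^ (1 - ε) := h1
      _ ≤ (2 * Q) * (N : ℝ) ^ (1 - ε) := mul_le_mul_of_nonneg_right h2 h3.le
      _ = Q * (2 * (N : ℝ) ^ (1 - ε)) := by ring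
  have hsU : (N : ℝ) ^ (ε / 4) / 2 ≤ Real.sqrt U := by
    apply Real.le_sqrt_of_sq_le
    have h1 : ((N : ℝ) ^ (ε / 4)) ^ 2 = (N : ℝ) ^ (ε / 2) := by
      rw [← Real.rpow_natCast ((N : ℝ) ^ (ε / 4)) 2, ← Real.rpow_mul hN0.le]
      congr 1
      push_cast
      ring
    have h2 : (0 : ℝ) < (N : ℝ) ^ (ε / 2) := by positivity
    rw [div_pow, h1]
    linarith
  have hsU0 : 0 < Real.sqrt U := Real.sqrt_pos.mpr hU0
  have e3 : (N : ℝ) / Real.sqrt U ≤ 2 * (N : ℝ) ^ (1 - ε / 4) := by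
    rw [div_le_iff₀ hsU0]
    have h1 : (N : ℝ) = (N : ℝ) ^ (ε / 4) * (N : ℝ) ^ (1 - ε / 4) := by
      rw [← Real.rpow_add hN0]
      simp
    have h3 : (0 : ℝ) < (N : ℝ) ^ (1 - ε / 4) := by positivity
    calc (N : ℝ) = (N : ℝ) ^ (ε / 4) * (N : ℝ) ^ (1 - ε / 4) := h1
      _ ≤ (2 * Real.sqrt U) * (N : ℝ) ^ (1 - ε / 4) :=
          mul_le_mul_of_nonneg_right (by linarith) h3.le
      _ = 2 * (N : ℝ) ^ (1 - ε / 4) * Real.sqrt U := by ring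
  have e4 : (Q : ℝ) * Real.sqrt N ≤ (N : ℝ) ^ (1 - ε) := by
    rw [Real.sqrt_eq_rpow]
    calc (Q : ℝ) * (N : ℝ) ^ (1 / 2 : ℝ) ≤ (N : ℝ) ^ (1 / 2 - ε) * (N : ℝ) ^ (1 / 2 : ℝ) :=
          mul_le_mul_of_nonneg_right hQ1 (by positivity)
      _ = (N : ℝ) ^ (1 - ε) := by
          rw [← Real.rpow_add hN0]
          congr 1
          ring
  have f1 : (U : ℝ) ^ 2 * Q ^ 3 ≤ Q * (N : ℝ) ^ (1 - ε / 4) := by
    calc (U : ℝ) ^ 2 * Q ^ 3 = Q * ((U : ℝ) ^ 2 * Q ^ 2) := by ring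
      _ ≤ Q * (N : ℝ) ^ (1 - ε / 4) := mul_le_mul_of_nonneg_left (e1.trans hmono) hQ0.le
  have f2 : (N : ℝ) ≤ Q * (2 * (N : ℝ) ^ (1 - ε / 4)) :=
    e2.trans (mul_le_mul_of_nonneg_left (by linarith) hQ0.le)
  have f3 : Q * (N : ℝ) / Real.sqrt U ≤ Q * (2 * (N : ℝ) ^ (1 - ε / 4)) := by
    rw [mul_div_assoc]
    exact mul_le_mul_of_nonneg_left e3 hQ0.le
  have f4 : (Q : ℝ) ^ 2 * Real.sqrt N ≤ Q * (N : ℝ) ^ (1 - ε / 4) := by
    calc (Q : ℝ) ^ 2 * Real.sqrt N = Q * (Q * Real.sqrt N) := by ring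
      _ ≤ Q * (N : ℝ) ^ (1 - ε / 4) := mul_le_mul_of_nonneg_left (e4.trans hmono) hQ0.le
  calc _ ≤ Q * (N : ℝ) ^ (1 - ε / 4) + Q * (2 * (N : ℝ) ^ (1 - ε / 4)) +
        Q * (2 * (N : ℝ) ^ (1 - ε / 4)) + Q * (N : ℝ) ^ (1 - ε / 4) := by linarith
    _ = Q * (6 * (N : ℝ) ^ (1 - ε / 4)) := by ring

/-- Largeness: powers of the logarithm are smaller than small powers. -/
private theorem bvb_large (K ε : ℝ) (hε : 0 < ε) : ∃ N₀ : ℕ, ∀ N : ℕ, N₀ ≤ N →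
    K * (1 + Real.log N) ^ 8 ≤ (N : ℝ) ^ (ε / 8) := by
  have hδ : 0 < ε / 128 := by positivity
  have ht := (tendsto_rpow_atTop (show 0 < ε / 16 by positivity)).comp
    (tendsto_natCast_atTop_atTop (R := ℝ))
  have h1 := (ht.eventually_ge_atTop (|K| * (1 + 1 / (ε / 128)) ^ 8)).and
    (Filter.eventually_ge_atTop 1)
  obtain ⟨N₀, hN₀⟩ := Filter.eventually_atTop.mp h1
  refine ⟨N₀, fun N hN => ?_⟩
  obtain ⟨h2, h3⟩ := hN₀ N hN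
  have hN1 : (1 : ℝ) ≤ N := by exact_mod_cast h3
  have hN0 : (0 : ℝ) < N := by linarith
  have hlog0 : 0 ≤ Real.log N := Real.log_nonneg hN1
  have h4 : Real.log N ≤ (N : ℝ) ^ (ε / 128) / (ε / 128) := Real.log_le_rpow_div hN0.le hδ
  have h5 : (1 : ℝ) ≤ (N : ℝ) ^ (ε / 128) := Real.one_le_rpow hN1 hδ.le
  have h6 : 1 + Real.log N ≤ (1 + 1 / (ε / 128)) * (N : ℝ) ^ (ε / 128) := by
    rw [add_mul, one_mul, one_div, inv_mul_eq_div]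
    linarith
  have h7 : (1 + Real.log N) ^ 8 ≤ ((1 + 1 / (ε / 128)) * (N : ℝ) ^ (ε / 128)) ^ 8 :=
    pow_le_pow_left₀ (by linarith) h6 8
  have h8 : ((N : ℝ) ^ (ε / 128)) ^ 8 = (N : ℝ) ^ (ε / 16) := by
    rw [← Real.rpow_natCast, ← Real.rpow_mul hN0.le]
    congr 1
    push_cast
    ring
  have h9 : (N : ℝ) ^ (ε / 16) * (N : ℝ) ^ (ε / 16) = (N : ℝ) ^ (ε / 8) := by
    rw [← Real.rpow_add hN0]
    congr 1
    ring
  have h2' : |K| * (1 + 1 / (ε / 128)) ^ 8 ≤ (N : ℝ) ^ (ε / 16) := h2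
  have h10 : (0 : ℝ) ≤ (N : ℝ) ^ (ε / 16) := by positivity
  calc K * (1 + Real.log N) ^ 8 ≤ |K| * (1 + Real.log N) ^ 8 :=
        mul_le_mul_of_nonneg_right (le_abs_self K) (by positivity)
    _ ≤ |K| * ((1 + 1 / (ε / 128)) * (N : ℝ) ^ (ε / 128)) ^ 8 :=
        mul_le_mul_of_nonneg_left h7 (abs_nonneg K)
    _ = (|K| * (1 + 1 / (ε / 128)) ^ 8) * (N : ℝ) ^ (ε / 16) := by
        rw [mul_pow, h8]
        ring
    _ ≤ (N : ℝ) ^ (ε / 16) * (N : ℝ) ^ (ε / 16) := mul_le_mul_of_nonneg_right h2' h10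
    _ = (N : ℝ) ^ (ε / 8) := h9

private theorem bvb_log2 (N : ℕ) (hN : 1 ≤ N) : ((Nat.log 2 N + 1 : ℕ) : ℝ) ≤ 2 * (1 + Real.log N) := by
  have hN1 : (1 : ℝ) ≤ N := by exact_mod_cast hN
  have hN0 : (0 : ℝ) < N := by linarith
  have h1 : (2 : ℝ) ^ Nat.log 2 N ≤ N := by exact_mod_cast Nat.pow_log_le_self 2 (by omega : N ≠ 0)
  have h2 : (Nat.log 2 N : ℝ) * Real.log 2 ≤ Real.log N := by
    rw [← Real.log_pow]
    exact Real.log_le_log (by positivity) h1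
  have h3 : (0.6931471803 : ℝ) < Real.log 2 := Real.log_two_gt_d9
  have h4 : (0 : ℝ) ≤ (Nat.log 2 N : ℝ) := by positivity
  push_cast
  nlinarith

/-- The sum over all prime moduli in `(N^ε, N^(1/2-ε)]`. PROOF. `U = ⌊N^(ε/2)⌋`, dyadic blocks `Q = 2^j ⌊N^ε⌋`,
weight `log ℓ / (ℓ - 1) ≤ 2 log N / Q` on the block: the terms are `U² Q² ≤ N^(1-ε)`, `N / Q ≤ N^(1-ε)`,
`N / sqrt U ≤ 2 N^(1-ε/4)`, `Q sqrt N ≤ N^(1-ε)`, times powers of `log N`. For a prime `ℓ` every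
`χ ≠ 1` is primitive. -/
theorem bv_sum (M : ℕ) (hM : 1 ≤ M) (ε : ℝ) (hε : 0 < ε) (hε1 : ε ≤ 1 / 8) :
    ∃ N₀ : ℕ, ∀ N : ℕ, N₀ ≤ N →
      ∑ l ∈ (Icc 1 N).filter (fun l : ℕ => l.Prime ∧ (N : ℝ) ^ ε < l ∧ (l : ℝ) ≤ (N : ℝ) ^ (1 / 2 - ε)),
        Real.log l / (l - 1) *
          ∑ x ∈ (Pool.Agent.Lib.MP_629a14_nt.Th.prims l).filter (fun x => x.1 = l), ‖chiS M N x.2‖ ≤
        (N : ℝ) ^ (1 - ε / 8) := by
  classical
  obtain ⟨C, hC1, hC⟩ := bv_block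
  obtain ⟨N₁, hN₁⟩ := bvb_large (12 * C * M) ε hε
  have ht := (tendsto_rpow_atTop hε).comp (tendsto_natCast_atTop_atTop (R := ℝ))
  obtain ⟨N₂, hN₂⟩ := Filter.eventually_atTop.mp (ht.eventually_ge_atTop (M : ℝ))
  refine ⟨max (max N₁ N₂) 2, fun N hN => ?_⟩
  have h2N : 2 ≤ N := (le_max_right _ _).trans hN
  have hL := hN₁ N ((le_max_left _ _).trans ((le_max_left _ _).trans hN))
  have hMN : (M : ℝ) ≤ (N : ℝ) ^ ε :=
    hN₂ N ((le_max_right _ _).trans ((le_max_left _ _).trans hN))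
  have hN1 : (1 : ℝ) ≤ N := by exact_mod_cast (by omega : 1 ≤ N)
  have hN0 : (0 : ℝ) < N := by linarith
  have hlog0 : 0 ≤ Real.log N := Real.log_nonneg hN1
  -- the parameters
  set U : ℕ := ⌊(N : ℝ) ^ (ε / 2)⌋₊ with hU
  set Q₀ : ℕ := ⌊(N : ℝ) ^ ε⌋₊ with hQ₀
  have hone : ∀ t : ℝ, 0 ≤ t → (1 : ℝ) ≤ (N : ℝ) ^ t := fun t ht => Real.one_le_rpow hN1 ht
  have hfl : ∀ t : ℝ, 1 ≤ t → t / 2 ≤ ⌊t⌋₊ := by
    intro t ht
    have h1 : (1 : ℝ) ≤ (⌊t⌋₊ : ℝ) := by exact_mod_cast Nat.floor_pos.mpr ht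
    have h2 := Nat.lt_floor_add_one t
    linarith
  have hU1 : (U : ℝ) ≤ (N : ℝ) ^ (ε / 2) := Nat.floor_le (by positivity)
  have hU2 : (N : ℝ) ^ (ε / 2) / 2 ≤ U := hfl _ (hone _ (by positivity))
  have hUpos : 1 ≤ U := Nat.floor_pos.mpr (hone _ (by positivity))
  have hUN : U ≤ N := by
    have h1 : (N : ℝ) ^ (ε / 2) ≤ (N : ℝ) ^ (1 : ℝ) :=
      Real.rpow_le_rpow_of_exponent_le hN1 (by linarith)
    rw [Real.rpow_one] at h1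
    exact_mod_cast hU1.trans h1
  have hQ₀1 : (Q₀ : ℝ) ≤ (N : ℝ) ^ ε := Nat.floor_le (by positivity)
  have hQ₀2 : (N : ℝ) ^ ε / 2 ≤ Q₀ := hfl _ (hone _ hε.le)
  have hQ₀pos : 1 ≤ Q₀ := Nat.floor_pos.mpr (hone _ hε.le)
  have hMQ₀ : M ≤ Q₀ := Nat.le_floor hMN
  -- the terms
  set A := (Icc 1 N).filter
    (fun l : ℕ => l.Prime ∧ (N : ℝ) ^ ε < l ∧ (l : ℝ) ≤ (N : ℝ) ^ (1 / 2 - ε)) with hA
  set T : ℕ → ℝ := fun l => ∑ x ∈ (Pool.Agent.Lib.MP_629a14_nt.Th.prims l).filter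
    (fun x => x.1 = l), ‖chiS M N x.2‖ with hT
  have hT0 : ∀ l, 0 ≤ T l := fun l => sum_nonneg fun x _ => norm_nonneg _
  set J := Nat.log 2 N + 1 with hJ
  set R : ℝ := C * M * (1 + Real.log N) ^ 7 * (6 * (N : ℝ) ^ (1 - ε / 4)) with hR
  have hR0 : 0 ≤ R := by
    have : (0 : ℝ) ≤ M := by positivity
    have : (0 : ℝ) ≤ C := by linarith
    positivity
  have hw0 : ∀ l ∈ A, 0 ≤ Real.log l / ((l : ℝ) - 1) := by
    intro l hl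
    rw [hA, mem_filter] at hl
    have h1 : (1 : ℝ) ≤ l := by exact_mod_cast hl.2.1.one_lt.le
    exact div_nonneg (Real.log_nonneg h1) (by linarith)
  -- one block
  have hblock : ∀ j, ∑ l ∈ A.filter (fun l => 2 ^ j * Q₀ < l ∧ l ≤ 2 * (2 ^ j * Q₀)),
      Real.log l / ((l : ℝ) - 1) * T l ≤ R := by
    intro j
    set Q := 2 ^ j * Q₀ with hQ
    have hQQ : Q₀ ≤ Q := Nat.le_mul_of_pos_left _ (by positivity)
    rcases (A.filter (fun l => Q < l ∧ l ≤ 2 * Q)).eq_empty_or_nonempty with he | ⟨l₀, hl₀⟩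
    · rw [he, sum_empty]
      exact hR0
    · have hQ1 : (Q : ℝ) ≤ (N : ℝ) ^ (1 / 2 - ε) := by
        rw [mem_filter, hA, mem_filter] at hl₀
        have h1 : (Q : ℝ) ≤ l₀ := by exact_mod_cast hl₀.2.1.le
        exact h1.trans hl₀.1.2.2.2
      have hQ2 : (N : ℝ) ^ ε / 2 ≤ Q := hQ₀2.trans (by exact_mod_cast hQQ)
      have hQpos : (0 : ℝ) < Q := by exact_mod_cast (by omega : 0 < Q)
      have h1 : ∀ l ∈ A.filter (fun l => Q < l ∧ l ≤ 2 * Q),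
          Real.log l / ((l : ℝ) - 1) * T l ≤ Real.log N / Q * T l := by
        intro l hl
        rw [mem_filter, hA, mem_filter, mem_Icc] at hl
        have hl1 : (Q : ℝ) + 1 ≤ l := by exact_mod_cast hl.2.1
        have hlN : (l : ℝ) ≤ N := by exact_mod_cast hl.1.1.2
        refine mul_le_mul_of_nonneg_right ?_ (hT0 l)
        refine div_le_div₀ hlog0 (Real.log_le_log (by linarith) hlN) hQpos (by linarith)
      have h2 := bvb_fiber (A.filter (fun l => Q < l ∧ l ≤ 2 * Q)) Q (by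
        intro l hl
        rw [mem_filter, hA, mem_filter] at hl
        exact ⟨hl.1.2.1, hl.2⟩) (fun x => ‖chiS M N x.2‖) (fun x => norm_nonneg _)
      have h3 := hC M N U Q hM h2N hUpos hUN (hMQ₀.trans hQQ)
      have h4 := bvb_bracket (N := N) (U := U) (Q := Q) (by omega) hε hU1 hU2 hQ1 hQ2
      have hCM : 0 ≤ C * M * (1 + Real.log N) ^ 6 := by
        have : (0 : ℝ) ≤ M := by positivity
        have : (0 : ℝ) ≤ C := by linarith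
        positivity
      have h5 : ∑ l ∈ A.filter (fun l => Q < l ∧ l ≤ 2 * Q), T l ≤
          C * M * (1 + Real.log N) ^ 6 * (Q * (6 * (N : ℝ) ^ (1 - ε / 4))) :=
        h2.trans (h3.trans (mul_le_mul_of_nonneg_left h4 hCM))
      calc _ ≤ ∑ l ∈ A.filter (fun l => Q < l ∧ l ≤ 2 * Q), Real.log N / Q * T l := sum_le_sum h1
        _ = Real.log N / Q * ∑ l ∈ A.filter (fun l => Q < l ∧ l ≤ 2 * Q), T l := by
            rw [mul_sum]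
        _ ≤ Real.log N / Q *
            (C * M * (1 + Real.log N) ^ 6 * (Q * (6 * (N : ℝ) ^ (1 - ε / 4)))) :=
            mul_le_mul_of_nonneg_left h5 (by positivity)
        _ = Real.log N * (C * M * (1 + Real.log N) ^ 6 * (6 * (N : ℝ) ^ (1 - ε / 4))) := by
            field_simp
        _ ≤ (1 + Real.log N) * (C * M * (1 + Real.log N) ^ 6 * (6 * (N : ℝ) ^ (1 - ε / 4))) :=
            mul_le_mul_of_nonneg_right (by linarith) (by positivity)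
        _ = R := by
            rw [hR]
            ring
  -- the sum over the blocks
  have hsum : ∑ l ∈ A, Real.log l / ((l : ℝ) - 1) * T l ≤ ∑ j ∈ range J,
      ∑ l ∈ A.filter (fun l => 2 ^ j * Q₀ < l ∧ l ≤ 2 * (2 ^ j * Q₀)),
        Real.log l / ((l : ℝ) - 1) * T l := by
    simp_rw [sum_filter]
    rw [sum_comm]
    refine sum_le_sum fun l hl => ?_
    have hl' := hl
    rw [hA, mem_filter, mem_Icc] at hl'
    have hQl : Q₀ < l := by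
      have : (Q₀ : ℝ) < l := hQ₀1.trans_lt hl'.2.2.1
      exact_mod_cast this
    obtain ⟨j, hj1, hj2, hj3⟩ := bvb_dyadic hQ₀pos hQl
    have hjJ : j ∈ range J := by
      rw [mem_range, hJ]
      have := Nat.log_mono_right (b := 2) hl'.1.2
      omega
    have h0 : 0 ≤ Real.log l / ((l : ℝ) - 1) * T l := mul_nonneg (hw0 l hl) (hT0 l)
    have h1 := single_le_sum (f := fun j => if 2 ^ j * Q₀ < l ∧ l ≤ 2 * (2 ^ j * Q₀) then
      Real.log l / ((l : ℝ) - 1) * T l else 0) (fun i _ => by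
        show 0 ≤ (if 2 ^ i * Q₀ < l ∧ l ≤ 2 * (2 ^ i * Q₀) then
          Real.log l / ((l : ℝ) - 1) * T l else 0)
        split_ifs
        · exact h0
        · exact le_refl _) hjJ
    refine le_trans ?_ h1
    show _ ≤ (if 2 ^ j * Q₀ < l ∧ l ≤ 2 * (2 ^ j * Q₀) then
      Real.log l / ((l : ℝ) - 1) * T l else 0)
    rw [if_pos ⟨hj1, hj2⟩]
  have hJ2 : (J : ℝ) ≤ 2 * (1 + Real.log N) := bvb_log2 N (by omega)
  have hfin : (N : ℝ) ^ (ε / 8) * (N : ℝ) ^ (1 - ε / 4) = (N : ℝ) ^ (1 - ε / 8) := by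
    rw [← Real.rpow_add hN0]
    congr 1
    ring
  calc _ ≤ ∑ j ∈ range J, ∑ l ∈ A.filter (fun l => 2 ^ j * Q₀ < l ∧ l ≤ 2 * (2 ^ j * Q₀)),
        Real.log l / ((l : ℝ) - 1) * T l := hsum
    _ ≤ ∑ j ∈ range J, R := sum_le_sum fun j _ => hblock j
    _ = J * R := by rw [sum_const, card_range, nsmul_eq_mul]
    _ ≤ 2 * (1 + Real.log N) * R := mul_le_mul_of_nonneg_right hJ2 hR0
    _ = 12 * C * M * (1 + Real.log N) ^ 8 * (N : ℝ) ^ (1 - ε / 4) := by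
        rw [hR]
        ring
    _ ≤ (N : ℝ) ^ (ε / 8) * (N : ℝ) ^ (1 - ε / 4) :=
        mul_le_mul_of_nonneg_right hL (by positivity)
    _ = (N : ℝ) ^ (1 - ε / 8) := hfin

end Pool.Agent.Lib.MP_a9e8ee_lc.EW
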