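import Mathlib
import Pool.Agent.Lib.MP_a9e8ee_lc.EW.Defs

/-!
# Orthogonality
-/

set_option autoImplicit false

open Finset

namespace Pool.Agent.Lib.MP_a9e8ee_lc.EW

/-- A prime `r` with `l ∣ r - 1` is `1` in `ZMod l`. -/
theorem bvc_cast_eq_one {r l : ℕ} (hr : r.Prime) (h : l ∣ r - 1) : ((r : ℕ) : ZMod l) = 1 := by
  have h1 : ((r - 1 : ℕ) : ZMod l) = 0 := (ZMod.natCast_eq_zero_iff _ _).mpr h
  rw [Nat.cast_sub hr.one_lt.le, Nat.cast_one, sub_eq_zero] at h1
  exact h1

/-- Orthogonality for the sums `chiS`. -/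
theorem bvc_sum_chiS (M N : ℕ) {l : ℕ} [NeZero l] :
    ∑ χ : DirichletCharacter ℂ l, chiS M N χ =
      (l.totient : ℂ) * ((∑ m ∈ (Icc 1 N).filter (fun m => m ≡ 1 [MOD M]),
        (if (m : ZMod l) = 1 then ArithmeticFunction.vonMangoldt m else 0) : ℝ) : ℂ) := by
  unfold chiS
  rw [Finset.sum_comm, Complex.ofReal_sum, Finset.mul_sum]
  refine Finset.sum_congr rfl fun m _ => ?_
  rw [← Finset.mul_sum, DirichletCharacter.sum_characters_eq]
  split_ifs with h
  · ring
  · simp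

/-- PROOF. Orthogonality: for a prime `l` not dividing `M`, `∑ Λ m` over `m ≤ N`, `m ≡ 1` modulo `M` and modulo
`l` is `1/(l-1) ∑ χ, chiS χ`; the principal character gives at most `∑ Λ m` over `m ≡ 1` modulo `M`, the others are
primitive; the primes are a part of the prime powers. -/
theorem AA_le {M l : ℕ} (hM : 1 ≤ M) (hl : l.Prime) (hlM : ¬ l ∣ M) (N : ℕ) :
    AA M N l ≤ 1 / ((l : ℝ) - 1) *
      ((∑ m ∈ (Icc 1 N).filter (fun m => m ≡ 1 [MOD M]), ArithmeticFunction.vonMangoldt m) +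
        ∑ x ∈ (Pool.Agent.Lib.MP_629a14_nt.Th.prims l).filter (fun x => x.1 = l),
          ‖chiS M N x.2‖) := by
  classical
  haveI : NeZero l := ⟨hl.ne_zero⟩
  have hl1 : (0 : ℝ) < (l : ℝ) - 1 := by
    have : (1 : ℝ) < l := by exact_mod_cast hl.one_lt
    linarith
  have hΛ : ∀ m : ℕ, (0 : ℝ) ≤ ArithmeticFunction.vonMangoldt m := fun m =>
    ArithmeticFunction.vonMangoldt_nonneg
  have hSnn : 0 ≤ ∑ m ∈ (Icc 1 N).filter (fun m => m ≡ 1 [MOD M]),
      (if (m : ZMod l) = 1 then ArithmeticFunction.vonMangoldt m else 0) :=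
    Finset.sum_nonneg fun m _ => by
      split_ifs
      · exact hΛ m
      · exact le_refl _
  -- the primes are a part of the prime powers
  have h1 : AA M N l ≤ ∑ m ∈ (Icc 1 N).filter (fun m => m ≡ 1 [MOD M]),
      (if (m : ZMod l) = 1 then ArithmeticFunction.vonMangoldt m else 0) := by
    unfold AA
    rw [← Finset.sum_filter, Finset.filter_filter]
    have h2 : ∑ r ∈ (Icc 1 N).filter (fun r => r.Prime ∧ r ≡ 1 [MOD M] ∧ l ∣ r - 1), Real.log r =
        ∑ r ∈ (Icc 1 N).filter (fun r => r.Prime ∧ r ≡ 1 [MOD M] ∧ l ∣ r - 1),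
          ArithmeticFunction.vonMangoldt r := by
      refine Finset.sum_congr rfl fun r hr => ?_
      rw [Finset.mem_filter] at hr
      rw [ArithmeticFunction.vonMangoldt_apply_prime hr.2.1]
    rw [h2]
    refine Finset.sum_le_sum_of_subset_of_nonneg ?_ fun m _ _ => hΛ m
    intro r hr
    rw [Finset.mem_filter] at hr ⊢
    exact ⟨hr.1, hr.2.2.1, bvc_cast_eq_one hr.2.1 hr.2.2.2⟩
  refine h1.trans ?_
  rw [one_div, ← div_eq_inv_mul, le_div_iff₀ hl1]
  -- the norm of the sum over all characters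
  have h3 : (∑ m ∈ (Icc 1 N).filter (fun m => m ≡ 1 [MOD M]),
      (if (m : ZMod l) = 1 then ArithmeticFunction.vonMangoldt m else 0)) * ((l : ℝ) - 1) =
      ‖∑ χ : DirichletCharacter ℂ l, chiS M N χ‖ := by
    rw [bvc_sum_chiS, norm_mul, Complex.norm_real, Real.norm_of_nonneg hSnn, Complex.norm_natCast,
      Nat.totient_prime hl, Nat.cast_sub hl.one_lt.le, Nat.cast_one, mul_comm]
  rw [h3]
  refine (norm_sum_le _ _).trans ?_
  rw [← Finset.add_sum_erase Finset.univ _ (Finset.mem_univ (1 : DirichletCharacter ℂ l))]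
  refine add_le_add ?_ ?_
  · -- the principal character
    unfold chiS
    refine (norm_sum_le _ _).trans (Finset.sum_le_sum fun m _ => ?_)
    rw [norm_mul, Complex.norm_real, Real.norm_of_nonneg (hΛ m)]
    exact mul_le_of_le_one_right (hΛ m) (DirichletCharacter.norm_le_one _ _)
  · -- the other characters are primitive
    have hinj : Function.Injective
        (fun χ : DirichletCharacter ℂ l => (⟨l, χ⟩ : Pool.Agent.Lib.MP_629a14_nt.Th.CH)) := by
      intro χ χ' h
      simpa using h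
    have h4 : ∑ χ ∈ (Finset.univ : Finset (DirichletCharacter ℂ l)).erase 1, ‖chiS M N χ‖ =
        ∑ x ∈ ((Finset.univ : Finset (DirichletCharacter ℂ l)).erase 1).map ⟨_, hinj⟩,
          ‖chiS M N x.2‖ := by
      rw [Finset.sum_map]
      rfl
    rw [h4]
    refine Finset.sum_le_sum_of_subset_of_nonneg ?_ fun x _ _ => norm_nonneg _
    intro x hx
    rw [Finset.mem_map] at hx
    obtain ⟨χ, hχ, rfl⟩ := hx
    rw [Finset.mem_erase] at hχ
    rw [Finset.mem_filter]
    refine ⟨?_, rfl⟩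
    unfold Pool.Agent.Lib.MP_629a14_nt.Th.prims
    rw [Finset.mem_sigma]
    refine ⟨Finset.mem_Icc.mpr ⟨hl.one_lt.le, le_refl _⟩, ?_⟩
    change χ ∈ Pool.Agent.Lib.MP_629a14_nt.Th.PR l
    unfold Pool.Agent.Lib.MP_629a14_nt.Th.PR
    rw [dif_neg hl.ne_zero, Finset.mem_filter]
    refine ⟨Finset.mem_univ _, ?_⟩
    rw [DirichletCharacter.isPrimitive_def]
    rcases (Nat.dvd_prime hl).mp χ.conductor_dvd_level with h5 | h5
    · exact absurd (DirichletCharacter.eq_one_iff_conductor_eq_one.mpr h5) hχ.1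
    · exact h5

end Pool.Agent.Lib.MP_a9e8ee_lc.EW
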