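import Mathlib
import Pool.Agent.Lib.MP_a9e8ee_lc.EW.Defs

/-!
# Erdos-Woods numbers: the elementary part
-/

set_option autoImplicit false

open Finset

namespace Pool.Agent.Lib.MP_a9e8ee_lc.EW

/-- PROOF. `d = q + r`, `q ≥ 3`, so `q * q > d`, `q * r > d`, `r * r > d`. By the Chinese remainder
theorem choose `a` with `a ≡ 0` modulo all the primes `≤ d` different from `q` and `r` and
`a + d ≡ 0` modulo `q` and `r`. Let `a < c < a + d`, `s = c - a`, `0 < s < d`. If `s` has a prime
factor `p` other than `q`, `r` then `p ∣ a` and `p ∣ c`. Otherwise `s = 1`, `s = q` or `s = r`, and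
`a + d - c = d - s` is `q + r - 1` (divisible by `q`), `r` or `q`: it has a common prime factor with
`a + d`. -/
theorem two_prime {q r : ℕ} (hq : q.Prime) (hr : r.Prime) (hqr : q < r) (hdvd : q ∣ r - 1)
    (h : q + r < q * q) : q + r ∈ ES := by
  have hq2 : 2 ≤ q := hq.two_le
  have hq3 : 3 ≤ q := by
    rcases Nat.lt_or_ge q 3 with h3 | h3
    · have : q = 2 := by omega
      subst this
      omega
    · exact h3
  have hr1 : 1 ≤ r := hr.one_lt.le
  set P : ℕ := ∏ p ∈ (Finset.range (q + r)).filter (fun p => p.Prime ∧ p ≠ q ∧ p ≠ r), p with hP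
  have hcop : Nat.Coprime P (q * r) := by
    rw [hP]
    refine Nat.Coprime.prod_left fun p hp => ?_
    rw [Finset.mem_filter] at hp
    obtain ⟨-, hpp, hpq, hpr⟩ := hp
    exact Nat.Coprime.mul_right ((Nat.coprime_primes hpp hq).2 hpq)
      ((Nat.coprime_primes hpp hr).2 hpr)
  obtain ⟨a, ha1, ha2⟩ := Nat.chineseRemainder hcop 0 ((q + r) * (q * r - 1))
  have hPa : P ∣ a := (Nat.modEq_zero_iff_dvd).1 ha1
  have hqr1 : 1 ≤ q * r := Nat.mul_pos hq.pos hr.pos
  have hqra : q * r ∣ a + (q + r) := by
    have h1 : a + (q + r) ≡ (q + r) * (q * r - 1) + (q + r) [MOD q * r] := ha2.add_right _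
    have h2 : (q + r) * (q * r - 1) + (q + r) = (q + r) * (q * r) := by
      obtain ⟨m, hm⟩ := Nat.exists_eq_add_of_le hqr1
      rw [hm, Nat.add_sub_cancel_left]
      ring
    rw [h2] at h1
    exact (Nat.modEq_zero_iff_dvd).1 (h1.trans ((Nat.modEq_zero_iff_dvd).2 (dvd_mul_left _ _)))
  have hqa : q ∣ a + (q + r) := (dvd_mul_right q r).trans hqra
  have hra : r ∣ a + (q + r) := (dvd_mul_left r q).trans hqra
  have key : ∀ {p m n : ℕ}, p.Prime → 0 < m → p ∣ m → p ∣ n → 1 < Nat.gcd m n := by
    intro p m n hp hm h1 h2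
    exact hp.one_lt.trans_le (Nat.le_of_dvd (Nat.gcd_pos_of_pos_left _ hm) (Nat.dvd_gcd h1 h2))
  refine ⟨by omega, a, ?_⟩
  intro c hc1 hc2
  obtain ⟨s, rfl⟩ := Nat.exists_eq_add_of_lt hc1
  have hs : s + 1 < q + r := by omega
  have hpos : 0 < a + s + 1 := by omega
  by_cases hex : ∃ p, p.Prime ∧ p ∣ s + 1 ∧ p ≠ q ∧ p ≠ r
  · obtain ⟨p, hp, hps, hpq, hpr⟩ := hex
    left
    have hpP : p ∣ P := by
      rw [hP]
      refine Finset.dvd_prod_of_mem (fun p => p) ?_
      rw [Finset.mem_filter, Finset.mem_range]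
      exact ⟨lt_of_le_of_lt (Nat.le_of_dvd (by omega) hps) hs, hp, hpq, hpr⟩
    have hpa : p ∣ a := hpP.trans hPa
    refine key hp hpos ?_ hpa
    rw [Nat.add_assoc]
    exact Nat.dvd_add hpa hps
  · right
    have hall : ∀ p, p.Prime → p ∣ s + 1 → p = q ∨ p = r := by
      intro p hp hps
      by_contra hcon
      rw [not_or] at hcon
      exact hex ⟨p, hp, hps, hcon.1, hcon.2⟩
    have h3 : s + 1 = 1 ∨ s + 1 = q ∨ s + 1 = r := by
      by_cases h1 : s + 1 = 1
      · exact Or.inl h1
      · right
        have hp := Nat.minFac_prime h1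
        obtain ⟨k, hk⟩ := Nat.minFac_dvd (s + 1)
        have hpqr := hall _ hp (Nat.minFac_dvd (s + 1))
        by_cases hk1 : k = 1
        · rw [hk1, mul_one] at hk
          rw [← hk] at hpqr
          exact hpqr
        · exfalso
          have hp' := Nat.minFac_prime hk1
          have hk' := Nat.minFac_dvd k
          have hpqr' := hall _ hp' (hk'.trans ⟨(s + 1).minFac, by rw [mul_comm]; exact hk⟩)
          have hk0 : 0 < k := by
            rcases Nat.eq_zero_or_pos k with h0 | h0
            · rw [h0, mul_zero] at hk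
              omega
            · exact h0
          have h4 : k.minFac ≤ k := Nat.le_of_dvd hk0 hk'
          have h5 : q ≤ (s + 1).minFac := by
            rcases hpqr with h6 | h6
            · exact h6.ge
            · rw [h6]; exact hqr.le
          have h6 : q ≤ k.minFac := by
            rcases hpqr' with h6 | h6
            · exact h6.ge
            · rw [h6]; exact hqr.le
          have h7 : q * q ≤ s + 1 := by
            rw [hk]
            exact Nat.mul_le_mul h5 (h6.trans h4)
          omega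
    rcases h3 with h3 | h3 | h3
    · refine key hq hpos ?_ hqa
      have h4 : a + s + 1 + (q + (r - 1)) = a + (q + r) := by omega
      rw [← h4] at hqa
      exact (Nat.dvd_add_left (Nat.dvd_add (dvd_refl q) hdvd)).1 hqa
    · refine key hr hpos ?_ hra
      have h4 : a + s + 1 + r = a + (q + r) := by omega
      rw [← h4] at hra
      exact (Nat.dvd_add_left (dvd_refl r)).1 hra
    · refine key hq hpos ?_ hqa
      have h4 : a + s + 1 + q = a + (q + r) := by omega
      rw [← h4] at hqa
      exact (Nat.dvd_add_left (dvd_refl q)).1 hqa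

/-- PROOF. Let `p = d - 1` be prime and `NC a d`. `c = a + 1` is coprime to `a`, so it has a common
prime factor with `a + d`, which divides `(a + d) - (a + 1) = p`, so `p ∣ a + 1`. `c = a + d - 1` is
coprime to `a + d`, so `p ∣ a` in the same way. Contradiction. (`d ≥ 3`: both `c` are inside.) -/
theorem notMem_of_prime {d : ℕ} (hd : 3 ≤ d) (hp : (d - 1).Prime) : d ∉ ES := by
  rintro ⟨-, a, ha⟩
  have h1 : d - 1 ∣ a + 1 := by
    rcases ha (a + 1) (by omega) (by omega) with h | h
    · exfalso
      have : Nat.gcd (a + 1) a = 1 := by simp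
      omega
    · have h2 : Nat.gcd (a + 1) (a + d) ∣ d - 1 := by
        have h3 := Nat.dvd_sub (Nat.gcd_dvd_right (a + 1) (a + d)) (Nat.gcd_dvd_left (a + 1) (a + d))
        have h4 : a + d - (a + 1) = d - 1 := by omega
        rwa [h4] at h3
      rcases (Nat.dvd_prime hp).1 h2 with h3 | h3
      · omega
      · rw [← h3]
        exact Nat.gcd_dvd_left _ _
  have h2 : d - 1 ∣ a := by
    rcases ha (a + (d - 1)) (by omega) (by omega) with h | h
    · have h2 : Nat.gcd (a + (d - 1)) a ∣ d - 1 := by
        have h3 := Nat.dvd_sub (Nat.gcd_dvd_left (a + (d - 1)) a) (Nat.gcd_dvd_right (a + (d - 1)) a)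
        have h4 : a + (d - 1) - a = d - 1 := by omega
        rwa [h4] at h3
      rcases (Nat.dvd_prime hp).1 h2 with h3 | h3
      · omega
      · rw [← h3]
        exact Nat.gcd_dvd_right _ _
    · exfalso
      have h5 : a + d = (a + (d - 1)) + 1 := by omega
      rw [h5] at h
      have : Nat.gcd (a + (d - 1)) (a + (d - 1) + 1) = 1 := by simp
      omega
  have h3 : d - 1 ∣ 1 := (Nat.dvd_add_right h2).1 h1
  exact hp.one_lt.ne' (Nat.dvd_one.1 h3)


end Pool.Agent.Lib.MP_a9e8ee_lc.EW
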