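import Mathlib
import Pool.Agent.Lib.MP_a9e8ee_lc.EW.Defs
import Pool.Agent.Lib.MP_629a14_nt.Rob.PiAP

/-!
# The full sum
-/

set_option autoImplicit false

open Finset

namespace Pool.Agent.Lib.MP_a9e8ee_lc.EW

/-- `∑ log r log (r - 1)` over the primes `r ≤ N`, `r ≡ 1` modulo `M`, as a sum over divisors. PROOF.
`log (r - 1) = ∑ n ∣ r - 1, Λ n` (`vonMangoldt_sum`). -/
theorem T_eq (M N : ℕ) :
    ∑ r ∈ (Icc 1 N).filter (fun r => r.Prime ∧ r ≡ 1 [MOD M]), Real.log r * Real.log ((r - 1 : ℕ) : ℝ) =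
      ∑ n ∈ Icc 1 N, ArithmeticFunction.vonMangoldt n * AA M N n := by
  have h1 : ∀ r ∈ (Icc 1 N).filter (fun r => r.Prime ∧ r ≡ 1 [MOD M]),
      Real.log r * Real.log ((r - 1 : ℕ) : ℝ) =
        ∑ n ∈ Icc 1 N, if n ∣ r - 1 then ArithmeticFunction.vonMangoldt n * Real.log r else 0 := by
    intro r hr
    rw [mem_filter, mem_Icc] at hr
    have h2 : (r - 1).divisors = (Icc 1 N).filter (fun n => n ∣ r - 1) := by
      ext n
      have hr2 := hr.2.1.two_le
      rw [Nat.mem_divisors, mem_filter, mem_Icc]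
      constructor
      · rintro ⟨h3, -⟩
        have h4 := Nat.le_of_dvd (by omega) h3
        have h5 := Nat.pos_of_dvd_of_pos h3 (by omega)
        exact ⟨⟨h5, by omega⟩, h3⟩
      · rintro ⟨-, h3⟩
        exact ⟨h3, by omega⟩
    rw [← ArithmeticFunction.vonMangoldt_sum (n := r - 1), h2, sum_filter, mul_sum]
    refine sum_congr rfl fun n _ => ?_
    split_ifs
    · ring
    · ring
  rw [sum_congr rfl h1, sum_comm]
  refine sum_congr rfl fun n _ => ?_
  rw [AA, mul_sum, ← sum_filter, filter_filter]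
  refine sum_congr ?_ fun r _ => rfl
  ext r
  simp only [mem_filter]
  tauto

/-- PROOF. `theta_ap`/`psi_ap` (`Rob/PiAP.lean`): `∑ log r ~ N / φ(M)`; the `r ≤ N^(1-η)` contribute at most
`N^(1-η) log N ..` to `∑ log r`, for the others `log (r - 1) ≥ (1 - 2 η) log N`. -/
theorem T_lower (M : ℕ) (hM : 1 ≤ M) (η : ℝ) (hη : 0 < η) : ∃ N₀ : ℕ, ∀ N : ℕ, N₀ ≤ N →
    (1 / (M.totient : ℝ) - η) * N * Real.log N ≤
      ∑ r ∈ (Icc 1 N).filter (fun r => r.Prime ∧ r ≡ 1 [MOD M]),
        Real.log r * Real.log ((r - 1 : ℕ) : ℝ) := by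
  obtain ⟨κ, hκ⟩ : ∃ κ : ℝ, κ = min (η / 8) (1 / 2) := ⟨_, rfl⟩
  have hκ0 : 0 < κ := by
    rw [hκ]
    exact lt_min (by positivity) (by norm_num)
  have hκ1 : κ ≤ η / 8 := by rw [hκ]; exact min_le_left _ _
  have hκ2 : κ ≤ 1 / 2 := by rw [hκ]; exact min_le_right _ _
  have hth := MP_629a14_nt.Rob.PiAP.theta_ap M 1 hM (MP_629a14_nt.Rob.psi_ap M 1 hM
    (Nat.coprime_one_left M))
  obtain ⟨c, hc⟩ : ∃ c : ℝ, c = 1 / (M.totient : ℝ) := ⟨_, rfl⟩
  rw [← hc] at hth ⊢
  have hφ : (1 : ℝ) ≤ M.totient := by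
    have : 0 < M.totient := Nat.totient_pos.2 hM
    exact_mod_cast this
  have hc0 : 0 ≤ c := by rw [hc]; positivity
  have hc1 : c ≤ 1 := by
    rw [hc, div_le_one (by linarith)]
    exact hφ
  have e1 := hth.eventually (lt_mem_nhds (show c - η / 4 < c by linarith))
  have e2 := (MP_629a14_nt.Rob.PiAP.rpow_log κ hκ0).eventually
    (gt_mem_nhds (show (0 : ℝ) < η / 4 by positivity))
  have e3 : ∀ᶠ N : ℕ in Filter.atTop, Real.log 2 / κ ≤ Real.log N :=
    (Real.tendsto_log_atTop.comp tendsto_natCast_atTop_atTop).eventually_ge_atTop _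
  obtain ⟨N₀, hN₀⟩ := Filter.eventually_atTop.1 ((e1.and e2).and e3)
  refine ⟨max N₀ 2, fun N hN => ?_⟩
  obtain ⟨⟨h1, h2⟩, h3⟩ := hN₀ N ((le_max_left _ _).trans hN)
  have hN2 : 2 ≤ N := (le_max_right _ _).trans hN
  have hN0 : (0 : ℝ) < N := by exact_mod_cast (by omega : 0 < N)
  have hN1 : (1 : ℝ) ≤ N := by exact_mod_cast (by omega : 1 ≤ N)
  have hlog : 0 < Real.log N := Real.log_pos (by exact_mod_cast (by omega : 1 < N))
  set S := (Icc 1 N).filter (fun r => r.Prime ∧ r ≡ 1 [MOD M]) with hS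
  rw [lt_div_iff₀ hN0] at h1
  rw [div_lt_iff₀ hN0] at h2
  rw [div_le_iff₀ hκ0] at h3
  have hpt : ∀ r ∈ S, (1 - 2 * κ) * Real.log N * Real.log r -
      (if (r : ℝ) ≤ (N : ℝ) ^ (1 - κ) then Real.log N ^ 2 else 0) ≤
      Real.log r * Real.log ((r - 1 : ℕ) : ℝ) := by
    intro r hr
    rw [hS, mem_filter, mem_Icc] at hr
    have hr2 : 2 ≤ r := hr.2.1.two_le
    have hr1 : (2 : ℝ) ≤ r := by exact_mod_cast hr2
    have hlr : 0 ≤ Real.log r := Real.log_nonneg (by linarith)
    have hlrN : Real.log r ≤ Real.log N :=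
      Real.log_le_log (by linarith) (by exact_mod_cast hr.1.2)
    have hcast : ((r - 1 : ℕ) : ℝ) = (r : ℝ) - 1 := by
      rw [Nat.cast_sub (by omega), Nat.cast_one]
    have hl1 : 0 ≤ Real.log ((r - 1 : ℕ) : ℝ) := Real.log_natCast_nonneg _
    split_ifs with h
    · have h4 : (1 - 2 * κ) * Real.log N * Real.log r ≤ Real.log N ^ 2 := by
        have h5 : (1 - 2 * κ) * Real.log N ≤ 1 * Real.log N :=
          mul_le_mul_of_nonneg_right (by linarith) hlog.le
        calc (1 - 2 * κ) * Real.log N * Real.log r ≤ 1 * Real.log N * Real.log r :=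
              mul_le_mul_of_nonneg_right h5 hlr
          _ ≤ 1 * Real.log N * Real.log N := mul_le_mul_of_nonneg_left hlrN (by linarith)
          _ = Real.log N ^ 2 := by ring
      have h6 := mul_nonneg hlr hl1
      linarith
    · push Not at h
      have h4 : (1 - κ) * Real.log N ≤ Real.log r := by
        rw [← Real.log_rpow hN0]
        exact Real.log_le_log (by positivity) h.le
      have h5 : Real.log r - Real.log 2 ≤ Real.log ((r - 1 : ℕ) : ℝ) := by
        rw [← Real.log_div (by linarith) (by norm_num), hcast]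
        exact Real.log_le_log (by linarith) (by linarith)
      have h6 : (1 - 2 * κ) * Real.log N ≤ Real.log ((r - 1 : ℕ) : ℝ) := by linarith
      have h7 := mul_le_mul_of_nonneg_left h6 hlr
      linarith
  refine le_trans ?_ (sum_le_sum hpt)
  rw [sum_sub_distrib, ← mul_sum]
  have hcount : ∑ r ∈ S, (if (r : ℝ) ≤ (N : ℝ) ^ (1 - κ) then Real.log N ^ 2 else 0) ≤
      (N : ℝ) ^ (1 - κ) * Real.log N ^ 2 := by
    rw [← sum_filter, sum_const, nsmul_eq_mul]
    refine mul_le_mul_of_nonneg_right ?_ (by positivity)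
    refine le_trans ?_ (MP_629a14_nt.Rob.PiAP.card_le_real N ((N : ℝ) ^ (1 - κ)) (by positivity))
    exact_mod_cast card_le_card (filter_subset_filter _ (filter_subset _ _))
  have h4 : (N : ℝ) ^ (1 - κ) * Real.log N ^ 2 ≤ η / 4 * N * Real.log N := by
    have := mul_le_mul_of_nonneg_right h2.le hlog.le
    calc (N : ℝ) ^ (1 - κ) * Real.log N ^ 2 = (N : ℝ) ^ (1 - κ) * Real.log N * Real.log N := by ring
      _ ≤ _ := this
  have h5 : (1 - 2 * κ) * Real.log N * ((c - η / 4) * N) ≤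
      (1 - 2 * κ) * Real.log N * ∑ r ∈ S, Real.log r :=
    mul_le_mul_of_nonneg_left h1.le (mul_nonneg (by linarith) hlog.le)
  have h6 : (c - η) * N * Real.log N ≤ (1 - 2 * κ) * Real.log N * ((c - η / 4) * N) -
      η / 4 * N * Real.log N := by
    have h7 : (1 - 2 * κ) * Real.log N * ((c - η / 4) * N) - η / 4 * N * Real.log N =
        ((1 - 2 * κ) * (c - η / 4) - η / 4) * (N * Real.log N) := by ring
    have h8 : (c - η) * N * Real.log N = (c - η) * (N * Real.log N) := by ring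
    rw [h7, h8]
    refine mul_le_mul_of_nonneg_right ?_ (by positivity)
    have h9 : κ * c ≤ κ := by
      have := mul_le_mul_of_nonneg_left hc1 hκ0.le
      linarith
    have h10 : 0 ≤ κ * η := by positivity
    nlinarith
  linarith

end Pool.Agent.Lib.MP_a9e8ee_lc.EW
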