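import Mathlib
import Pool.Agent.Lib.MP_a9e8ee_lc.EW.Defs

/-!
# Sums over prime powers
-/

set_option autoImplicit false

open Finset

namespace Pool.Agent.Lib.MP_a9e8ee_lc.EW

section aux

open ArithmeticFunction

open scoped ArithmeticFunction.zeta

private theorem sm_psi (N : ℕ) : ∑ n ∈ Ioc 0 N, vonMangoldt n ≤ 6 * N := by
  have h1 := Chebyshev.psi_le_const_mul_self (x := (N : ℝ)) (Nat.cast_nonneg _)
  unfold Chebyshev.psi at h1
  rw [Nat.floor_natCast] at h1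
  refine h1.trans ?_
  apply mul_le_mul_of_nonneg_right _ (Nat.cast_nonneg _)
  have : Real.log 4 ≤ 2 := by
    have h2 : Real.log 4 = 2 * Real.log 2 := by
      rw [show (4 : ℝ) = 2 ^ 2 by norm_num, Real.log_pow]
      norm_num
    rw [h2]
    have := Real.log_two_lt_d9
    linarith
  linarith

private theorem sm_log (N : ℕ) :
    ∑ n ∈ Ioc 0 N, Real.log n = ∑ n ∈ Ioc 0 N, vonMangoldt n * ((N / n : ℕ) : ℝ) := by
  rw [← sum_Ioc_mul_zeta_eq_sum]
  refine Finset.sum_congr rfl fun n _ => ?_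
  rw [vonMangoldt_mul_zeta, log_apply]

/-- upper bound in Mertens' theorem -/
private theorem sm_up {N : ℕ} (hN : 1 ≤ N) :
    ∑ n ∈ Ioc 0 N, vonMangoldt n / n ≤ Real.log N + 6 := by
  have hN0 : (0 : ℝ) < N := by exact_mod_cast hN
  have h1 := sm_log N
  have h2 : ∑ n ∈ Ioc 0 N, Real.log n ≤ N * Real.log N := by
    refine (Finset.sum_le_card_nsmul _ _ (Real.log N) ?_).trans ?_
    · intro n hn
      rw [mem_Ioc] at hn
      exact Real.log_le_log (by exact_mod_cast hn.1) (by exact_mod_cast hn.2)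
    · simp
  have h3 : N * ∑ n ∈ Ioc 0 N, vonMangoldt n / n - ∑ n ∈ Ioc 0 N, vonMangoldt n ≤
      ∑ n ∈ Ioc 0 N, vonMangoldt n * ((N / n : ℕ) : ℝ) := by
    rw [Finset.mul_sum, ← Finset.sum_sub_distrib]
    refine Finset.sum_le_sum fun n hn => ?_
    rw [mem_Ioc] at hn
    have hn0 : (0 : ℝ) < n := by exact_mod_cast hn.1
    have h5 : (N : ℝ) / n ≤ ((N / n : ℕ) : ℝ) + 1 := by
      have := Nat.lt_div_mul_add (a := N) hn.1
      have h6 : (N : ℝ) < ((N / n : ℕ) : ℝ) * n + n := by exact_mod_cast this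
      rw [div_le_iff₀ hn0]
      linarith
    have h6 : (0 : ℝ) ≤ vonMangoldt n := vonMangoldt_nonneg
    have h7 : (N : ℝ) * (vonMangoldt n / n) = vonMangoldt n * (N / n) := by ring
    rw [h7]
    nlinarith
  have h4 := sm_psi N
  have h5 : (N : ℝ) * ∑ n ∈ Ioc 0 N, vonMangoldt n / n ≤ N * (Real.log N + 6) := by
    nlinarith
  exact le_of_mul_le_mul_left h5 hN0

/-- lower bound in Mertens' theorem -/
private theorem sm_low {N : ℕ} (hN : 1 ≤ N) :
    Real.log N - 1 ≤ ∑ n ∈ Ioc 0 N, vonMangoldt n / n := by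
  have hN0 : (0 : ℝ) < N := by exact_mod_cast hN
  have h1 := sm_log N
  have h2 : N * Real.log N - N ≤ ∑ n ∈ Ioc 0 N, Real.log n := by
    have h3 : ∑ n ∈ Ioc 0 N, Real.log n = Real.log (N.factorial : ℝ) := by
      clear h1 hN0 hN
      induction N with
      | zero => simp
      | succ n ih =>
        have hf : ((n.factorial : ℕ) : ℝ) ≠ 0 := by exact_mod_cast n.factorial_ne_zero
        have hn : ((n + 1 : ℕ) : ℝ) ≠ 0 := by positivity
        rw [← Finset.insert_Ioc_right_eq_Ioc_add_one (Nat.zero_le n),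
          Finset.sum_insert (by simp), ih, Nat.factorial_succ, Nat.cast_mul,
          Real.log_mul hn hf]
    rw [h3]
    have h4 := Real.pow_div_factorial_le_exp (N : ℝ) hN0.le N
    have hf : (0 : ℝ) < (N.factorial : ℝ) := by exact_mod_cast N.factorial_pos
    have h5 := Real.log_le_log (by positivity) h4
    rw [Real.log_div (by positivity) hf.ne', Real.log_pow, Real.log_exp] at h5
    linarith
  have h3 : ∑ n ∈ Ioc 0 N, vonMangoldt n * ((N / n : ℕ) : ℝ) ≤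
      N * ∑ n ∈ Ioc 0 N, vonMangoldt n / n := by
    rw [Finset.mul_sum]
    refine Finset.sum_le_sum fun n hn => ?_
    rw [mem_Ioc] at hn
    have hn0 : (0 : ℝ) < n := by exact_mod_cast hn.1
    have h7 : (N : ℝ) * (vonMangoldt n / n) = vonMangoldt n * (N / n) := by ring
    rw [h7]
    exact mul_le_mul_of_nonneg_left Nat.cast_div_le vonMangoldt_nonneg
  have h5 : (N : ℝ) * (Real.log N - 1) ≤ N * ∑ n ∈ Ioc 0 N, vonMangoldt n / n := by
    nlinarith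
  exact le_of_mul_le_mul_left h5 hN0

end aux

/-- Mertens: PROOF. Abel summation / the standard proof from `log (N!) = ∑ Λ n ⌊N/n⌋`; exists in Lib in several
forms (`MP_3e612f_nt/LO/BrunC.lean mertens_vm`, `MP_60829e_nt/ZV/Sum2b.lean`, `MP_3e612f_nt/MR/Pw.lean`); both directions
are needed for intervals, or cite an interval version. -/
theorem mertens_int : ∃ C : ℝ, 0 ≤ C ∧ ∀ y z : ℝ, 1 ≤ y → y ≤ z →
    ∑ n ∈ (Icc 1 ⌊z⌋₊).filter (fun n : ℕ => y < (n : ℝ)), ArithmeticFunction.vonMangoldt n / n ≤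
      Real.log z - Real.log y + C := by
  refine ⟨8, by norm_num, fun y z hy hyz => ?_⟩
  have hz : 1 ≤ z := hy.trans hyz
  have hfy : 1 ≤ ⌊y⌋₊ := (Nat.one_le_floor_iff y).2 hy
  have hfz : 1 ≤ ⌊z⌋₊ := (Nat.one_le_floor_iff z).2 hz
  have hle : ⌊y⌋₊ ≤ ⌊z⌋₊ := Nat.floor_le_floor hyz
  have h1 : ∑ n ∈ Ioc 0 ⌊z⌋₊, ArithmeticFunction.vonMangoldt n / (n : ℝ) =
      ∑ n ∈ Ioc 0 ⌊y⌋₊, ArithmeticFunction.vonMangoldt n / (n : ℝ) +
      ∑ n ∈ (Icc 1 ⌊z⌋₊).filter (fun n : ℕ => y < (n : ℝ)),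
        ArithmeticFunction.vonMangoldt n / (n : ℝ) := by
    rw [← Finset.sum_union]
    · congr 1
      ext n
      rw [mem_union, mem_filter, mem_Ioc, mem_Ioc, mem_Icc, ← Nat.floor_lt (by linarith)]
      omega
    · rw [Finset.disjoint_left]
      intro n hn hn'
      rw [mem_filter, ← Nat.floor_lt (by linarith)] at hn'
      rw [mem_Ioc] at hn
      omega
  have h2 := sm_up hfz
  have h3 := sm_low hfy
  have h4 : Real.log ⌊z⌋₊ ≤ Real.log z :=
    Real.log_le_log (by exact_mod_cast hfz) (Nat.floor_le (by linarith))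
  have h5 : Real.log y ≤ Real.log ⌊y⌋₊ + 1 := by
    have hf0 : (1 : ℝ) ≤ (⌊y⌋₊ : ℝ) := by exact_mod_cast hfy
    have h6 : y ≤ 2 * (⌊y⌋₊ : ℝ) := by
      have := Nat.lt_floor_add_one y
      linarith
    have h7 := Real.log_le_log (by linarith) h6
    rw [Real.log_mul (by norm_num) (by linarith)] at h7
    have := Real.log_two_lt_d9
    linarith
  linarith

private theorem sm_geom {r : ℝ} (h0 : 0 ≤ r) (h1 : r ≤ 3 / 5) (m : ℕ) :
    ∑ j ∈ range m, r ^ j ≤ 5 / 2 := by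
  have h2 := mul_neg_geom_sum r m
  have h3 : 0 ≤ r ^ m := pow_nonneg h0 m
  have h4 : 0 ≤ ∑ j ∈ range m, r ^ j := Finset.sum_nonneg fun j _ => pow_nonneg h0 j
  nlinarith

private theorem sm_two : (2 : ℝ) ^ (-(3 / 4) : ℝ) ≤ 3 / 5 := by
  have h1 : ((2 : ℝ) ^ (-(3 / 4) : ℝ)) ^ 4 ≤ (3 / 5 : ℝ) ^ 4 := by
    rw [← Real.rpow_natCast, ← Real.rpow_mul (by norm_num)]
    norm_num
  exact le_of_pow_le_pow_left₀ (by norm_num) (by norm_num) h1

private theorem sm_pp (N : ℕ) (s : Finset ℕ) (hs : ∀ n ∈ s, 1 ≤ n ∧ n ≤ N ∧ ¬ n.Prime) :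
    ∑ n ∈ s, ArithmeticFunction.vonMangoldt n * (n : ℝ) ^ (-(3 / 4) : ℝ) ≤
      10 * ∑' q : ℕ, 1 / (q : ℝ) ^ (5 / 4 : ℝ) := by
  classical
  obtain ⟨g, hg⟩ : ∃ g : ℕ → ℝ, g = fun n : ℕ => ArithmeticFunction.vonMangoldt n *
    (n : ℝ) ^ (-(3 / 4) : ℝ) := ⟨_, rfl⟩
  have hg0 : ∀ n, 0 ≤ g n := fun n => by
    rw [hg]
    exact mul_nonneg ArithmeticFunction.vonMangoldt_nonneg (by positivity)
  obtain ⟨f, hf⟩ : ∃ f : ℕ × ℕ → ℕ, f = fun x => x.1 ^ x.2 := ⟨_, rfl⟩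
  have h1 : ∑ n ∈ s, g n ≤ ∑ n ∈ (Icc 2 N ×ˢ Icc 2 N).image f, g n := by
    rw [← Finset.sum_filter_ne_zero s]
    refine Finset.sum_le_sum_of_subset_of_nonneg ?_ fun n _ _ => hg0 n
    intro n hn
    rw [mem_filter] at hn
    obtain ⟨hn1, hn2⟩ := hn
    obtain ⟨h3, h4, h5⟩ := hs n hn1
    have h6 : ArithmeticFunction.vonMangoldt n ≠ 0 := by
      intro h0
      apply hn2
      rw [hg]
      dsimp only
      rw [h0, zero_mul]
    rw [ArithmeticFunction.vonMangoldt_ne_zero_iff] at h6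
    obtain ⟨q, k, hq, hk, rfl⟩ := h6
    have hq' := hq.nat_prime
    have hk2 : 2 ≤ k := by
      by_contra hlt
      obtain rfl : k = 1 := by omega
      rw [pow_one] at h5
      exact h5 hq'
    rw [mem_image]
    refine ⟨(q, k), ?_, by rw [hf]⟩
    rw [mem_product, mem_Icc, mem_Icc]
    refine ⟨⟨hq'.two_le, ?_⟩, hk2, ?_⟩
    · exact (Nat.le_self_pow (by omega) q).trans h4
    · exact ((Nat.lt_pow_self hq'.one_lt).le).trans h4
  have h2 : ∑ n ∈ (Icc 2 N ×ˢ Icc 2 N).image f, g n ≤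
      ∑ x ∈ Icc 2 N ×ˢ Icc 2 N, g (f x) := by
    rw [Finset.sum_comp g f]
    refine Finset.sum_le_sum fun n hn => ?_
    rw [mem_image] at hn
    obtain ⟨x, hx, hxn⟩ := hn
    have h3 : 1 ≤ ((Icc 2 N ×ˢ Icc 2 N).filter (fun a => f a = n)).card :=
      Finset.card_pos.2 ⟨x, mem_filter.2 ⟨hx, hxn⟩⟩
    rw [nsmul_eq_mul]
    have h4 : (1 : ℝ) ≤ ((Icc 2 N ×ˢ Icc 2 N).filter (fun a => f a = n)).card := by
      exact_mod_cast h3
    nlinarith [hg0 n]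
  have h3 : ∑ x ∈ Icc 2 N ×ˢ Icc 2 N, g (f x) ≤
      ∑ q ∈ Icc 2 N, 10 * (1 / (q : ℝ) ^ (5 / 4 : ℝ)) := by
    rw [Finset.sum_product]
    refine Finset.sum_le_sum fun q hq => ?_
    rw [mem_Icc] at hq
    have hq2 : (2 : ℝ) ≤ q := by exact_mod_cast hq.1
    have hq0 : (0 : ℝ) < q := by linarith
    obtain ⟨r, hr⟩ : ∃ r : ℝ, r = (q : ℝ) ^ (-(3 / 4) : ℝ) := ⟨_, rfl⟩
    have hr0 : 0 ≤ r := by
      rw [hr]
      positivity
    have hr1 : r ≤ 3 / 5 := by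
      rw [hr]
      exact (Real.rpow_le_rpow_of_nonpos (by norm_num) hq2 (by norm_num)).trans sm_two
    have h4 : ∀ k ∈ Icc 2 N, g (f (q, k)) ≤ Real.log q * r ^ k := by
      intro k hk
      rw [mem_Icc] at hk
      rw [hg, hf]
      dsimp only
      rw [ArithmeticFunction.vonMangoldt_apply_pow (by omega), Nat.cast_pow, ← Real.rpow_natCast,
        ← Real.rpow_mul hq0.le, mul_comm (k : ℝ), Real.rpow_mul hq0.le, Real.rpow_natCast, ← hr]
      exact mul_le_mul_of_nonneg_right ArithmeticFunction.vonMangoldt_le_log (pow_nonneg hr0 k)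
    refine (Finset.sum_le_sum h4).trans ?_
    rw [← Finset.mul_sum]
    have h5 : ∑ k ∈ Icc 2 N, r ^ k ≤ r ^ 2 * (5 / 2) := by
      have h6 : ∑ k ∈ Icc 2 N, r ^ k = r ^ 2 * ∑ j ∈ range (N + 1 - 2), r ^ j := by
        rw [← Finset.Ico_add_one_right_eq_Icc, Finset.sum_Ico_eq_sum_range, Finset.mul_sum]
        exact Finset.sum_congr rfl fun j _ => pow_add r 2 j
      rw [h6]
      exact mul_le_mul_of_nonneg_left (sm_geom hr0 hr1 _) (pow_nonneg hr0 2)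
    have h6 : Real.log q ≤ 4 * (q : ℝ) ^ (1 / 4 : ℝ) := by
      have := Real.log_le_rpow_div hq0.le (show (0 : ℝ) < 1 / 4 by norm_num)
      linarith
    have h7 : r ^ 2 * (q : ℝ) ^ (1 / 4 : ℝ) = 1 / (q : ℝ) ^ (5 / 4 : ℝ) := by
      have h9 : (1 : ℝ) / (q : ℝ) ^ (5 / 4 : ℝ) = (q : ℝ) ^ (-(5 / 4) : ℝ) := by
        rw [Real.rpow_neg hq0.le, one_div]
      rw [h9, hr, ← Real.rpow_natCast, ← Real.rpow_mul hq0.le, ← Real.rpow_add hq0]
      norm_num
    have h8 : 0 ≤ Real.log q := Real.log_nonneg (by linarith)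
    calc Real.log q * ∑ k ∈ Icc 2 N, r ^ k ≤ Real.log q * (r ^ 2 * (5 / 2)) :=
          mul_le_mul_of_nonneg_left h5 h8
      _ ≤ (4 * (q : ℝ) ^ (1 / 4 : ℝ)) * (r ^ 2 * (5 / 2)) :=
          mul_le_mul_of_nonneg_right h6 (by positivity)
      _ = 10 * (r ^ 2 * (q : ℝ) ^ (1 / 4 : ℝ)) := by ring
      _ = _ := by rw [h7]
  have h4 : ∑ q ∈ Icc 2 N, 10 * (1 / (q : ℝ) ^ (5 / 4 : ℝ)) ≤
      10 * ∑' q : ℕ, 1 / (q : ℝ) ^ (5 / 4 : ℝ) := by
    rw [← Finset.mul_sum]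
    refine mul_le_mul_of_nonneg_left ?_ (by norm_num)
    exact (Real.summable_one_div_nat_rpow.2 (by norm_num)).sum_le_tsum _
      fun q _ => by positivity
  rw [hg] at h1
  exact h1.trans ((hg ▸ h2).trans ((hg ▸ h3).trans h4))

/-- the prime powers with exponent at least two. PROOF. `∑ p, log p ∑ j ≥ 2, p^j > y, p^(-j)
≤ ∑ p, 2 log p / max (p^2) y ..`, or: `Λ n ≤ log n`, the number of proper prime powers up to `t` is at most
`sqrt t log t`, dyadic decomposition; any bound which is `o(1/log)` will do, here `y^(-1/4)`. -/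
theorem proper_pow : ∃ C : ℝ, 0 ≤ C ∧ ∀ (y : ℝ) (N : ℕ), 1 ≤ y →
    ∑ n ∈ (Icc 1 N).filter (fun n : ℕ => y < (n : ℝ) ∧ ¬ n.Prime), ArithmeticFunction.vonMangoldt n / n ≤
      C / y ^ (1 / 4 : ℝ) := by
  refine ⟨10 * ∑' q : ℕ, 1 / (q : ℝ) ^ (5 / 4 : ℝ),
    mul_nonneg (by norm_num) (tsum_nonneg fun q => by positivity), fun y N hy => ?_⟩
  have hy0 : 0 < y := by linarith
  have h1 := sm_pp N ((Icc 1 N).filter (fun n : ℕ => y < (n : ℝ) ∧ ¬ n.Prime)) (by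
    intro n hn
    rw [mem_filter, mem_Icc] at hn
    exact ⟨hn.1.1, hn.1.2, hn.2.2⟩)
  rw [le_div_iff₀ (by positivity)]
  refine le_trans ?_ h1
  rw [Finset.sum_mul]
  refine Finset.sum_le_sum fun n hn => ?_
  rw [mem_filter, mem_Icc] at hn
  have hn0 : (0 : ℝ) < n := lt_trans hy0 hn.2.1
  have h2 : (n : ℝ) ^ (-(3 / 4) : ℝ) = (n : ℝ) ^ (1 / 4 : ℝ) / n := by
    rw [← Real.rpow_sub_one hn0.ne']
    norm_num
  have h3 : y ^ (1 / 4 : ℝ) ≤ (n : ℝ) ^ (1 / 4 : ℝ) :=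
    Real.rpow_le_rpow hy0.le hn.2.1.le (by norm_num)
  rw [h2, div_mul_eq_mul_div, mul_div_assoc]
  exact mul_le_mul_of_nonneg_left (div_le_div_of_nonneg_right h3 hn0.le)
    ArithmeticFunction.vonMangoldt_nonneg

/-- PROOF. For a prime power `φ n ≥ n / 2`; `mertens_int`. -/
theorem mertens_phi : ∃ C : ℝ, 0 ≤ C ∧ ∀ z : ℝ, 1 ≤ z →
    ∑ n ∈ Icc 1 ⌊z⌋₊, ArithmeticFunction.vonMangoldt n / n.totient ≤ 2 * Real.log z + C := by
  refine ⟨12, by norm_num, fun z hz => ?_⟩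
  have hfz : 1 ≤ ⌊z⌋₊ := (Nat.one_le_floor_iff z).2 hz
  have h2 := sm_up hfz
  have h4 : Real.log ⌊z⌋₊ ≤ Real.log z :=
    Real.log_le_log (by exact_mod_cast hfz) (Nat.floor_le (by linarith))
  have h3 : ∑ n ∈ Icc 1 ⌊z⌋₊, ArithmeticFunction.vonMangoldt n / (n.totient : ℝ) ≤
      2 * ∑ n ∈ Ioc 0 ⌊z⌋₊, ArithmeticFunction.vonMangoldt n / (n : ℝ) := by
    rw [Finset.mul_sum]
    refine Finset.sum_le_sum fun n hn => ?_
    rw [mem_Icc] at hn
    by_cases h5 : ArithmeticFunction.vonMangoldt n = 0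
    · rw [h5]
      simp
    · have h5 := ArithmeticFunction.vonMangoldt_ne_zero_iff.1 h5
      obtain ⟨q, k, hq, hk, rfl⟩ := h5
      have hq' := hq.nat_prime
      have hq2 : (2 : ℝ) ≤ q := by exact_mod_cast hq'.two_le
      have h6 : (((q ^ k).totient : ℕ) : ℝ) = (q : ℝ) ^ (k - 1) * ((q : ℝ) - 1) := by
        rw [Nat.totient_prime_pow hq' hk, Nat.cast_mul, Nat.cast_pow,
          Nat.cast_sub hq'.one_lt.le, Nat.cast_one]
      have h7 : ((q ^ k : ℕ) : ℝ) = (q : ℝ) ^ (k - 1) * q := by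
        rw [Nat.cast_pow, ← pow_succ, Nat.sub_add_cancel hk]
      have h8 : (0 : ℝ) < (q : ℝ) ^ (k - 1) := by positivity
      rw [h6, h7, ← mul_div_assoc, div_le_div_iff₀ (mul_pos h8 (by linarith))
        (mul_pos h8 (by linarith))]
      have h9 : (0 : ℝ) ≤ ArithmeticFunction.vonMangoldt (q ^ k) :=
        ArithmeticFunction.vonMangoldt_nonneg
      have h10 : (q : ℝ) ^ (k - 1) * q ≤ 2 * ((q : ℝ) ^ (k - 1) * ((q : ℝ) - 1)) := by
        nlinarith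
      nlinarith
  linarith


end Pool.Agent.Lib.MP_a9e8ee_lc.EW
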