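import Mathlib
import Pool.Agent.Lib.MP_a9e8ee_lc.EW.BTL
import Pool.Agent.Lib.MP_a9e8ee_lc.EW.Sums

/-!
# The easy parts
-/

set_option autoImplicit false

open Finset

namespace Pool.Agent.Lib.MP_a9e8ee_lc.EW

/-- `log N` and `N ^ δ` become large -/
theorem goldB_large (ε δ C : ℝ) (hε : 0 < ε) (hδ : 0 < δ) : ∃ N₀ : ℕ, ∀ N : ℕ, N₀ ≤ N →
    1 ≤ N ∧ C ≤ ε * Real.log N ∧ C ≤ ε * (N : ℝ) ^ δ := by
  have h1 : Filter.Tendsto (fun N : ℕ => Real.log (N : ℝ)) Filter.atTop Filter.atTop :=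
    Real.tendsto_log_atTop.comp tendsto_natCast_atTop_atTop
  have h2 : Filter.Tendsto (fun N : ℕ => (N : ℝ) ^ δ) Filter.atTop Filter.atTop :=
    (tendsto_rpow_atTop hδ).comp tendsto_natCast_atTop_atTop
  have h3 := ((Filter.eventually_ge_atTop 1).and ((h1.eventually_ge_atTop (C / ε)).and
    (h2.eventually_ge_atTop (C / ε))))
  obtain ⟨N₀, hN₀⟩ := Filter.eventually_atTop.1 h3
  refine ⟨N₀, fun N hN => ?_⟩
  obtain ⟨h4, h5, h6⟩ := hN₀ N hN
  refine ⟨h4, ?_, ?_⟩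
  · rw [div_le_iff₀ hε] at h5
    linarith
  · rw [div_le_iff₀ hε] at h6
    linarith

/-- small prime powers `n ≤ N^ε` (`AA_bt`, `mertens_phi`) -/
theorem part_one : ∃ C : ℝ, 0 ≤ C ∧ ∀ (M : ℕ) (ε : ℝ), 1 ≤ M → 0 < ε → ε ≤ 1 / 8 →
    ∃ N₀ : ℕ, ∀ N : ℕ, N₀ ≤ N →
    ∑ n ∈ (Icc 1 N).filter (fun n : ℕ => (n : ℝ) ≤ (N : ℝ) ^ ε),
      ArithmeticFunction.vonMangoldt n * AA M N n ≤ C * ε * N * Real.log N := by
  obtain ⟨C1, hC1, hbt⟩ := AA_bt
  obtain ⟨C2, hC2, hm⟩ := mertens_phi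
  refine ⟨3 * C1, by linarith, fun M ε hM hε hε1 => ?_⟩
  obtain ⟨N₁, hN₁⟩ := hbt M hM
  obtain ⟨N₂, hN₂⟩ := goldB_large ε 1 C2 hε one_pos
  refine ⟨max N₁ N₂, fun N hN => ?_⟩
  obtain ⟨hN1, hlog, -⟩ := hN₂ N ((le_max_right _ _).trans hN)
  have hN1' : (1 : ℝ) ≤ N := by exact_mod_cast hN1
  have hz : (1 : ℝ) ≤ (N : ℝ) ^ ε := Real.one_le_rpow hN1' hε.le
  have h34 : (N : ℝ) ^ ε ≤ (N : ℝ) ^ (3 / 4 : ℝ) :=
    Real.rpow_le_rpow_of_exponent_le hN1' (by linarith)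
  have hlz : Real.log ((N : ℝ) ^ ε) = ε * Real.log N := Real.log_rpow (by linarith) ε
  have hm' := hm _ hz
  rw [hlz] at hm'
  have hC1N : 0 ≤ C1 * N := mul_nonneg (by linarith) (by linarith)
  calc ∑ n ∈ (Icc 1 N).filter (fun n : ℕ => (n : ℝ) ≤ (N : ℝ) ^ ε),
      ArithmeticFunction.vonMangoldt n * AA M N n
      ≤ ∑ n ∈ (Icc 1 N).filter (fun n : ℕ => (n : ℝ) ≤ (N : ℝ) ^ ε),
        C1 * N * (ArithmeticFunction.vonMangoldt n / n.totient) := by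
        refine Finset.sum_le_sum fun n hn => ?_
        rw [Finset.mem_filter, Finset.mem_Icc] at hn
        have h1 := hN₁ N ((le_max_left _ _).trans hN) n hn.1.1 (hn.2.trans h34)
        calc ArithmeticFunction.vonMangoldt n * AA M N n
            ≤ ArithmeticFunction.vonMangoldt n * (C1 * N / n.totient) :=
              mul_le_mul_of_nonneg_left h1 ArithmeticFunction.vonMangoldt_nonneg
          _ = C1 * N * (ArithmeticFunction.vonMangoldt n / n.totient) := by ring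
    _ ≤ ∑ n ∈ Icc 1 ⌊(N : ℝ) ^ ε⌋₊, C1 * N * (ArithmeticFunction.vonMangoldt n / n.totient) := by
        refine Finset.sum_le_sum_of_subset_of_nonneg ?_ ?_
        · intro n hn
          rw [Finset.mem_filter, Finset.mem_Icc] at hn
          rw [Finset.mem_Icc]
          exact ⟨hn.1.1, Nat.le_floor hn.2⟩
        · intro n _ _
          exact mul_nonneg hC1N (div_nonneg ArithmeticFunction.vonMangoldt_nonneg
            (Nat.cast_nonneg _))
    _ = C1 * N * ∑ n ∈ Icc 1 ⌊(N : ℝ) ^ ε⌋₊, ArithmeticFunction.vonMangoldt n / n.totient := by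
        rw [Finset.mul_sum]
    _ ≤ C1 * N * (2 * (ε * Real.log N) + C2) := mul_le_mul_of_nonneg_left hm' hC1N
    _ ≤ C1 * N * (3 * (ε * Real.log N)) := mul_le_mul_of_nonneg_left (by linarith) hC1N
    _ = 3 * C1 * ε * N * Real.log N := by ring

/-- proper prime powers `n > N^ε` (`AA_triv`, `proper_pow`) -/
theorem part_two (M : ℕ) (ε : ℝ) (hM : 1 ≤ M) (hε : 0 < ε) (hε1 : ε ≤ 1 / 8) :
    ∃ N₀ : ℕ, ∀ N : ℕ, N₀ ≤ N →
    ∑ n ∈ (Icc 1 N).filter (fun n : ℕ => (N : ℝ) ^ ε < n ∧ ¬ n.Prime),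
      ArithmeticFunction.vonMangoldt n * AA M N n ≤ ε * N * Real.log N := by
  obtain ⟨C, hC, hp⟩ := proper_pow
  obtain ⟨N₂, hN₂⟩ := goldB_large ε (ε / 4) C hε (by linarith)
  refine ⟨N₂, fun N hN => ?_⟩
  obtain ⟨hN1, -, hpow⟩ := hN₂ N hN
  have hN1' : (1 : ℝ) ≤ N := by exact_mod_cast hN1
  have hN0 : (0 : ℝ) < N := by linarith
  have hz : (1 : ℝ) ≤ (N : ℝ) ^ ε := Real.one_le_rpow hN1' hε.le
  have hlog : 0 ≤ Real.log N := Real.log_nonneg hN1'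
  have hp' := hp _ N hz
  have he : ((N : ℝ) ^ ε) ^ (1 / 4 : ℝ) = (N : ℝ) ^ (ε / 4) := by
    rw [← Real.rpow_mul hN0.le]
    congr 1
    ring
  rw [he] at hp'
  have hNl : 0 ≤ N * Real.log N := mul_nonneg hN0.le hlog
  have hpos : 0 < (N : ℝ) ^ (ε / 4) := Real.rpow_pos_of_pos hN0 _
  calc ∑ n ∈ (Icc 1 N).filter (fun n : ℕ => (N : ℝ) ^ ε < n ∧ ¬ n.Prime),
      ArithmeticFunction.vonMangoldt n * AA M N n
      ≤ ∑ n ∈ (Icc 1 N).filter (fun n : ℕ => (N : ℝ) ^ ε < n ∧ ¬ n.Prime),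
        N * Real.log N * (ArithmeticFunction.vonMangoldt n / n) := by
        refine Finset.sum_le_sum fun n hn => ?_
        rw [Finset.mem_filter, Finset.mem_Icc] at hn
        have h1 := AA_triv M N n hn.1.1
        calc ArithmeticFunction.vonMangoldt n * AA M N n
            ≤ ArithmeticFunction.vonMangoldt n * (N / n * Real.log N) :=
              mul_le_mul_of_nonneg_left h1 ArithmeticFunction.vonMangoldt_nonneg
          _ = N * Real.log N * (ArithmeticFunction.vonMangoldt n / n) := by ring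
    _ = N * Real.log N * ∑ n ∈ (Icc 1 N).filter (fun n : ℕ => (N : ℝ) ^ ε < n ∧ ¬ n.Prime),
        ArithmeticFunction.vonMangoldt n / n := by
        rw [Finset.mul_sum]
    _ ≤ N * Real.log N * (C / (N : ℝ) ^ (ε / 4)) := mul_le_mul_of_nonneg_left hp' hNl
    _ ≤ N * Real.log N * ε := by
        refine mul_le_mul_of_nonneg_left ?_ hNl
        rw [div_le_iff₀ hpos]
        exact hpow
    _ = ε * N * Real.log N := by ring

/-- the primes in `(N^(1/2-ε), N^(1/2+ε)]` (`AA_bt`, `φ(l) ≥ l / 2`, `mertens_int`) -/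
theorem part_four : ∃ C : ℝ, 0 ≤ C ∧ ∀ (M : ℕ) (ε : ℝ), 1 ≤ M → 0 < ε → ε ≤ 1 / 8 →
    ∃ N₀ : ℕ, ∀ N : ℕ, N₀ ≤ N →
    ∑ n ∈ (Icc 1 N).filter (fun n : ℕ => n.Prime ∧ (N : ℝ) ^ (1 / 2 - ε) < n ∧
        (n : ℝ) ≤ (N : ℝ) ^ (1 / 2 + ε)),
      ArithmeticFunction.vonMangoldt n * AA M N n ≤ C * ε * N * Real.log N := by
  obtain ⟨C1, hC1, hbt⟩ := AA_bt
  obtain ⟨C2, hC2, hm⟩ := mertens_int
  refine ⟨6 * C1, by linarith, fun M ε hM hε hε1 => ?_⟩
  obtain ⟨N₁, hN₁⟩ := hbt M hM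
  obtain ⟨N₂, hN₂⟩ := goldB_large ε 1 C2 hε one_pos
  refine ⟨max N₁ N₂, fun N hN => ?_⟩
  obtain ⟨hN1, hlog, -⟩ := hN₂ N ((le_max_right _ _).trans hN)
  have hN1' : (1 : ℝ) ≤ N := by exact_mod_cast hN1
  have hN0 : (0 : ℝ) < N := by linarith
  have hy : (1 : ℝ) ≤ (N : ℝ) ^ (1 / 2 - ε) := Real.one_le_rpow hN1' (by linarith)
  have hyz : (N : ℝ) ^ (1 / 2 - ε) ≤ (N : ℝ) ^ (1 / 2 + ε) :=
    Real.rpow_le_rpow_of_exponent_le hN1' (by linarith)
  have h34 : (N : ℝ) ^ (1 / 2 + ε) ≤ (N : ℝ) ^ (3 / 4 : ℝ) :=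
    Real.rpow_le_rpow_of_exponent_le hN1' (by linarith)
  have hm' := hm _ _ hy hyz
  rw [Real.log_rpow hN0, Real.log_rpow hN0] at hm'
  have hC1N : 0 ≤ 2 * (C1 * N) := mul_nonneg zero_le_two (mul_nonneg (by linarith) hN0.le)
  calc ∑ n ∈ (Icc 1 N).filter (fun n : ℕ => n.Prime ∧ (N : ℝ) ^ (1 / 2 - ε) < n ∧
        (n : ℝ) ≤ (N : ℝ) ^ (1 / 2 + ε)), ArithmeticFunction.vonMangoldt n * AA M N n
      ≤ ∑ n ∈ (Icc 1 N).filter (fun n : ℕ => n.Prime ∧ (N : ℝ) ^ (1 / 2 - ε) < n ∧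
        (n : ℝ) ≤ (N : ℝ) ^ (1 / 2 + ε)),
        2 * (C1 * N) * (ArithmeticFunction.vonMangoldt n / n) := by
        refine Finset.sum_le_sum fun n hn => ?_
        rw [Finset.mem_filter, Finset.mem_Icc] at hn
        obtain ⟨⟨hn1, -⟩, hpr, -, hnz⟩ := hn
        have h1 := hN₁ N ((le_max_left _ _).trans hN) n hn1 (hnz.trans h34)
        have h2 : (2 : ℝ) ≤ n := by exact_mod_cast hpr.two_le
        have h3 : (n.totient : ℝ) = n - 1 := by
          rw [Nat.totient_prime hpr, Nat.cast_sub hn1, Nat.cast_one]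
        have h4 : (n : ℝ) / 2 ≤ n.totient := by
          rw [h3]
          linarith
        have h5 : C1 * N / n.totient ≤ C1 * N / (n / 2) :=
          div_le_div_of_nonneg_left (mul_nonneg (by linarith) hN0.le) (by linarith) h4
        calc ArithmeticFunction.vonMangoldt n * AA M N n
            ≤ ArithmeticFunction.vonMangoldt n * (C1 * N / (n / 2)) :=
              mul_le_mul_of_nonneg_left (h1.trans h5) ArithmeticFunction.vonMangoldt_nonneg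
          _ = 2 * (C1 * N) * (ArithmeticFunction.vonMangoldt n / n) := by
              field_simp
    _ ≤ ∑ n ∈ (Icc 1 ⌊(N : ℝ) ^ (1 / 2 + ε)⌋₊).filter
        (fun n : ℕ => (N : ℝ) ^ (1 / 2 - ε) < (n : ℝ)),
        2 * (C1 * N) * (ArithmeticFunction.vonMangoldt n / n) := by
        refine Finset.sum_le_sum_of_subset_of_nonneg ?_ ?_
        · intro n hn
          rw [Finset.mem_filter, Finset.mem_Icc] at hn
          rw [Finset.mem_filter, Finset.mem_Icc]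
          exact ⟨⟨hn.1.1, Nat.le_floor hn.2.2.2⟩, hn.2.2.1⟩
        · intro n _ _
          exact mul_nonneg hC1N (div_nonneg ArithmeticFunction.vonMangoldt_nonneg
            (Nat.cast_nonneg _))
    _ = 2 * (C1 * N) * ∑ n ∈ (Icc 1 ⌊(N : ℝ) ^ (1 / 2 + ε)⌋₊).filter
        (fun n : ℕ => (N : ℝ) ^ (1 / 2 - ε) < (n : ℝ)),
        ArithmeticFunction.vonMangoldt n / n := by
        rw [Finset.mul_sum]
    _ ≤ 2 * (C1 * N) * ((1 / 2 + ε) * Real.log N - (1 / 2 - ε) * Real.log N + C2) :=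
        mul_le_mul_of_nonneg_left hm' hC1N
    _ ≤ 2 * (C1 * N) * (3 * (ε * Real.log N)) :=
        mul_le_mul_of_nonneg_left (by linarith) hC1N
    _ = 6 * C1 * ε * N * Real.log N := by ring

end Pool.Agent.Lib.MP_a9e8ee_lc.EW
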