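import Mathlib
import Pool.Agent.Lib.MP_a9e8ee_lc.EW.BVb
import Pool.Agent.Lib.MP_a9e8ee_lc.EW.BVc
import Pool.Agent.Lib.MP_a9e8ee_lc.EW.Sums
import Pool.Agent.Lib.MP_629a14_nt.Rob.PiAP

/-!
# The main range
-/

set_option autoImplicit false

open Finset

namespace Pool.Agent.Lib.MP_a9e8ee_lc.EW

/-- the sum of `log l / (l - 1)` over the range -/
theorem goldC_sum (ε : ℝ) (hε : 0 < ε) (hε1 : ε ≤ 1 / 8) : ∃ N₀ : ℕ, ∀ N : ℕ, N₀ ≤ N →
    ∑ l ∈ (Icc 1 N).filter (fun l : ℕ => l.Prime ∧ (N : ℝ) ^ ε < l ∧ (l : ℝ) ≤ (N : ℝ) ^ (1 / 2 - ε)),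
      Real.log l / ((l : ℝ) - 1) ≤ 1 / 2 * Real.log N := by
  obtain ⟨C, hC, hmert⟩ := mertens_int
  -- conditions on `N`
  have h1 : ∀ᶠ N : ℕ in Filter.atTop, (2 : ℝ) + 2 / ε < (N : ℝ) ^ ε := by
    have h1 := (tendsto_rpow_atTop hε).comp tendsto_natCast_atTop_atTop
    exact h1.eventually_gt_atTop _
  have h2 : ∀ᶠ N : ℕ in Filter.atTop, 2 * C / ε < Real.log N := by
    have h1 := Real.tendsto_log_atTop.comp tendsto_natCast_atTop_atTop
    exact h1.eventually_gt_atTop _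
  obtain ⟨N₀, hN₀⟩ := Filter.eventually_atTop.1 (h1.and (h2.and (Filter.eventually_ge_atTop 3)))
  refine ⟨N₀, fun N hN => ?_⟩
  obtain ⟨g1, g2, g3⟩ := hN₀ N hN
  have hNpos : (0 : ℝ) < N := by
    have : 0 < N := by omega
    exact_mod_cast this
  have hN1 : (1 : ℝ) ≤ N := by exact_mod_cast (by omega : 1 ≤ N)
  have hlog : 0 < Real.log N := Real.log_pos (by exact_mod_cast (by omega : 1 < N))
  set y : ℝ := (N : ℝ) ^ ε with hy
  set z : ℝ := (N : ℝ) ^ (1 / 2 - ε) with hz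
  have hy1 : 1 ≤ y := Real.one_le_rpow hN1 hε.le
  have hyz : y ≤ z := Real.rpow_le_rpow_of_exponent_le hN1 (by linarith)
  have hly : Real.log y = ε * Real.log N := Real.log_rpow hNpos ε
  have hlz : Real.log z = (1 / 2 - ε) * Real.log N := Real.log_rpow hNpos _
  have hm := hmert y z hy1 hyz
  rw [hly, hlz] at hm
  have hypos : 0 < y := by linarith
  have hy2 : 2 + 2 / ε < y := g1
  have hε0 : 0 < 2 / ε := by positivity
  -- termwise
  have hterm : ∑ l ∈ (Icc 1 N).filter (fun l : ℕ => l.Prime ∧ y < l ∧ (l : ℝ) ≤ z),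
      Real.log l / ((l : ℝ) - 1) ≤ (1 + ε) *
      ∑ n ∈ (Icc 1 ⌊z⌋₊).filter (fun n : ℕ => y < (n : ℝ)),
        ArithmeticFunction.vonMangoldt n / n := by
    have e1 : ∀ l ∈ (Icc 1 N).filter (fun l : ℕ => l.Prime ∧ y < l ∧ (l : ℝ) ≤ z),
        Real.log l / ((l : ℝ) - 1) ≤ (1 + ε) * (ArithmeticFunction.vonMangoldt l / l) := by
      intro l hl
      rw [Finset.mem_filter] at hl
      obtain ⟨-, hp, hyl, -⟩ := hl
      rw [ArithmeticFunction.vonMangoldt_apply_prime hp]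
      have hl0 : 0 ≤ Real.log l := Real.log_natCast_nonneg l
      have hl1 : (1 : ℝ) < l := by exact_mod_cast hp.one_lt
      have hl2 : 2 + 2 / ε < (l : ℝ) := hy2.trans hyl
      rw [← mul_div_assoc, div_le_div_iff₀ (by linarith) (by linarith)]
      have e2 : (l : ℝ) ≤ (1 + ε) * ((l : ℝ) - 1) := by
        have e3 : 1 ≤ ε * ((l : ℝ) - 1) := by
          have e4 : 2 / ε < (l : ℝ) - 1 := by linarith
          have e5 := mul_lt_mul_of_pos_left e4 hε
          rw [mul_div_cancel₀ _ hε.ne'] at e5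
          linarith
        linarith
      calc Real.log l * l ≤ Real.log l * ((1 + ε) * ((l : ℝ) - 1)) :=
            mul_le_mul_of_nonneg_left e2 hl0
        _ = (1 + ε) * Real.log l * ((l : ℝ) - 1) := by ring
    refine (Finset.sum_le_sum e1).trans ?_
    rw [← Finset.mul_sum]
    refine mul_le_mul_of_nonneg_left ?_ (by linarith)
    refine Finset.sum_le_sum_of_subset_of_nonneg ?_ ?_
    · intro l hl
      rw [Finset.mem_filter, Finset.mem_Icc] at hl ⊢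
      exact ⟨⟨hl.1.1, Nat.le_floor hl.2.2.2⟩, hl.2.2.1⟩
    · intro n _ _
      exact div_nonneg ArithmeticFunction.vonMangoldt_nonneg (Nat.cast_nonneg n)
  refine hterm.trans ?_
  have h3 : (1 + ε) * ∑ n ∈ (Icc 1 ⌊z⌋₊).filter (fun n : ℕ => y < (n : ℝ)),
      ArithmeticFunction.vonMangoldt n / n ≤
      (1 + ε) * ((1 / 2 - ε) * Real.log N - ε * Real.log N + C) :=
    mul_le_mul_of_nonneg_left hm (by linarith)
  refine h3.trans ?_
  -- `(1 + ε) ((1/2 - 2 ε) L + C) ≤ L / 2`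
  have h4 : C ≤ ε / 2 * Real.log N := by
    rw [div_lt_iff₀ hε] at g2
    linarith
  have h5 : (1 + ε) * C ≤ (1 + ε) * (ε / 2 * Real.log N) :=
    mul_le_mul_of_nonneg_left h4 (by linarith)
  nlinarith [mul_pos hε hlog, mul_pos (mul_pos hε hε) hlog]

/-- the primes in `(N^ε, N^(1/2-ε)]` (`AA_le`, `bv_sum`, `psi_ap`, `mertens_int`): at most
`(1/φ(M) + η) N ((1/2 - 2 ε) log N + C) + N^(1-ε/8)` -/
theorem part_three (M : ℕ) (ε η : ℝ) (hM : 1 ≤ M) (hε : 0 < ε) (hε1 : ε ≤ 1 / 8) (hη : 0 < η) :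
    ∃ N₀ : ℕ, ∀ N : ℕ, N₀ ≤ N →
    ∑ n ∈ (Icc 1 N).filter (fun n : ℕ => n.Prime ∧ (N : ℝ) ^ ε < n ∧ (n : ℝ) ≤ (N : ℝ) ^ (1 / 2 - ε)),
      ArithmeticFunction.vonMangoldt n * AA M N n ≤
        (1 / (M.totient : ℝ) + η) / 2 * N * Real.log N := by
  obtain ⟨N₁, hN₁⟩ := goldC_sum ε hε hε1
  obtain ⟨N₂, hN₂⟩ := bv_sum M hM ε hε hε1
  have hφ : (0 : ℝ) < M.totient := by
    have := Nat.totient_pos.2 (by omega : 0 < M)
    exact_mod_cast this
  have hpsi := Pool.Agent.Lib.MP_629a14_nt.Rob.psi_ap M 1 hM (Nat.coprime_one_left M)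
  have h1 : ∀ᶠ N : ℕ in Filter.atTop,
      (∑ n ∈ (Icc 1 N).filter (fun n => n ≡ 1 [MOD M]), ArithmeticFunction.vonMangoldt n) / (N : ℝ) <
        1 / (M.totient : ℝ) + η / 2 :=
    hpsi.eventually_lt_const (by linarith)
  have h2 : ∀ᶠ N : ℕ in Filter.atTop, (M : ℝ) < (N : ℝ) ^ ε := by
    have h1 := (tendsto_rpow_atTop hε).comp tendsto_natCast_atTop_atTop
    exact h1.eventually_gt_atTop _
  have h3 : ∀ᶠ N : ℕ in Filter.atTop, 4 / η < Real.log N := by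
    have h1 := Real.tendsto_log_atTop.comp tendsto_natCast_atTop_atTop
    exact h1.eventually_gt_atTop _
  obtain ⟨N₀, hN₀⟩ := Filter.eventually_atTop.1 (h1.and (h2.and (h3.and
    ((Filter.eventually_ge_atTop 3).and ((Filter.eventually_ge_atTop N₁).and
      (Filter.eventually_ge_atTop N₂))))))
  refine ⟨N₀, fun N hN => ?_⟩
  obtain ⟨g1, g2, g3, g4, g5, g6⟩ := hN₀ N hN
  have hNpos : (0 : ℝ) < N := by
    have : 0 < N := by omega
    exact_mod_cast this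
  have hN1 : (1 : ℝ) ≤ N := by exact_mod_cast (by omega : 1 ≤ N)
  have hlog : 0 < Real.log N := Real.log_pos (by exact_mod_cast (by omega : 1 < N))
  have s1 := hN₁ N g5
  have s2 := hN₂ N g6
  set ψ : ℝ := ∑ n ∈ (Icc 1 N).filter (fun n => n ≡ 1 [MOD M]), ArithmeticFunction.vonMangoldt n
    with hψ
  have hψ0 : 0 ≤ ψ := Finset.sum_nonneg fun n _ => ArithmeticFunction.vonMangoldt_nonneg
  rw [div_lt_iff₀ hNpos] at g1
  set S := (Icc 1 N).filter (fun n : ℕ => n.Prime ∧ (N : ℝ) ^ ε < n ∧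
    (n : ℝ) ≤ (N : ℝ) ^ (1 / 2 - ε)) with hS
  -- termwise
  have hterm : ∀ l ∈ S, ArithmeticFunction.vonMangoldt l * AA M N l ≤
      ψ * (Real.log l / ((l : ℝ) - 1)) + Real.log l / ((l : ℝ) - 1) *
        ∑ x ∈ (Pool.Agent.Lib.MP_629a14_nt.Th.prims l).filter (fun x => x.1 = l),
          ‖chiS M N x.2‖ := by
    intro l hl
    rw [hS, Finset.mem_filter, Finset.mem_Icc] at hl
    obtain ⟨⟨hl1, -⟩, hp, hyl, -⟩ := hl
    have hlM : ¬ l ∣ M := by
      intro h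
      have h4 : (l : ℝ) ≤ M := by exact_mod_cast Nat.le_of_dvd (by omega) h
      linarith
    have h4 := AA_le hM hp hlM N
    rw [← hψ] at h4
    rw [ArithmeticFunction.vonMangoldt_apply_prime hp]
    have hl0 : 0 ≤ Real.log l := Real.log_natCast_nonneg l
    refine (mul_le_mul_of_nonneg_left h4 hl0).trans (le_of_eq ?_)
    ring
  refine (Finset.sum_le_sum hterm).trans ?_
  rw [Finset.sum_add_distrib, ← Finset.mul_sum]
  have h5 : ψ * ∑ l ∈ S, Real.log l / ((l : ℝ) - 1) ≤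
      ((1 / (M.totient : ℝ) + η / 2) * N) * (1 / 2 * Real.log N) := by
    refine mul_le_mul g1.le s1 ?_ (by positivity)
    refine Finset.sum_nonneg fun l hl => ?_
    rw [hS, Finset.mem_filter] at hl
    have : (1 : ℝ) < l := by exact_mod_cast hl.2.1.one_lt
    exact div_nonneg (Real.log_natCast_nonneg l) (by linarith)
  have h6 : (N : ℝ) ^ (1 - ε / 8) ≤ N := by
    calc (N : ℝ) ^ (1 - ε / 8) ≤ (N : ℝ) ^ (1 : ℝ) :=
          Real.rpow_le_rpow_of_exponent_le hN1 (by linarith)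
      _ = N := Real.rpow_one _
  have h7 : (N : ℝ) ≤ η / 4 * N * Real.log N := by
    rw [div_lt_iff₀ hη] at g3
    nlinarith
  calc _ ≤ ((1 / (M.totient : ℝ) + η / 2) * N) * (1 / 2 * Real.log N) +
        (N : ℝ) ^ (1 - ε / 8) := add_le_add h5 s2
    _ ≤ ((1 / (M.totient : ℝ) + η / 2) * N) * (1 / 2 * Real.log N) + η / 4 * N * Real.log N := by
        linarith
    _ = (1 / (M.totient : ℝ) + η) / 2 * N * Real.log N := by ring

end Pool.Agent.Lib.MP_a9e8ee_lc.EW
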