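import Mathlib
import Pool.Agent.Lib.MP_a9e8ee_lc.EW.GoldA
import Pool.Agent.Lib.MP_a9e8ee_lc.EW.GoldB
import Pool.Agent.Lib.MP_a9e8ee_lc.EW.GoldC

/-!
# Goldfeld theorem in the class 1 modulo M
-/

set_option autoImplicit false

open Finset

namespace Pool.Agent.Lib.MP_a9e8ee_lc.EW

theorem AA_nonneg (M N n : ℕ) : 0 ≤ AA M N n := by
  refine Finset.sum_nonneg fun r _ => ?_
  exact Real.log_natCast_nonneg r

/-- The sum over all `n` is at most the sum of the five parts. -/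
theorem gold_split (M N : ℕ) (a b c : ℝ) :
    ∑ n ∈ Icc 1 N, ArithmeticFunction.vonMangoldt n * AA M N n ≤
      ∑ n ∈ (Icc 1 N).filter (fun n : ℕ => (n : ℝ) ≤ a),
        ArithmeticFunction.vonMangoldt n * AA M N n +
      ∑ n ∈ (Icc 1 N).filter (fun n : ℕ => a < n ∧ ¬ n.Prime),
        ArithmeticFunction.vonMangoldt n * AA M N n +
      ∑ n ∈ (Icc 1 N).filter (fun n : ℕ => n.Prime ∧ a < n ∧ (n : ℝ) ≤ b),
        ArithmeticFunction.vonMangoldt n * AA M N n +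
      ∑ n ∈ (Icc 1 N).filter (fun n : ℕ => n.Prime ∧ b < n ∧ (n : ℝ) ≤ c),
        ArithmeticFunction.vonMangoldt n * AA M N n +
      ∑ n ∈ (Icc 1 N).filter (fun n : ℕ => n.Prime ∧ c < n),
        ArithmeticFunction.vonMangoldt n * AA M N n := by
  simp only [Finset.sum_filter]
  rw [← Finset.sum_add_distrib, ← Finset.sum_add_distrib, ← Finset.sum_add_distrib,
    ← Finset.sum_add_distrib]
  refine Finset.sum_le_sum fun n _ => ?_
  have h0 : 0 ≤ ArithmeticFunction.vonMangoldt n * AA M N n :=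
    mul_nonneg ArithmeticFunction.vonMangoldt_nonneg (AA_nonneg M N n)
  generalize ArithmeticFunction.vonMangoldt n * AA M N n = f at h0
  have hite : ∀ (P : Prop) [Decidable P], 0 ≤ (if P then f else 0) := by
    intro P _
    split_ifs
    · exact h0
    · exact le_rfl
  by_cases h1 : (n : ℝ) ≤ a
  · rw [if_pos h1]
    have := hite (a < n ∧ ¬ n.Prime)
    have := hite (n.Prime ∧ a < n ∧ (n : ℝ) ≤ b)
    have := hite (n.Prime ∧ b < n ∧ (n : ℝ) ≤ c)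
    have := hite (n.Prime ∧ c < n)
    linarith
  · push Not at h1
    by_cases hp : n.Prime
    · by_cases h2 : (n : ℝ) ≤ b
      · rw [if_pos (⟨hp, h1, h2⟩ : n.Prime ∧ a < n ∧ (n : ℝ) ≤ b)]
        have := hite ((n : ℝ) ≤ a)
        have := hite (a < n ∧ ¬ n.Prime)
        have := hite (n.Prime ∧ b < n ∧ (n : ℝ) ≤ c)
        have := hite (n.Prime ∧ c < n)
        linarith
      · push Not at h2
        by_cases h3 : (n : ℝ) ≤ c
        · rw [if_pos (⟨hp, h2, h3⟩ : n.Prime ∧ b < n ∧ (n : ℝ) ≤ c)]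
          have := hite ((n : ℝ) ≤ a)
          have := hite (a < n ∧ ¬ n.Prime)
          have := hite (n.Prime ∧ a < n ∧ (n : ℝ) ≤ b)
          have := hite (n.Prime ∧ c < n)
          linarith
        · push Not at h3
          rw [if_pos (⟨hp, h3⟩ : n.Prime ∧ c < n)]
          have := hite ((n : ℝ) ≤ a)
          have := hite (a < n ∧ ¬ n.Prime)
          have := hite (n.Prime ∧ a < n ∧ (n : ℝ) ≤ b)
          have := hite (n.Prime ∧ b < n ∧ (n : ℝ) ≤ c)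
          linarith
    · rw [if_pos (⟨h1, hp⟩ : a < n ∧ ¬ n.Prime)]
      have := hite ((n : ℝ) ≤ a)
      have := hite (n.Prime ∧ a < n ∧ (n : ℝ) ≤ b)
      have := hite (n.Prime ∧ b < n ∧ (n : ℝ) ≤ c)
      have := hite (n.Prime ∧ c < n)
      linarith

/-- Goldfeld's theorem in the class `1` modulo `M`. PROOF. Let `c = 1/φ(M)`, `ε` and `η` small
(`2 η + 2 C ε + ε + ..< c/4`), `N` large. By `T_eq`, `T_lower` and the four parts the sum of `Λ n AA n` over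
the primes `n > N^(1/2+ε)` is positive, so there are a prime `n = q > N^(1/2+ε)` and a prime `r ≤ N`,
`r ≡ 1` modulo `M`, `q ∣ r - 1`; `4 r ≤ 4 N < N^(1+2ε) < q²`, and `r > q > B`. -/
theorem goldfeld (M : ℕ) (hM : 1 ≤ M) (B : ℕ) : ∃ q r : ℕ, q.Prime ∧ r.Prime ∧ B < q ∧ q < r ∧
    r ≡ 1 [MOD M] ∧ q ∣ r - 1 ∧ 4 * r < q ^ 2 := by
  obtain ⟨C₁, hC₁, P1⟩ := part_one
  obtain ⟨C₄, hC₄, P4⟩ := part_four
  obtain ⟨c, hc⟩ : ∃ c : ℝ, c = 1 / (M.totient : ℝ) := ⟨_, rfl⟩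
  have hφ : (0 : ℝ) < M.totient := by
    have := Nat.totient_pos.2 (by omega : 0 < M)
    exact_mod_cast this
  have hc0 : 0 < c := by rw [hc]; positivity
  obtain ⟨ε, hε, hε8, hεc⟩ : ∃ ε : ℝ, 0 < ε ∧ ε ≤ 1 / 8 ∧ (C₁ + C₄ + 1) * ε ≤ c / 16 := by
    have h1 : 0 < C₁ + C₄ + 1 := by positivity
    refine ⟨min (1 / 8) (c / 16 / (C₁ + C₄ + 1)), lt_min (by norm_num) (by positivity),
      min_le_left _ _, ?_⟩
    have h2 := min_le_right (1 / 8 : ℝ) (c / 16 / (C₁ + C₄ + 1))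
    calc (C₁ + C₄ + 1) * min (1 / 8) (c / 16 / (C₁ + C₄ + 1))
        ≤ (C₁ + C₄ + 1) * (c / 16 / (C₁ + C₄ + 1)) := mul_le_mul_of_nonneg_left h2 h1.le
      _ = c / 16 := by field_simp
  obtain ⟨N₁, hN₁⟩ := P1 M ε hM hε hε8
  obtain ⟨N₂, hN₂⟩ := part_two M ε hM hε hε8
  obtain ⟨N₃, hN₃⟩ := part_three M ε (c / 16) hM hε hε8 (by positivity)
  obtain ⟨N₄, hN₄⟩ := P4 M ε hM hε hε8
  obtain ⟨N₅, hN₅⟩ := T_lower M hM (c / 16) (by positivity)
  -- a large `N`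
  have hlarge : ∀ᶠ N : ℕ in Filter.atTop, (4 : ℝ) < (N : ℝ) ^ (2 * ε) := by
    have h1 := (tendsto_rpow_atTop (by positivity : 0 < 2 * ε)).comp tendsto_natCast_atTop_atTop
    exact h1.eventually_gt_atTop 4
  have hlarge2 : ∀ᶠ N : ℕ in Filter.atTop, (B : ℝ) < (N : ℝ) ^ (1 / 2 + ε) := by
    have h1 := (tendsto_rpow_atTop (by positivity : 0 < 1 / 2 + ε)).comp
      tendsto_natCast_atTop_atTop
    exact h1.eventually_gt_atTop (B : ℝ)
  obtain ⟨N, hN4, hNB, hN1, hN2, hN3, hN4', hN5, hN6⟩ := (hlarge.and (hlarge2.and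
    ((Filter.eventually_ge_atTop N₁).and ((Filter.eventually_ge_atTop N₂).and
    ((Filter.eventually_ge_atTop N₃).and ((Filter.eventually_ge_atTop N₄).and
    ((Filter.eventually_ge_atTop N₅).and (Filter.eventually_ge_atTop 3)))))))).exists
  have hNpos : (0 : ℝ) < N := by
    have : 0 < N := by omega
    exact_mod_cast this
  have hlog : 0 < Real.log N := Real.log_pos (by exact_mod_cast (by omega : 1 < N))
  have b1 := hN₁ N hN1
  have b2 := hN₂ N hN2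
  have b3 := hN₃ N hN3
  have b4 := hN₄ N hN4'
  have b5 := hN₅ N hN5
  rw [T_eq] at b5
  have hs := gold_split M N ((N : ℝ) ^ ε) ((N : ℝ) ^ (1 / 2 - ε)) ((N : ℝ) ^ (1 / 2 + ε))
  rw [← hc] at b3 b5
  have hL : 0 < (N : ℝ) * Real.log N := mul_pos hNpos hlog
  have hpos : 0 < ∑ n ∈ (Icc 1 N).filter (fun n : ℕ => n.Prime ∧ (N : ℝ) ^ (1 / 2 + ε) < n),
      ArithmeticFunction.vonMangoldt n * AA M N n := by
    have h1 : (C₁ + C₄ + 1) * ε * (N * Real.log N) ≤ c / 16 * (N * Real.log N) :=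
      mul_le_mul_of_nonneg_right hεc hL.le
    have h2 : 0 < c * (N * Real.log N) := mul_pos hc0 hL
    nlinarith [h1, h2, b1, b2, b3, b4, b5, hs]
  obtain ⟨q, hq, hq0⟩ := Finset.exists_ne_zero_of_sum_ne_zero hpos.ne'
  rw [Finset.mem_filter, Finset.mem_Icc] at hq
  obtain ⟨⟨hq1, hqN⟩, hqp, hqbig⟩ := hq
  have hA : AA M N q ≠ 0 := right_ne_zero_of_mul hq0
  obtain ⟨r, hr, -⟩ := Finset.exists_ne_zero_of_sum_ne_zero hA
  rw [Finset.mem_filter, Finset.mem_Icc] at hr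
  obtain ⟨⟨hr1, hrN⟩, hrp, hrM, hdvd⟩ := hr
  refine ⟨q, r, hqp, hrp, ?_, ?_, hrM, hdvd, ?_⟩
  · have : (B : ℝ) < q := hNB.trans hqbig
    exact_mod_cast this
  · have h1 : 0 < r - 1 := by
      have := hrp.one_lt
      omega
    have := Nat.le_of_dvd h1 hdvd
    omega
  · have h1 : (N : ℝ) ^ (1 + 2 * ε) < (q : ℝ) ^ 2 := by
      have h2 : (N : ℝ) ^ (1 + 2 * ε) = ((N : ℝ) ^ (1 / 2 + ε)) ^ 2 := by
        rw [← Real.rpow_natCast, ← Real.rpow_mul hNpos.le]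
        congr 1
        push_cast
        ring
      rw [h2]
      have h3 : 0 ≤ (N : ℝ) ^ (1 / 2 + ε) := Real.rpow_nonneg hNpos.le _
      exact pow_lt_pow_left₀ hqbig h3 two_ne_zero
    have h2 : (4 : ℝ) * N < (N : ℝ) ^ (1 + 2 * ε) := by
      rw [Real.rpow_add hNpos, Real.rpow_one, mul_comm]
      exact mul_lt_mul_of_pos_left hN4 hNpos
    have h3 : (r : ℝ) ≤ N := by exact_mod_cast hrN
    have h4 : (4 : ℝ) * r < (q : ℝ) ^ 2 := by linarith
    exact_mod_cast h4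


end Pool.Agent.Lib.MP_a9e8ee_lc.EW
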