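import Mathlib
import Pool.Agent.Lib.MP_a9e8ee_lc.EW.Gold
import Pool.Agent.Lib.MP_a9e8ee_lc.EW.Comb

/-!
# Erdos-Woods numbers are not ultimately periodic
-/

set_option autoImplicit false

open Finset

namespace Pool.Agent.Lib.MP_a9e8ee_lc.EW

/-- For every `m` there is a class `b + 1` modulo `m`, `b` prime to `m`, which contains infinitely many
Erdos-Woods numbers and infinitely many other numbers. PROOF. `goldfeld m` with `B ≥ m`, `B ≥ 3`: infinitely many
`d = q + r ∈ ES` (`two_prime`: `q + r < 2 r ≤ q²/2 < q * q`), `d ≡ q + 1` modulo `m`, `q` is prime to `m` since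
`q > m`. Some class `b` of `q` occurs infinitely often (`Set.infinite` pigeonhole). Dirichlet
(`Nat.setOf_prime_and_eq_mod_infinite` or `forall_exists_prime_gt_and_eq_mod`): infinitely many primes `p ≡ b`,
`p + 1 ∉ ES` (`notMem_of_prime`). -/
theorem class_both (m : ℕ) (hm : 1 ≤ m) : ∃ b : ℕ, Nat.Coprime b m ∧
    {d | d ∈ ES ∧ d ≡ b + 1 [MOD m]}.Infinite ∧ {d | d ∉ ES ∧ d ≡ b + 1 [MOD m]}.Infinite := by
  have hS : {d : ℕ | d ∈ ES ∧ 1 ≤ d ∧ Nat.Coprime (d - 1) m}.Infinite := by
    refine Set.infinite_of_forall_exists_gt fun B => ?_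
    obtain ⟨q, r, hq, hr, hBq, hqr, hr1, hdvd, hlt⟩ := goldfeld m hm (max B m)
    have hB : B < q := lt_of_le_of_lt (le_max_left _ _) hBq
    have hmq : m < q := lt_of_le_of_lt (le_max_right _ _) hBq
    have hlt' : q + r < q * q := by
      rw [pow_two] at hlt
      omega
    refine ⟨q + r, ⟨two_prime hq hr hqr hdvd hlt', by omega, ?_⟩, by omega⟩
    have h1 : Nat.Coprime q m := by
      rw [Nat.Prime.coprime_iff_not_dvd hq]
      intro h
      exact absurd (Nat.le_of_dvd (by omega) h) (by omega)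
    have h2 : q + r - 1 ≡ q [MOD m] := by
      have h3 : q + r - 1 = q + (r - 1) := by
        have := hr.one_lt
        omega
      rw [h3]
      have h4 : r - 1 ≡ 0 [MOD m] := by
        have h5 : (r - 1) + 1 ≡ 0 + 1 [MOD m] := by
          rw [Nat.sub_add_cancel hr.one_lt.le]
          simpa using hr1
        exact Nat.ModEq.add_right_cancel' 1 h5
      simpa using (Nat.ModEq.refl q).add h4
    exact h2.gcd_eq.trans h1
  obtain ⟨b, hb, hinf⟩ : ∃ b < m, {d : ℕ | (d ∈ ES ∧ 1 ≤ d ∧ Nat.Coprime (d - 1) m) ∧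
      (d - 1) % m = b}.Infinite := by
    by_contra hcon
    push Not at hcon
    apply hS
    refine ((Finset.range m).finite_toSet.biUnion fun b hb =>
      hcon b (Finset.mem_range.1 hb)).subset ?_
    intro d hd
    rw [Set.mem_iUnion₂]
    exact ⟨(d - 1) % m, Finset.mem_coe.2 (Finset.mem_range.2 (Nat.mod_lt _ (by omega))), hd, rfl⟩
  have hbm : Nat.Coprime b m := by
    obtain ⟨d, hd, hdb⟩ := hinf.nonempty
    have h1 := hd.2.2
    rw [← hdb]
    exact (Nat.mod_modEq (d - 1) m).gcd_eq.trans h1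
  refine ⟨b, hbm, hinf.mono ?_, ?_⟩
  · rintro d ⟨⟨hd, hd1, -⟩, hdb⟩
    refine ⟨hd, ?_⟩
    have h1 : d - 1 ≡ b [MOD m] := by
      rw [← hdb]
      exact (Nat.mod_modEq (d - 1) m).symm
    have h2 := h1.add_right 1
    rwa [Nat.sub_add_cancel hd1] at h2
  · refine Set.infinite_of_forall_exists_gt fun B => ?_
    have : NeZero m := ⟨by omega⟩
    obtain ⟨p, hp, hpp, hpb⟩ := Nat.forall_exists_prime_gt_and_eq_mod
      ((ZMod.isUnit_iff_coprime b m).2 hbm) (max B 3)
    refine ⟨p + 1, ⟨notMem_of_prime ?_ ?_, ?_⟩, ?_⟩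
    · have := le_max_right B 3
      omega
    · rw [Nat.add_sub_cancel]
      exact hpp
    · exact ((ZMod.natCast_eq_natCast_iff _ _ _).1 hpb).add_right 1
    · have := le_max_left B 3
      omega

/-- `ES` is not ultimately periodic -/
theorem not_periodic : ¬ ∃ k p : ℕ, 0 < p ∧ ∀ x, k ≤ x → (x ∈ ES ↔ x + p ∈ ES) := by
  rintro ⟨k, p, hp, h⟩
  obtain ⟨b, -, h1, h2⟩ := class_both p hp
  obtain ⟨x, hx, hxk⟩ := h1.exists_gt k
  obtain ⟨y, hy, hyx⟩ := h2.exists_gt x
  have h3 : x ≡ y [MOD p] := hx.2.trans hy.2.symm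
  obtain ⟨j, hj⟩ := (Nat.modEq_iff_dvd' hyx.le).1 h3
  have h4 : ∀ i : ℕ, x + p * i ∈ ES := by
    intro i
    induction i with
    | zero => rw [mul_zero, add_zero]; exact hx.1
    | succ i ih =>
      have h5 : k ≤ x + p * i := hxk.le.trans (Nat.le_add_right _ _)
      have h6 := (h _ h5).1 ih
      rwa [mul_add, mul_one, ← add_assoc]
  apply hy.1
  have h7 : y = x + p * j := by omega
  rw [h7]
  exact h4 j

open FirstOrder Language in
/-- `ES` is not definable in `(ℕ, +)`, with parameters (`presburger.definable₁_iff_ultimately_periodic`) -/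
theorem not_definable : ¬ (Set.univ : Set ℕ).Definable₁ presburger ES := by
  intro h
  rw [presburger.definable₁_iff_ultimately_periodic] at h
  obtain ⟨k, p, hp, h⟩ := h
  exact not_periodic ⟨k, p, hp, fun x hx => h x hx⟩


end Pool.Agent.Lib.MP_a9e8ee_lc.EW
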